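import Mathlib

/-!
# Inverse transforms of entire functions of gamma type: doubly exponential decay
-/

open Complex MeasureTheory Filter Topology Set

set_option linter.unusedSectionVars false
set_option linter.unusedVariables false
set_option autoImplicit false

namespace H313.GK

noncomputable section

/-- point on a vertical line -/
def vl (σ τ : ℝ) : ℂ := (σ : ℂ) + (τ : ℂ) * I

@[simp] theorem vl_re (σ τ : ℝ) : (vl σ τ).re = σ := by simp [vl]
@[simp] theorem vl_im (σ τ : ℝ) : (vl σ τ).im = τ := by simp [vl]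

theorem vl_cont (σ : ℝ) : Continuous (vl σ) := by unfold vl; fun_prop

theorem eq_vl (s : ℂ) : s = vl s.re s.im := by
  apply Complex.ext <;> simp

/-- the inverse transform on the line `Re s = σ` -/
def Inv (Φ : ℂ → ℂ) (σ v : ℝ) : ℂ := ((1 / (2 * Real.pi) : ℝ) : ℂ) * ∫ τ : ℝ, Φ (vl σ τ) * cexp (vl σ τ * v)

theorem norm_exp_vl (σ τ v : ℝ) : ‖cexp (vl σ τ * v)‖ = Real.exp (σ * v) := by
  rw [Complex.norm_exp]
  congr 1
  simp [vl]

/-- bound on a line -/
structure LB (Φ : ℂ → ℂ) (σ B : ℝ) : Prop where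
  nn : 0 ≤ B
  cont : Continuous (fun τ : ℝ => Φ (vl σ τ))
  bd : ∀ τ : ℝ, ‖Φ (vl σ τ)‖ ≤ B * (1 + τ ^ 2)⁻¹

theorem LB.int {Φ : ℂ → ℂ} {σ B : ℝ} (h : LB Φ σ B) : Integrable (fun τ : ℝ => Φ (vl σ τ)) :=
  (integrable_inv_one_add_sq.const_mul B).mono' h.cont.aestronglyMeasurable (ae_of_all _ h.bd)

theorem LB.int_exp {Φ : ℂ → ℂ} {σ B : ℝ} (h : LB Φ σ B) (v : ℝ) :
    Integrable (fun τ : ℝ => Φ (vl σ τ) * cexp (vl σ τ * v)) := by
  have hc := h.cont
  have hv := vl_cont σ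
  refine ((integrable_inv_one_add_sq.const_mul B).mul_const (Real.exp (σ * v))).mono' ?_ (ae_of_all _ fun τ => ?_)
  · have h2 : Continuous fun τ : ℝ => cexp (vl σ τ * v) := by fun_prop
    exact (hc.mul h2).aestronglyMeasurable
  · rw [norm_mul, norm_exp_vl]
    exact mul_le_mul_of_nonneg_right (h.bd τ) (Real.exp_pos _).le

theorem LB.inv_le {Φ : ℂ → ℂ} {σ B : ℝ} (h : LB Φ σ B) (v : ℝ) : ‖Inv Φ σ v‖ ≤ B * Real.exp (σ * v) := by
  unfold Inv
  rw [norm_mul, Complex.norm_real, Real.norm_eq_abs, abs_of_pos (by positivity)]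
  have h1 : ‖∫ τ : ℝ, Φ (vl σ τ) * cexp (vl σ τ * v)‖ ≤ ∫ τ : ℝ, B * (1 + τ ^ 2)⁻¹ * Real.exp (σ * v) := by
    refine norm_integral_le_of_norm_le ((integrable_inv_one_add_sq.const_mul B).mul_const _) (ae_of_all _ fun τ => ?_)
    rw [norm_mul, norm_exp_vl]
    exact mul_le_mul_of_nonneg_right (h.bd τ) (Real.exp_pos _).le
  rw [integral_mul_const, integral_const_mul, integral_univ_inv_one_add_sq] at h1
  have h2 := Real.pi_pos
  have h3 := h.nn
  calc 1 / (2 * Real.pi) * ‖∫ τ : ℝ, Φ (vl σ τ) * cexp (vl σ τ * v)‖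
      ≤ 1 / (2 * Real.pi) * (B * Real.pi * Real.exp (σ * v)) := mul_le_mul_of_nonneg_left h1 (by positivity)
    _ = B * Real.exp (σ * v) / 2 := by field_simp
    _ ≤ B * Real.exp (σ * v) := by
      have : 0 ≤ B * Real.exp (σ * v) := mul_nonneg h3 (Real.exp_pos _).le
      linarith

theorem LB.inv_cont {Φ : ℂ → ℂ} {σ B : ℝ} (h : LB Φ σ B) : Continuous (Inv Φ σ) := by
  have e : Inv Φ σ = fun v : ℝ => ((1 / (2 * Real.pi) : ℝ) : ℂ) * (cexp (σ * v) * ∫ τ : ℝ, Φ (vl σ τ) * cexp (τ * I * v)) := by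
    funext v
    unfold Inv
    rw [← integral_const_mul (cexp ((σ : ℂ) * v))]
    congr 1
    refine integral_congr_ae (ae_of_all _ fun τ => ?_)
    simp only
    rw [show vl σ τ * (v : ℂ) = (σ : ℂ) * v + τ * I * v by unfold vl; ring, Complex.exp_add]
    ring
  rw [e]
  have h1 : Continuous fun v : ℝ => ∫ τ : ℝ, Φ (vl σ τ) * cexp (τ * I * v) := by
    have hc := h.cont
    refine continuous_of_dominated (bound := fun τ => B * (1 + τ ^ 2)⁻¹) (fun v => ?_) (fun v => ae_of_all _ fun τ => ?_)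
      (integrable_inv_one_add_sq.const_mul B) (ae_of_all _ fun τ => ?_)
    · have h2 : Continuous fun τ : ℝ => cexp (τ * I * v) := by fun_prop
      exact (hc.mul h2).aestronglyMeasurable
    · rw [norm_mul]
      have : ‖cexp (τ * I * v)‖ = 1 := by
        rw [Complex.norm_exp]
        simp
      rw [this, mul_one]
      exact h.bd τ
    · fun_prop
  fun_prop

/-- moving the line of integration -/
theorem shift {Φ : ℂ → ℂ} {a b C : ℝ} (hab : a ≤ b)
    (hd : ∀ s : ℂ, a ≤ s.re → s.re ≤ b → DifferentiableAt ℂ Φ s)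
    (hb : ∀ s : ℂ, a ≤ s.re → s.re ≤ b → ‖Φ s‖ ≤ C * (1 + s.im ^ 2)⁻¹) :
    ∫ τ : ℝ, Φ (vl a τ) = ∫ τ : ℝ, Φ (vl b τ) := by
  have hC : 0 ≤ C := by
    have := (norm_nonneg _).trans (hb (vl a 0) (by simp) (by simpa using hab))
    simpa using this
  have lb : ∀ σ : ℝ, a ≤ σ → σ ≤ b → LB Φ σ C := by
    intro σ h1 h2
    refine ⟨hC, ?_, fun τ => ?_⟩
    · rw [continuous_iff_continuousAt]
      intro τ
      exact ContinuousAt.comp (f := vl σ) (hd (vl σ τ) (by simpa using h1) (by simpa using h2)).continuousAt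
        (vl_cont σ).continuousAt
    · have := hb (vl σ τ) (by simpa using h1) (by simpa using h2)
      simpa using this
  have hrect : ∀ T : ℝ, (∫ x : ℝ in a..b, Φ (vl x (-T))) - (∫ x : ℝ in a..b, Φ (vl x T)) +
      I • (∫ y : ℝ in (-T)..T, Φ (vl b y)) - I • (∫ y : ℝ in (-T)..T, Φ (vl a y)) = 0 := by
    intro T
    have h := Complex.integral_boundary_rect_eq_zero_of_differentiableOn Φ (vl a (-T)) (vl b T) (by
      intro s hs
      rw [mem_reProdIm, vl_re, vl_re, uIcc_of_le hab] at hs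
      exact (hd s hs.1.1 hs.1.2).differentiableWithinAt)
    simp only [vl_re, vl_im] at h
    simpa [vl] using h
  have hh : ∀ (f : ℝ → ℝ), (∀ T, |f T| = |T|) → Tendsto (fun T : ℝ => ∫ x : ℝ in a..b, Φ (vl x (f T))) atTop (𝓝 0) := by
    intro f hf
    have h1 : Tendsto (fun T : ℝ => C * (1 + T ^ 2)⁻¹ * |b - a|) atTop (𝓝 0) := by
      have h2 : Tendsto (fun T : ℝ => (1 + T ^ 2)⁻¹) atTop (𝓝 0) := by
        refine tendsto_inv_atTop_zero.comp ?_
        exact tendsto_atTop_add_const_left _ _ (tendsto_pow_atTop (by norm_num))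
      simpa using (h2.const_mul C).mul_const |b - a|
    refine squeeze_zero_norm (fun T => ?_) h1
    refine intervalIntegral.norm_integral_le_of_norm_le_const fun x hx => ?_
    rw [uIoc_of_le hab] at hx
    have := hb (vl x (f T)) (by simpa using hx.1.le) (by simpa using hx.2)
    rw [vl_im, ← sq_abs (f T), hf T, sq_abs] at this
    exact this
  have l1 := hh (fun T => -T) (fun T => abs_neg T)
  have l2 := hh (fun T => T) (fun T => rfl)
  have l3 := intervalIntegral_tendsto_integral (lb b hab le_rfl).int tendsto_neg_atTop_atBot tendsto_id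
  have l4 := intervalIntegral_tendsto_integral (lb a le_rfl hab).int tendsto_neg_atTop_atBot tendsto_id
  have l5 := ((l1.sub l2).add (l3.const_smul I)).sub (l4.const_smul I)
  have l6 := tendsto_nhds_unique l5 (by
    refine (tendsto_const_nhds (x := (0:ℂ))).congr fun T => ?_
    exact (hrect T).symm)
  simp only [sub_zero, zero_add, smul_eq_mul] at l6
  have l7 : I * ((∫ τ : ℝ, Φ (vl b τ)) - ∫ τ : ℝ, Φ (vl a τ)) = 0 := by rw [mul_sub]; exact l6
  have l8 := (mul_eq_zero.1 l7).resolve_left I_ne_zero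
  exact (sub_eq_zero.1 l8).symm

theorem inv_shift {Φ : ℂ → ℂ} {a b C : ℝ} (hab : a ≤ b)
    (hd : ∀ s : ℂ, a ≤ s.re → s.re ≤ b → DifferentiableAt ℂ Φ s)
    (hb : ∀ s : ℂ, a ≤ s.re → s.re ≤ b → ‖Φ s‖ ≤ C * (1 + s.im ^ 2)⁻¹) (v : ℝ) : Inv Φ a v = Inv Φ b v := by
  unfold Inv
  congr 1
  have hC : 0 ≤ C := by
    have := (norm_nonneg _).trans (hb (vl a 0) (by simp) (by simpa using hab))
    simpa using this
  refine shift (Φ := fun s => Φ s * cexp (s * v)) (C := C * Real.exp ((|a| + |b|) * |v|)) hab ?_ ?_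
  · intro s h1 h2
    exact (hd s h1 h2).mul (by fun_prop)
  · intro s h1 h2
    rw [norm_mul, Complex.norm_exp]
    have h3 : (s * (v : ℂ)).re = s.re * v := by simp
    rw [h3]
    have h4 : |s.re| ≤ |a| + |b| := by
      rw [abs_le]
      constructor
      · have := neg_abs_le a; have := abs_nonneg b; linarith
      · have := le_abs_self b; have := abs_nonneg a; linarith
    have h5 : Real.exp (s.re * v) ≤ Real.exp ((|a| + |b|) * |v|) := by
      refine Real.exp_le_exp.2 ((le_abs_self _).trans ?_)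
      rw [abs_mul]
      exact mul_le_mul_of_nonneg_right h4 (abs_nonneg _)
    have h6 : 0 ≤ C * (1 + s.im ^ 2)⁻¹ := by positivity
    calc ‖Φ s‖ * Real.exp (s.re * v) ≤ (C * (1 + s.im ^ 2)⁻¹) * Real.exp ((|a| + |b|) * |v|) :=
          mul_le_mul (hb s h1 h2) h5 (Real.exp_pos _).le h6
      _ = _ := by ring

/-- entire functions of gamma type, of order `1/b` -/
structure KP (b : ℝ) (Φ : ℂ → ℂ) : Prop where
  diff : Differentiable ℂ Φ
  bd : ∀ k : ℕ, ∃ A : ℝ, 0 ≤ A ∧ ∀ s : ℂ, ‖Φ s‖ * (1 + |s.im|) ^ k ≤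
    Real.exp (A * (1 + |s.re|) + |s.re| * Real.log (1 + |s.re|) / b)

theorem sq_le_two (τ : ℝ) : 1 + τ ^ 2 ≤ (1 + |τ|) ^ 2 := by
  have h1 := abs_nonneg τ
  have h2 := sq_abs τ
  nlinarith

theorem KP.bd2 {b : ℝ} {Φ : ℂ → ℂ} (h : KP b Φ) : ∃ A : ℝ, 0 ≤ A ∧ ∀ s : ℂ, ‖Φ s‖ ≤
    Real.exp (A * (1 + |s.re|) + |s.re| * Real.log (1 + |s.re|) / b) * (1 + s.im ^ 2)⁻¹ := by
  obtain ⟨A, hA, hb⟩ := h.bd 2
  refine ⟨A, hA, fun s => ?_⟩
  rw [← div_eq_mul_inv, le_div_iff₀ (by positivity)]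
  exact (mul_le_mul_of_nonneg_left (sq_le_two s.im) (norm_nonneg _)).trans (hb s)

theorem KP.lb {b : ℝ} {Φ : ℂ → ℂ} (h : KP b Φ) : ∃ A : ℝ, 0 ≤ A ∧ ∀ σ : ℝ,
    LB Φ σ (Real.exp (A * (1 + |σ|) + |σ| * Real.log (1 + |σ|) / b)) := by
  obtain ⟨A, hA, hb⟩ := h.bd2
  refine ⟨A, hA, fun σ => ⟨(Real.exp_pos _).le, h.diff.continuous.comp (vl_cont σ), fun τ => ?_⟩⟩
  have := hb (vl σ τ)
  simpa using this

theorem KP.indep {b : ℝ} (hb0 : 0 < b) {Φ : ℂ → ℂ} (h : KP b Φ) (σ σ' v : ℝ) : Inv Φ σ v = Inv Φ σ' v := by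
  obtain ⟨A, hA, hb⟩ := h.bd2
  have key : ∀ a c : ℝ, a ≤ c → Inv Φ a v = Inv Φ c v := by
    intro a c hac
    refine inv_shift (C := Real.exp (A * (1 + (|a| + |c|)) + (|a| + |c|) * Real.log (1 + (|a| + |c|)) / b)) hac
      (fun s _ _ => h.diff s) (fun s h1 h2 => ?_) v
    refine (hb s).trans (mul_le_mul_of_nonneg_right (Real.exp_le_exp.2 ?_) (by positivity))
    have h4 : |s.re| ≤ |a| + |c| := by
      rw [abs_le]
      constructor
      · have := neg_abs_le a; have := abs_nonneg c; linarith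
      · have := le_abs_self c; have := abs_nonneg a; linarith
    have h5 := abs_nonneg s.re
    have h6 : Real.log (1 + |s.re|) ≤ Real.log (1 + (|a| + |c|)) := Real.log_le_log (by linarith) (by linarith)
    have h7 : 0 ≤ Real.log (1 + |s.re|) := Real.log_nonneg (by linarith)
    have h8 : |s.re| * Real.log (1 + |s.re|) ≤ (|a| + |c|) * Real.log (1 + (|a| + |c|)) :=
      mul_le_mul h4 h6 h7 (by linarith)
    have h9 := div_le_div_of_nonneg_right h8 hb0.le
    have h10 : A * (1 + |s.re|) ≤ A * (1 + (|a| + |c|)) := mul_le_mul_of_nonneg_left (by linarith) hA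
    linarith
  rcases le_total σ σ' with h1 | h1
  · exact key _ _ h1
  · exact (key _ _ h1).symm

/-- **doubly exponential decay** -/
theorem KP.decay {b : ℝ} (hb0 : 0 < b) {Φ : ℂ → ℂ} (h : KP b Φ) (σ : ℝ) :
    ∃ κ : ℝ, 0 < κ ∧ ∃ C : ℝ, 0 ≤ C ∧ ∀ v : ℝ, ‖Inv Φ σ v‖ ≤ C * Real.exp (-(κ * Real.exp (b * |v|))) := by
  obtain ⟨A, hA, hl⟩ := h.lb
  refine ⟨Real.exp (-(b * (A + 1))), Real.exp_pos _, Real.exp (A + 1), (Real.exp_pos _).le, fun v => ?_⟩
  set X : ℝ := Real.exp (b * (|v| - A - 1)) with hX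
  have hX0 : 0 < X := Real.exp_pos _
  have e1 : Real.exp (-(b * (A + 1))) * Real.exp (b * |v|) = X := by
    rw [← Real.exp_add, hX]
    congr 1
    ring
  rw [e1, ← Real.exp_add]
  set S : ℝ := max 0 (X - 1) with hS
  have hS0 : 0 ≤ S := le_max_left _ _
  -- the bound on the line `± S`
  have h1 : ‖Inv Φ σ v‖ ≤ Real.exp (A * (1 + S) + S * Real.log (1 + S) / b) * Real.exp (-(S * |v|)) := by
    rcases le_total 0 v with hv | hv
    · rw [h.indep hb0 σ (-S) v]
      have h2 := (hl (-S)).inv_le v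
      rw [abs_neg, abs_of_nonneg hS0] at h2
      rw [abs_of_nonneg hv]
      refine h2.trans (le_of_eq ?_)
      congr 2
      ring
    · rw [h.indep hb0 σ S v]
      have h2 := (hl S).inv_le v
      rw [abs_of_nonneg hS0] at h2
      rw [abs_of_nonpos hv]
      refine h2.trans (le_of_eq ?_)
      congr 2
      ring
  rw [← Real.exp_add] at h1
  refine h1.trans (Real.exp_le_exp.2 ?_)
  rcases le_total 1 X with hX1 | hX1
  · have hS1 : S = X - 1 := max_eq_right (by linarith)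
    have hlog : Real.log (1 + S) = b * (|v| - A - 1) := by
      rw [hS1, show 1 + (X - 1) = X by ring, hX, Real.log_exp]
    rw [hlog]
    have h3 : S * (b * (|v| - A - 1)) / b = S * (|v| - A - 1) := by field_simp
    rw [h3, hS1]
    nlinarith
  · have hS1 : S = 0 := max_eq_left (by linarith)
    rw [hS1]
    simp
    linarith

/-- division by a zero -/
theorem KP.dslope {b : ℝ} (hb0 : 0 < b) {Φ : ℂ → ℂ} (h : KP b Φ) (ρ : ℂ) (h0 : Φ ρ = 0) : KP b (dslope Φ ρ) := by
  have hd : Differentiable ℂ (_root_.dslope Φ ρ) := by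
    have := (Complex.differentiableOn_dslope (f := Φ) (s := univ) (c := ρ) Filter.univ_mem).2 h.diff.differentiableOn
    exact fun s => (this s (mem_univ s)).differentiableAt Filter.univ_mem
  refine ⟨hd, fun k => ?_⟩
  obtain ⟨A, hA, hb⟩ := h.bd k
  have hcomp : IsCompact (Metric.closedBall ρ 1) := isCompact_closedBall ρ 1
  obtain ⟨M, hM⟩ := hcomp.exists_bound_of_continuousOn hd.continuous.continuousOn
  have hM0 : 0 ≤ M := (norm_nonneg _).trans (hM ρ (Metric.mem_closedBall_self (by norm_num)))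
  set M' : ℝ := M * (2 + |ρ.im|) ^ k with hM'
  have hM'0 : 0 ≤ M' := by positivity
  refine ⟨A + M', by positivity, fun s => ?_⟩
  have hlog : 0 ≤ |s.re| * Real.log (1 + |s.re|) / b := by
    have := abs_nonneg s.re
    have : 0 ≤ Real.log (1 + |s.re|) := Real.log_nonneg (by linarith)
    positivity
  have hre := abs_nonneg s.re
  rcases le_total ‖s - ρ‖ 1 with hs | hs
  · have h1 := hM s (by rwa [Metric.mem_closedBall, dist_eq_norm])
    have h2 : |s.im| ≤ 1 + |ρ.im| := by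
      have h3 : |(s - ρ).im| ≤ 1 := (Complex.abs_im_le_norm _).trans hs
      rw [Complex.sub_im] at h3
      have h4 := abs_sub_abs_le_abs_sub s.im ρ.im
      linarith
    have h3 : ‖_root_.dslope Φ ρ s‖ * (1 + |s.im|) ^ k ≤ M' := by
      refine mul_le_mul h1 (pow_le_pow_left₀ (by positivity) (by linarith) _) (by positivity) hM0
    have h4 : M' ≤ Real.exp M' := (by linarith : M' ≤ M' + 1).trans (Real.add_one_le_exp _)
    refine (h3.trans h4).trans (Real.exp_le_exp.2 ?_)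
    nlinarith [mul_nonneg hA hre, mul_nonneg hM'0 hre]
  · have hne : s ≠ ρ := by
      rintro rfl
      simp at hs
      linarith
    have h1 : ‖_root_.dslope Φ ρ s‖ ≤ ‖Φ s‖ := by
      rw [dslope_of_ne _ hne, slope_def_module, norm_smul, norm_inv, h0, sub_zero]
      have : ‖s - ρ‖⁻¹ ≤ 1 := inv_le_one_of_one_le₀ hs
      exact mul_le_of_le_one_left (norm_nonneg _) this
    refine (mul_le_mul_of_nonneg_right h1 (by positivity)).trans ((hb s).trans (Real.exp_le_exp.2 ?_))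
    nlinarith [mul_nonneg hM'0 hre]

/-- multiplication by a linear factor -/
theorem KP.mul_lin {b : ℝ} (hb0 : 0 < b) {Φ : ℂ → ℂ} (h : KP b Φ) (w : ℂ) : KP b (fun s => (s - w) * Φ s) := by
  refine ⟨(differentiable_id.sub_const w).mul h.diff, fun k => ?_⟩
  obtain ⟨A, hA, hb⟩ := h.bd (k + 1)
  refine ⟨A + 1 + ‖w‖, by positivity, fun s => ?_⟩
  have hre := abs_nonneg s.re
  have him := abs_nonneg s.im
  have h1 : ‖s - w‖ ≤ (1 + |s.im|) * Real.exp (|s.re| + ‖w‖) := by
    have h2 : ‖s - w‖ ≤ |s.re| + |s.im| + ‖w‖ :=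
      (norm_sub_le _ _).trans (add_le_add (Complex.norm_le_abs_re_add_abs_im s) le_rfl)
    have h3 := Real.add_one_le_exp (|s.re| + ‖w‖)
    have h4 := norm_nonneg w
    nlinarith
  calc ‖(s - w) * Φ s‖ * (1 + |s.im|) ^ k = ‖s - w‖ * (‖Φ s‖ * (1 + |s.im|) ^ k) := by rw [norm_mul]; ring
    _ ≤ ((1 + |s.im|) * Real.exp (|s.re| + ‖w‖)) * (‖Φ s‖ * (1 + |s.im|) ^ k) :=
        mul_le_mul_of_nonneg_right h1 (by positivity)
    _ = Real.exp (|s.re| + ‖w‖) * (‖Φ s‖ * (1 + |s.im|) ^ (k + 1)) := by ring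
    _ ≤ Real.exp (|s.re| + ‖w‖) * Real.exp (A * (1 + |s.re|) + |s.re| * Real.log (1 + |s.re|) / b) :=
        mul_le_mul_of_nonneg_left (hb s) (Real.exp_pos _).le
    _ ≤ _ := by
        rw [← Real.exp_add]
        refine Real.exp_le_exp.2 ?_
        have := norm_nonneg w
        nlinarith [mul_nonneg this hre]

theorem KP.mul_prod {b : ℝ} (hb0 : 0 < b) {Φ : ℂ → ℂ} (h : KP b Φ) {ι : Type*} (S : Finset ι) (w : ι → ℂ) :
    KP b (fun s => (∏ j ∈ S, (s - w j)) * Φ s) := by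
  classical
  induction S using Finset.induction_on with
  | empty => simpa using h
  | insert a S ha ih =>
    have := ih.mul_lin hb0 (w a)
    simp_rw [Finset.prod_insert ha, mul_assoc]
    exact this

end

end H313.GK
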