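import Pool.Agent.H313R3.GK.A
import Pool.Agent.H313R3.TK.B

/-!
# Inversion, convolution and the operator `Ist`
-/

open Complex MeasureTheory Filter Topology Set
open scoped FourierTransform

set_option linter.unusedSectionVars false
set_option linter.unusedVariables false
set_option autoImplicit false

namespace H313.GK

open H313.TK (Ist norm_tw norm_tw' prim_cont int_exp_abs)

noncomputable section

theorem inv_four {Φ : ℂ → ℂ} {σ B : ℝ} (h : LB Φ σ B) (w : ℝ) :
    𝓕 (fun τ : ℝ => Φ (vl σ τ)) w = (2 * Real.pi : ℝ) * (Inv Φ σ (-(2 * Real.pi) * w) * cexp (-(σ * (-(2 * Real.pi) * w) : ℝ))) := by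
  rw [Real.fourier_real_eq_integral_exp_smul]
  unfold Inv
  have hp : ((2 * Real.pi : ℝ) : ℂ) * ((1 / (2 * Real.pi) : ℝ) : ℂ) = 1 := by
    rw [← Complex.ofReal_mul, mul_one_div_cancel (by have := Real.pi_pos; positivity), Complex.ofReal_one]
  rw [mul_assoc ((1 / (2 * Real.pi) : ℝ) : ℂ), ← mul_assoc ((2 * Real.pi : ℝ) : ℂ), hp, one_mul, ← integral_mul_const]
  refine integral_congr_ae (ae_of_all _ fun τ => ?_)
  simp only [smul_eq_mul]
  rw [mul_assoc (Φ (vl σ τ)), ← Complex.exp_add, mul_comm (cexp _)]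
  congr 2
  unfold vl
  push_cast
  ring

/-- Fourier inversion for the inverse transform -/
theorem inv_trans {Φ : ℂ → ℂ} {σ B : ℝ} (h : LB Φ σ B)
    (hi : Integrable (fun v : ℝ => Inv Φ σ v * cexp (-(σ * v : ℝ)))) (τ : ℝ) :
    ∫ v : ℝ, cexp (-vl σ τ * v) * Inv Φ σ v = Φ (vl σ τ) := by
  have hp := Real.pi_pos
  have hne : -(2 * Real.pi) ≠ 0 := by
    have : (0:ℝ) < 2 * Real.pi := by positivity
    linarith
  have hFi : Integrable (𝓕 (fun τ : ℝ => Φ (vl σ τ))) := by
    have h2 := (hi.comp_mul_left' hne).const_mul ((2 * Real.pi : ℝ) : ℂ)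
    refine h2.congr (ae_of_all _ fun w => ?_)
    simp only
    rw [inv_four h]
  have h3 := h.int.fourierInv_fourier_eq hFi (v := τ) h.cont.continuousAt
  rw [Real.fourierInv_eq_fourier_neg, Real.fourier_real_eq_integral_exp_smul] at h3
  rw [← h3]
  have h4 : ∀ w : ℝ, cexp ((-2 * Real.pi * w * -τ : ℝ) * I) • 𝓕 (fun τ : ℝ => Φ (vl σ τ)) w =
      ((2 * Real.pi : ℝ) : ℂ) * (fun v : ℝ => cexp (-vl σ τ * v) * Inv Φ σ v) (-(2 * Real.pi) * w) := by
    intro w
    rw [inv_four h, smul_eq_mul]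
    simp only
    rw [show cexp ((-2 * Real.pi * w * -τ : ℝ) * I) * (((2 * Real.pi : ℝ) : ℂ) * (Inv Φ σ (-(2 * Real.pi) * w) *
      cexp (-(σ * (-(2 * Real.pi) * w) : ℝ)))) = ((2 * Real.pi : ℝ) : ℂ) * ((cexp ((-2 * Real.pi * w * -τ : ℝ) * I) *
      cexp (-(σ * (-(2 * Real.pi) * w) : ℝ))) * Inv Φ σ (-(2 * Real.pi) * w)) by ring, ← Complex.exp_add]
    congr 3
    unfold vl
    push_cast
    ring
  rw [integral_congr_ae (ae_of_all _ h4), integral_const_mul,
    Measure.integral_comp_mul_left (fun v : ℝ => cexp (-vl σ τ * v) * Inv Φ σ v), abs_inv, abs_neg,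
    abs_of_pos (by positivity), Complex.real_smul, ← mul_assoc, ← Complex.ofReal_mul,
    mul_inv_cancel₀ (by positivity), Complex.ofReal_one, one_mul]

/-- convolution with an inverse transform -/
theorem conv {Φ : ℂ → ℂ} {c B : ℝ} (h : LB Φ c B) {F : ℝ → ℂ} (hm : Measurable F)
    (hF : Integrable (fun u : ℝ => ‖F u‖ * Real.exp (-(c * u)))) (t : ℝ) :
    ∫ u : ℝ, F u * Inv Φ c (t - u) = Inv (fun s => Φ s * ∫ u : ℝ, F u * cexp (-s * u)) c t := by
  set G : ℝ → ℝ → ℂ := fun u τ => F u * (Φ (vl c τ) * cexp (vl c τ * ((t - u : ℝ) : ℂ))) with hG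
  have hprod : Integrable (Function.uncurry G) (volume.prod volume) := by
    have h1 := hF.mul_prod ((h.int.norm).mul_const (Real.exp (c * t)))
    refine h1.mono' ?_ (ae_of_all _ fun p => ?_)
    · have hc := h.cont.measurable
      have hv := (vl_cont c).measurable
      have h2 : Measurable (Function.uncurry G) := by
        simp only [hG, Function.uncurry_def]
        exact (hm.comp measurable_fst).mul ((hc.comp measurable_snd).mul
          (Complex.measurable_exp.comp ((hv.comp measurable_snd).mul (Complex.measurable_ofReal.comp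
            (measurable_const.sub measurable_fst)))))
      exact h2.aestronglyMeasurable
    · simp only [hG, Function.uncurry_def]
      rw [norm_mul, norm_mul, norm_exp_vl]
      refine le_of_eq ?_
      rw [mul_sub, Real.exp_sub, Real.exp_neg]
      field_simp
  have hswap := integral_integral_swap hprod
  simp only [hG] at hswap
  unfold Inv
  have e1 : ∀ u : ℝ, F u * (((1 / (2 * Real.pi) : ℝ) : ℂ) * ∫ τ : ℝ, Φ (vl c τ) * cexp (vl c τ * ((t - u : ℝ) : ℂ))) =
      ((1 / (2 * Real.pi) : ℝ) : ℂ) * ∫ τ : ℝ, F u * (Φ (vl c τ) * cexp (vl c τ * ((t - u : ℝ) : ℂ))) := by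
    intro u
    rw [integral_const_mul]
    ring
  rw [integral_congr_ae (ae_of_all _ e1), integral_const_mul, hswap]
  congr 1
  refine integral_congr_ae (ae_of_all _ fun τ => ?_)
  simp only
  rw [mul_assoc, ← integral_mul_const, ← integral_const_mul]
  refine integral_congr_ae (ae_of_all _ fun u => ?_)
  simp only
  have e2 : cexp (vl c τ * ((t - u : ℝ) : ℂ)) = cexp (-vl c τ * u) * cexp (vl c τ * t) := by
    rw [← Complex.exp_add]
    congr 1
    push_cast
    ring
  rw [e2]
  ring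

/-- the operator `Ist` on inverse transforms -/
theorem ist_inv {Φ : ℂ → ℂ} {c B : ℝ} (h : LB Φ c B) {ρ : ℂ} (hρ : ρ.re < c) (t : ℝ) :
    Ist ρ (Inv Φ c) t = Inv (fun s => Φ s / (s - ρ)) c t := by
  unfold Ist Inv
  have hc0 : 0 < c - ρ.re := by linarith
  set G : ℝ → ℝ → ℂ := fun z τ => cexp (-ρ * z) * (Φ (vl c τ) * cexp (vl c τ * z)) with hG
  have hprod : Integrable (Function.uncurry G) ((volume.restrict (Iic t)).prod volume) := by
    have h0 : IntegrableOn (fun z : ℝ => Real.exp ((c - ρ.re) * z)) (Iic t) := integrableOn_exp_mul_Iic hc0 t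
    have h1 := Integrable.mul_prod (μ := volume.restrict (Iic t)) (ν := volume) h0 h.int.norm
    refine h1.mono' ?_ (ae_of_all _ fun p => ?_)
    · have hc := h.cont.measurable
      have hv := (vl_cont c).measurable
      have h2 : Measurable (Function.uncurry G) := by
        simp only [hG, Function.uncurry_def]
        exact ((Complex.measurable_exp.comp (measurable_const.mul (Complex.measurable_ofReal.comp measurable_fst))).mul
          ((hc.comp measurable_snd).mul (Complex.measurable_exp.comp ((hv.comp measurable_snd).mul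
            (Complex.measurable_ofReal.comp measurable_fst)))))
      exact h2.aestronglyMeasurable
    · simp only [hG, Function.uncurry_def]
      rw [norm_mul, norm_mul, norm_exp_vl, norm_tw]
      refine le_of_eq ?_
      rw [show (c - ρ.re) * p.1 = -ρ.re * p.1 + c * p.1 by ring, Real.exp_add]
      ring
  have hswap := integral_integral_swap hprod
  simp only [hG] at hswap
  have e1 : ∀ z : ℝ, cexp (-ρ * z) * (((1 / (2 * Real.pi) : ℝ) : ℂ) * ∫ τ : ℝ, Φ (vl c τ) * cexp (vl c τ * z)) =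
      ((1 / (2 * Real.pi) : ℝ) : ℂ) * ∫ τ : ℝ, cexp (-ρ * z) * (Φ (vl c τ) * cexp (vl c τ * z)) := by
    intro z
    rw [integral_const_mul]
    ring
  rw [integral_congr_ae (ae_of_all _ e1), integral_const_mul, hswap, ← mul_assoc, mul_comm (cexp (ρ * t)), mul_assoc,
    ← integral_const_mul]
  congr 1
  refine integral_congr_ae (ae_of_all _ fun τ => ?_)
  simp only
  have e2 : ∀ z : ℝ, cexp (-ρ * z) * (Φ (vl c τ) * cexp (vl c τ * z)) = Φ (vl c τ) * cexp ((vl c τ - ρ) * z) := by
    intro z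
    rw [show cexp (-ρ * z) * (Φ (vl c τ) * cexp (vl c τ * z)) = Φ (vl c τ) * (cexp (-ρ * z) * cexp (vl c τ * z)) by ring,
      ← Complex.exp_add]
    congr 2
    ring
  rw [integral_congr_ae (ae_of_all _ e2), integral_const_mul, integral_exp_mul_complex_Iic (by simpa using hc0)]
  rw [show cexp (ρ * t) * (Φ (vl c τ) * (cexp ((vl c τ - ρ) * t) / (vl c τ - ρ))) =
    Φ (vl c τ) / (vl c τ - ρ) * (cexp (ρ * t) * cexp ((vl c τ - ρ) * t)) by ring, ← Complex.exp_add]
  congr 2
  ring

/-- functions of exponential type to the left -/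
structure EC (c : ℝ) (g : ℝ → ℂ) : Prop where
  cont : Continuous g
  bd : ∃ C : ℝ, 0 ≤ C ∧ ∀ v : ℝ, ‖g v‖ ≤ C * Real.exp (c * v)

theorem EC.int {c : ℝ} {g : ℝ → ℂ} (h : EC c g) {ρ : ℂ} (hρ : ρ.re < c) (v : ℝ) :
    IntegrableOn (fun z : ℝ => cexp (-ρ * z) * g z) (Iic v) := by
  obtain ⟨C, hC, hb⟩ := h.bd
  have hc := h.cont
  refine Integrable.mono' ((integrableOn_exp_mul_Iic (sub_pos.2 hρ) v).const_mul C) ?_ ?_
  · exact (by fun_prop : Continuous fun z : ℝ => cexp (-ρ * z) * g z).aestronglyMeasurable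
  · refine ae_of_all _ fun z => ?_
    rw [norm_mul, norm_tw]
    calc Real.exp (-ρ.re * z) * ‖g z‖ ≤ Real.exp (-ρ.re * z) * (C * Real.exp (c * z)) :=
          mul_le_mul_of_nonneg_left (hb z) (Real.exp_pos _).le
      _ = C * (Real.exp (-ρ.re * z) * Real.exp (c * z)) := by ring
      _ = C * Real.exp ((c - ρ.re) * z) := by
          rw [← Real.exp_add]
          congr 2
          ring

theorem EC.ist {c : ℝ} {g : ℝ → ℂ} (h : EC c g) {ρ : ℂ} (hρ : ρ.re < c) : EC c (Ist ρ g) := by
  refine ⟨H313.TK.Ist_cont h.cont fun v => h.int hρ v, ?_⟩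
  obtain ⟨C, hC, hb⟩ := h.bd
  have h2 : 0 < c - ρ.re := by linarith
  refine ⟨C / (c - ρ.re), by positivity, fun v => ?_⟩
  unfold Ist
  rw [norm_mul, norm_tw']
  have h1 : ‖∫ z in Iic v, cexp (-ρ * z) * g z‖ ≤ ∫ z in Iic v, C * Real.exp ((c - ρ.re) * z) := by
    refine norm_integral_le_of_norm_le ((integrableOn_exp_mul_Iic h2 v).const_mul C) (ae_of_all _ fun z => ?_)
    rw [norm_mul, norm_tw]
    calc Real.exp (-ρ.re * z) * ‖g z‖ ≤ Real.exp (-ρ.re * z) * (C * Real.exp (c * z)) :=
          mul_le_mul_of_nonneg_left (hb z) (Real.exp_pos _).le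
      _ = C * (Real.exp (-ρ.re * z) * Real.exp (c * z)) := by ring
      _ = C * Real.exp ((c - ρ.re) * z) := by
          rw [← Real.exp_add]
          congr 2
          ring
  rw [integral_const_mul, integral_exp_mul_Iic h2] at h1
  calc Real.exp (ρ.re * v) * ‖∫ z in Iic v, cexp (-ρ * z) * g z‖
      ≤ Real.exp (ρ.re * v) * (C * (Real.exp ((c - ρ.re) * v) / (c - ρ.re))) :=
        mul_le_mul_of_nonneg_left h1 (Real.exp_pos _).le
    _ = C / (c - ρ.re) * (Real.exp (ρ.re * v) * Real.exp ((c - ρ.re) * v)) := by ring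
    _ = _ := by
        rw [← Real.exp_add]
        congr 2
        ring

theorem EC.iter {c : ℝ} {g : ℝ → ℂ} (h : EC c g) {ρ : ℂ} (hρ : ρ.re < c) (j : ℕ) : EC c ((Ist ρ)^[j] g) := by
  induction j with
  | zero => exact h
  | succ j ih =>
    rw [Function.iterate_succ_apply']
    exact ih.ist hρ

end

end H313.GK
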