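import Pool.Agent.H313R3.GK.B

/-!
# Growth of the iterates of `Ist`, and windows
-/

open Complex MeasureTheory Filter Topology Set

set_option linter.unusedSectionVars false
set_option linter.unusedVariables false
set_option autoImplicit false

namespace H313.GK

open H313.TK (Ist norm_tw norm_tw' prim_cont int_exp_abs)

noncomputable section

theorem twc (ρ : ℂ) (z : ℝ) (w : ℂ) : cexp (-ρ * z) * (cexp (ρ * z) * w) = w := by
  rw [← mul_assoc, ← Complex.exp_add, show -ρ * (z : ℂ) + ρ * z = 0 by ring, Complex.exp_zero, one_mul]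

theorem twc' (ρ : ℂ) (z : ℝ) (w : ℂ) : cexp (ρ * z) * (cexp (-ρ * z) * w) = w := by
  rw [← mul_assoc, ← Complex.exp_add, show ρ * (z : ℂ) + -ρ * z = 0 by ring, Complex.exp_zero, one_mul]

theorem p1_asy {c σ : ℝ} {g : ℝ → ℂ} (h : EC c g) {ρ : ℂ} (hρ : ρ.re < c) (hσ : σ < ρ.re)
    (hb : ∃ C : ℝ, 0 ≤ C ∧ ∀ v : ℝ, ‖g v‖ ≤ C * Real.exp (σ * v)) :
    ∃ C : ℝ, 0 ≤ C ∧ ∀ t : ℝ, 0 ≤ t →
      ‖cexp (-ρ * t) * Ist ρ g t - ∫ v : ℝ, cexp (-ρ * v) * g v‖ ≤ C * Real.exp (-((ρ.re - σ) * t)) := by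
  obtain ⟨C, hC, hb⟩ := hb
  have hc := h.cont
  have hδ : 0 < ρ.re - σ := by linarith
  have hpt : ∀ z : ℝ, ‖cexp (-ρ * z) * g z‖ ≤ C * Real.exp (-(ρ.re - σ) * z) := by
    intro z
    rw [norm_mul, norm_tw]
    calc Real.exp (-ρ.re * z) * ‖g z‖ ≤ Real.exp (-ρ.re * z) * (C * Real.exp (σ * z)) :=
          mul_le_mul_of_nonneg_left (hb z) (Real.exp_pos _).le
      _ = C * (Real.exp (-ρ.re * z) * Real.exp (σ * z)) := by ring
      _ = _ := by
          rw [← Real.exp_add]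
          congr 2
          ring
  have hI : ∀ t : ℝ, IntegrableOn (fun z : ℝ => cexp (-ρ * z) * g z) (Ioi t) := by
    intro t
    refine Integrable.mono' ((integrableOn_exp_mul_Ioi (neg_lt_zero.2 hδ) t).const_mul C) ?_ (ae_of_all _ hpt)
    exact (by fun_prop : Continuous fun z : ℝ => cexp (-ρ * z) * g z).aestronglyMeasurable
  refine ⟨C / (ρ.re - σ), by positivity, fun t ht => ?_⟩
  have h1 := intervalIntegral.integral_Iic_add_Ioi (b := t) (h.int hρ t) (hI t)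
  have h2 : cexp (-ρ * t) * Ist ρ g t = ∫ z in Iic t, cexp (-ρ * z) * g z := by
    unfold Ist
    exact twc ρ t _
  rw [h2, ← h1, sub_add_cancel_left, norm_neg]
  refine (norm_integral_le_of_norm_le ((integrableOn_exp_mul_Ioi (neg_lt_zero.2 hδ) t).const_mul C)
    (ae_of_all _ hpt)).trans ?_
  rw [integral_const_mul, integral_exp_mul_Ioi (neg_lt_zero.2 hδ)]
  refine le_of_eq ?_
  rw [show -((ρ.re - σ) * t) = -(ρ.re - σ) * t by ring]
  field_simp

theorem p2_asy {c σ : ℝ} {g : ℝ → ℂ} (h : EC c g) {ρ : ℂ} (hρ : ρ.re < c) (hσ : σ < ρ.re)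
    (hb : ∃ C : ℝ, 0 ≤ C ∧ ∀ v : ℝ, ‖g v‖ ≤ C * Real.exp (σ * v)) (J : ℂ) (hJ : ∫ v : ℝ, cexp (-ρ * v) * g v = J)
    (r : ℕ) : ∃ C : ℝ, 0 ≤ C ∧ ∀ z : ℝ, 0 ≤ z →
      ‖cexp (-ρ * z) * (Ist ρ)^[r + 2] g z - J / ((r + 1).factorial : ℂ) * (z : ℂ) ^ (r + 1)‖ ≤ C * (1 + z) ^ r := by
  induction r with
  | zero =>
    obtain ⟨C, hC, hb⟩ := p1_asy h hρ hσ hb
    have hδ : 0 < ρ.re - σ := by linarith
    set f := Ist ρ g with hf
    have hE : EC c f := h.ist hρ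
    have hfs : (Ist ρ)^[0 + 2] g = Ist ρ f := by rw [hf]; rfl
    rw [hfs]
    have hi := fun v : ℝ => hE.int hρ v
    set a : ℂ := ∫ z in Iic (0:ℝ), cexp (-ρ * z) * f z with ha
    refine ⟨‖a‖ + C / (ρ.re - σ), by positivity, fun z hz => ?_⟩
    simp only [zero_add, pow_zero, mul_one, pow_one, Nat.factorial_one, Nat.cast_one, div_one]
    have e1 : cexp (-ρ * z) * Ist ρ f z = ∫ y in Iic z, cexp (-ρ * y) * f y := twc ρ z _
    have e2 := intervalIntegral.integral_Iic_sub_Iic (hi 0) (hi z)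
    have hcont := hE.cont
    have hi1 : IntervalIntegrable (fun y : ℝ => cexp (-ρ * y) * f y) volume 0 z :=
      (by fun_prop : Continuous fun y : ℝ => cexp (-ρ * y) * f y).intervalIntegrable _ _
    have e3 : ‖∫ y in (0:ℝ)..z, (cexp (-ρ * y) * f y - J)‖ ≤ ∫ y in (0:ℝ)..z, C * Real.exp (-(ρ.re - σ) * y) := by
      refine intervalIntegral.norm_integral_le_of_norm_le hz (ae_of_all _ fun y hy => ?_)
        ((by fun_prop : Continuous fun y : ℝ => C * Real.exp (-(ρ.re - σ) * y)).intervalIntegrable _ _)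
      have := hb y hy.1.le
      rw [hJ] at this
      refine this.trans (le_of_eq ?_)
      congr 2
      ring
    have e4 : ∫ y in (0:ℝ)..z, C * Real.exp (-(ρ.re - σ) * y) ≤ C / (ρ.re - σ) := by
      have h6 : ∫ y in (0:ℝ)..z, C * Real.exp (-(ρ.re - σ) * y) ≤ ∫ y in Ioi (0:ℝ), C * Real.exp (-(ρ.re - σ) * y) := by
        rw [intervalIntegral.integral_of_le hz]
        refine setIntegral_mono_set ((integrableOn_exp_mul_Ioi (neg_lt_zero.2 hδ) 0).const_mul C)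
          (ae_of_all _ fun y => mul_nonneg hC (Real.exp_pos _).le) (Ioc_subset_Ioi_self).eventuallyLE
      refine h6.trans (le_of_eq ?_)
      rw [integral_const_mul, integral_exp_mul_Ioi (neg_lt_zero.2 hδ)]
      rw [mul_zero, Real.exp_zero]
      field_simp
    rw [intervalIntegral.integral_sub hi1 intervalIntegrable_const, intervalIntegral.integral_const] at e3
    have e5 : cexp (-ρ * z) * Ist ρ f z - J * z = a +
        ((∫ y in (0:ℝ)..z, cexp (-ρ * y) * f y) - (z - 0) • J) := by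
      rw [e1, ← e2, sub_zero, Complex.real_smul, ha]
      ring
    rw [e5]
    exact (norm_add_le _ _).trans (add_le_add le_rfl (e3.trans e4))
  | succ r ih =>
    obtain ⟨C, hC, hb⟩ := ih
    have hQ : EC c ((Ist ρ)^[r + 2] g) := h.iter hρ (r + 2)
    set f := (Ist ρ)^[r + 2] g with hf
    have hgs : (Ist ρ)^[r + 1 + 2] g = Ist ρ f := by
      rw [hf, ← Function.iterate_succ_apply' (Ist ρ)]
    rw [hgs]
    have hi := fun v : ℝ => hQ.int hρ v
    set a : ℂ := ∫ z in Iic (0:ℝ), cexp (-ρ * z) * f z with ha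
    refine ⟨‖a‖ + C, by positivity, fun z hz => ?_⟩
    have e1 : cexp (-ρ * z) * Ist ρ f z = ∫ y in Iic z, cexp (-ρ * y) * f y := twc ρ z _
    have e2 := intervalIntegral.integral_Iic_sub_Iic (hi 0) (hi z)
    have hcont := hQ.cont
    have hi1 : IntervalIntegrable (fun y : ℝ => cexp (-ρ * y) * f y) volume 0 z :=
      (by fun_prop : Continuous fun y : ℝ => cexp (-ρ * y) * f y).intervalIntegrable _ _
    set K : ℂ := J / ((r + 1).factorial : ℂ) with hK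
    have hi2 : IntervalIntegrable (fun y : ℝ => K * (y : ℂ) ^ (r + 1)) volume 0 z :=
      (by fun_prop : Continuous fun y : ℝ => K * (y : ℂ) ^ (r + 1)).intervalIntegrable _ _
    have e3 : ‖∫ y in (0:ℝ)..z, (cexp (-ρ * y) * f y - K * (y : ℂ) ^ (r + 1))‖ ≤ C * (1 + z) ^ r * |z - 0| := by
      refine intervalIntegral.norm_integral_le_of_norm_le_const fun y hy => ?_
      rw [uIoc_of_le hz] at hy
      refine (hb y hy.1.le).trans (mul_le_mul_of_nonneg_left ?_ hC)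
      exact pow_le_pow_left₀ (by linarith [hy.1]) (by linarith [hy.2]) _
    have e4 : ∫ y in (0:ℝ)..z, K * (y : ℂ) ^ (r + 1) = J / ((r + 1 + 1).factorial : ℂ) * (z : ℂ) ^ (r + 1 + 1) := by
      rw [intervalIntegral.integral_const_mul]
      have h5 : ∫ y in (0:ℝ)..z, (y : ℂ) ^ (r + 1) = (z : ℂ) ^ (r + 1 + 1) / ((r + 1 + 1 : ℕ) : ℂ) := by
        have h : ∀ y : ℝ, HasDerivAt (fun y : ℝ => (y : ℂ) ^ (r + 1 + 1) / ((r + 1 + 1 : ℕ) : ℂ)) ((y : ℂ) ^ (r + 1)) y := by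
          intro y
          have h0 : HasDerivAt (fun y : ℝ => (y : ℂ)) 1 y := (hasDerivAt_id y).ofReal_comp
          refine ((h0.pow (r + 1 + 1)).div_const _).congr_deriv ?_
          have : ((r + 1 + 1 : ℕ) : ℂ) ≠ 0 := Nat.cast_ne_zero.2 (by omega)
          simp only [Nat.add_sub_cancel, mul_one]
          field_simp
        rw [intervalIntegral.integral_eq_sub_of_hasDerivAt (fun y _ => h y)
          ((by fun_prop : Continuous fun y : ℝ => (y : ℂ) ^ (r + 1)).intervalIntegrable _ _)]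
        simp
      rw [h5, hK]
      have f1 : ((r + 1).factorial : ℂ) ≠ 0 := Nat.cast_ne_zero.2 (Nat.factorial_ne_zero _)
      have f2 : ((r + 1 + 1).factorial : ℂ) = ((r + 1 + 1 : ℕ) : ℂ) * ((r + 1).factorial : ℂ) := by
        rw [Nat.factorial_succ (r + 1)]
        push_cast
        ring
      have f3 : ((r + 1 + 1 : ℕ) : ℂ) ≠ 0 := Nat.cast_ne_zero.2 (by omega)
      rw [f2]
      field_simp
    rw [intervalIntegral.integral_sub hi1 hi2, e4, sub_zero, abs_of_nonneg hz] at e3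
    have e5 : cexp (-ρ * z) * Ist ρ f z - J / ((r + 1 + 1).factorial : ℂ) * (z : ℂ) ^ (r + 1 + 1) =
        a + ((∫ y in (0:ℝ)..z, cexp (-ρ * y) * f y) - J / ((r + 1 + 1).factorial : ℂ) * (z : ℂ) ^ (r + 1 + 1)) := by
      rw [e1, ← e2, ha]
      ring
    rw [e5]
    refine (norm_add_le _ _).trans ?_
    have h7 : 1 ≤ (1 + z) ^ (r + 1) := one_le_pow₀ (by linarith)
    have h8 : C * (1 + z) ^ r * z ≤ C * (1 + z) ^ (r + 1) := by
      rw [pow_succ, ← mul_assoc]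
      exact mul_le_mul_of_nonneg_left (by linarith) (by positivity)
    have h9 : ‖a‖ ≤ ‖a‖ * (1 + z) ^ (r + 1) := le_mul_of_one_le_right (norm_nonneg _) h7
    calc ‖a‖ + _ ≤ ‖a‖ * (1 + z) ^ (r + 1) + C * (1 + z) ^ (r + 1) := add_le_add h9 (e3.trans h8)
      _ = _ := by ring

/-- **lower bound for the iterates** -/
theorem iter_low {c σ : ℝ} {g : ℝ → ℂ} (h : EC c g) {ρ : ℂ} (hρ : ρ.re < c) (hσ : σ < ρ.re)
    (hb : ∃ C : ℝ, 0 ≤ C ∧ ∀ v : ℝ, ‖g v‖ ≤ C * Real.exp (σ * v)) (J : ℂ) (hJ : ∫ v : ℝ, cexp (-ρ * v) * g v = J)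
    (hJ0 : J ≠ 0) (m : ℕ) (hm : 1 ≤ m) :
    ∃ c' : ℝ, 0 < c' ∧ ∀ᶠ t : ℝ in atTop, c' * (t ^ (m - 1) * Real.exp (ρ.re * t)) ≤ ‖(Ist ρ)^[m] g t‖ := by
  have hJn : 0 < ‖J‖ := norm_pos_iff.2 hJ0
  have hrec : ∀ f : ℝ → ℂ, ∀ t : ℝ, ‖f t‖ = Real.exp (ρ.re * t) * ‖cexp (-ρ * t) * f t‖ := by
    intro f t
    rw [norm_mul, norm_tw, ← mul_assoc, ← Real.exp_add]
    rw [show ρ.re * t + -ρ.re * t = 0 by ring, Real.exp_zero, one_mul]
  obtain ⟨r, rfl⟩ : ∃ r, m = r + 1 := ⟨m - 1, by omega⟩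
  rcases Nat.eq_zero_or_pos r with hr | hr
  · subst hr
    obtain ⟨C, hC, h1⟩ := p1_asy h hρ hσ hb
    refine ⟨‖J‖ / 2, by positivity, ?_⟩
    have hlim : Tendsto (fun t : ℝ => C * Real.exp (-((ρ.re - σ) * t))) atTop (𝓝 (C * 0)) := by
      refine Tendsto.const_mul _ (Real.tendsto_exp_neg_atTop_nhds_zero.comp ?_)
      exact Tendsto.const_mul_atTop (by linarith) tendsto_id
    rw [mul_zero] at hlim
    filter_upwards [hlim.eventually (ge_mem_nhds (show (0:ℝ) < ‖J‖ / 2 by positivity)), eventually_ge_atTop (0:ℝ)] with t ht ht0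
    have h2 := (h1 t ht0).trans ht
    rw [hJ] at h2
    have h3 : ‖J‖ ≤ ‖cexp (-ρ * t) * Ist ρ g t‖ + ‖cexp (-ρ * t) * Ist ρ g t - J‖ := by
      rw [← norm_neg (cexp (-ρ * t) * Ist ρ g t - J)]
      refine le_trans (le_of_eq ?_) (norm_add_le _ _)
      congr 1
      ring
    have e : (Ist ρ)^[0 + 1] g = Ist ρ g := rfl
    rw [e, hrec (Ist ρ g) t]
    simp only [zero_add, Nat.sub_self, pow_zero, one_mul]
    rw [mul_comm]
    exact mul_le_mul_of_nonneg_left (by linarith) (Real.exp_pos _).le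
  · obtain ⟨k, rfl⟩ : ∃ k, r = k + 1 := ⟨r - 1, by omega⟩
    obtain ⟨C, hC, h1⟩ := p2_asy h hρ hσ hb J hJ k
    set A : ℝ := ‖J / ((k + 1).factorial : ℂ)‖ with hA
    have hA0 : 0 < A := norm_pos_iff.2 (div_ne_zero hJ0 (Nat.cast_ne_zero.2 (Nat.factorial_ne_zero _)))
    refine ⟨A / 2, by positivity, ?_⟩
    filter_upwards [eventually_ge_atTop (C * 2 ^ k / (A / 2)), eventually_ge_atTop (1:ℝ)] with t ht ht1
    have ht0 : 0 < t := by linarith
    rw [div_le_iff₀ (by positivity)] at ht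
    have h2 := h1 t ht0.le
    have h3 : A * t ^ (k + 1) ≤ ‖cexp (-ρ * t) * (Ist ρ)^[k + 2] g t‖ + C * (1 + t) ^ k := by
      have h4 : ‖J / ((k + 1).factorial : ℂ) * (t : ℂ) ^ (k + 1)‖ = A * t ^ (k + 1) := by
        rw [norm_mul, norm_pow, Complex.norm_real, Real.norm_eq_abs, abs_of_pos ht0]
      rw [← h4]
      have h5 : ‖J / ((k + 1).factorial : ℂ) * (t : ℂ) ^ (k + 1)‖ ≤ ‖cexp (-ρ * t) * (Ist ρ)^[k + 2] g t‖ +
          ‖cexp (-ρ * t) * (Ist ρ)^[k + 2] g t - J / ((k + 1).factorial : ℂ) * (t : ℂ) ^ (k + 1)‖ := by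
        rw [← norm_neg (cexp (-ρ * t) * (Ist ρ)^[k + 2] g t - _)]
        refine le_trans (le_of_eq ?_) (norm_add_le _ _)
        congr 1
        ring
      linarith
    have hP2 : (1 + t) ^ k ≤ 2 ^ k * t ^ k := by
      rw [← mul_pow]
      exact pow_le_pow_left₀ (by linarith) (by linarith) _
    have hP : 0 < t ^ k := by positivity
    have h6 : C * (1 + t) ^ k ≤ A / 2 * t ^ (k + 1) := by
      calc C * (1 + t) ^ k ≤ C * (2 ^ k * t ^ k) := mul_le_mul_of_nonneg_left hP2 hC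
        _ = C * 2 ^ k * t ^ k := by ring
        _ ≤ t * (A / 2) * t ^ k := mul_le_mul_of_nonneg_right ht hP.le
        _ = _ := by ring
    rw [show k + 1 + 1 = k + 2 by ring, show k + 2 - 1 = k + 1 by omega, hrec ((Ist ρ)^[k + 2] g) t]
    calc A / 2 * (t ^ (k + 1) * Real.exp (ρ.re * t)) = Real.exp (ρ.re * t) * (A / 2 * t ^ (k + 1)) := by ring
      _ ≤ _ := mul_le_mul_of_nonneg_left (by linarith) (Real.exp_pos _).le

end

end H313.GK
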