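import Pool.Agent.H313R3.GK.C

/-!
# Windows
-/

open Complex MeasureTheory Filter Topology Set

set_option linter.unusedSectionVars false
set_option linter.unusedVariables false
set_option autoImplicit false

namespace H313.GK

open H313.TK (Ist norm_tw norm_tw' prim_cont int_exp_abs)

noncomputable section

theorem dexp (A κ b : ℝ) (hκ : 0 < κ) (hb : 0 < b) : ∃ C : ℝ, 0 ≤ C ∧ ∀ w : ℝ,
    Real.exp (A * |w|) * Real.exp (-(κ * Real.exp (b * |w|))) ≤ C * Real.exp (-(1 * |w|)) := by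
  refine ⟨Real.exp ((A + 1) ^ 2 / (2 * κ * b ^ 2)), (Real.exp_pos _).le, fun w => ?_⟩
  rw [← Real.exp_add, ← Real.exp_add]
  refine Real.exp_le_exp.2 ?_
  have hw := abs_nonneg w
  have h1 := Real.quadratic_le_exp_of_nonneg (show 0 ≤ b * |w| by positivity)
  have h2 : κ * ((b * |w|) ^ 2 / 2) ≤ κ * Real.exp (b * |w|) := by
    refine mul_le_mul_of_nonneg_left ?_ hκ.le
    have : 0 ≤ b * |w| := by positivity
    linarith
  have h3 : (A + 1) * |w| - κ * ((b * |w|) ^ 2 / 2) ≤ (A + 1) ^ 2 / (2 * κ * b ^ 2) := by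
    rw [le_div_iff₀ (by positivity)]
    nlinarith [sq_nonneg (κ * b ^ 2 * |w| - (A + 1))]
  linarith

/-- a lower bound for a convolution gives large values in windows -/
theorem window {b B c₁ β : ℝ} (hb : 0 < b) (hB0 : 0 < B) (hB : 2 < b * B) (hβ : 0 ≤ β) (n : ℕ) {F k : ℝ → ℂ}
    (hFb : ∃ C : ℝ, 0 ≤ C ∧ ∀ u : ℝ, ‖F u‖ ≤ C * Real.exp (c₁ * u))
    (hkb : ∃ κ : ℝ, 0 < κ ∧ ∃ C : ℝ, 0 ≤ C ∧ ∀ v : ℝ, ‖k v‖ ≤ C * Real.exp (-(κ * Real.exp (b * |v|))))
    (hlow : ∃ c : ℝ, 0 < c ∧ ∀ᶠ t : ℝ in atTop, c * (t ^ n * Real.exp (β * t)) ≤ ‖∫ u : ℝ, F u * k (t - u)‖) :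
    ∃ c : ℝ, 0 < c ∧ ∀ᶠ l : ℝ in atTop, ∃ u ∈ Icc l (l + B * Real.log l),
      c * (l ^ n * Real.exp (β * u)) ≤ ‖F u‖ := by
  obtain ⟨C1, hC1, hF1⟩ := hFb
  obtain ⟨κ, hκ, C2, hC2, hk2⟩ := hkb
  obtain ⟨c, hc, hlow⟩ := hlow
  obtain ⟨C4, hC4, h4⟩ := dexp β κ b hκ hb
  obtain ⟨C5, hC5, h5⟩ := dexp |c₁| (κ / 2) b (by positivity) hb
  set D : ℝ := ∫ x : ℝ, Real.exp (-(1 * |x|)) with hD
  have hD0 : 0 ≤ D := integral_nonneg fun x => (Real.exp_pos _).le
  set c' : ℝ := c / (2 * (C2 * C4 * D + 1)) with hc'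
  have hc'0 : 0 < c' := by positivity
  have hc'1 : c' * (C2 * C4 * D) ≤ c / 2 := by
    rw [hc', div_mul_eq_mul_div, div_le_div_iff₀ (by positivity) (by norm_num)]
    have : 0 ≤ c * (C2 * C4 * D) := by positivity
    nlinarith
  refine ⟨c', hc'0, ?_⟩
  set p : ℝ := b * B / 2 with hp
  have hp1 : 0 < p - 1 := by rw [hp]; linarith
  have hT : Tendsto (fun l : ℝ => l + B / 2 * Real.log l) atTop atTop := by
    refine tendsto_atTop_mono' atTop ?_ tendsto_id
    filter_upwards [eventually_ge_atTop (1:ℝ)] with l hl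
    have := Real.log_nonneg hl
    show l ≤ _
    have : 0 ≤ B / 2 * Real.log l := by positivity
    linarith
  have hK : ∀ᶠ l : ℝ in atTop, C1 * C2 * C5 * D * Real.exp (-l) < c / 2 := by
    have h1 : Tendsto (fun l : ℝ => C1 * C2 * C5 * D * Real.exp (-l)) atTop (𝓝 (C1 * C2 * C5 * D * 0)) :=
      Tendsto.const_mul _ Real.tendsto_exp_neg_atTop_nhds_zero
    rw [mul_zero] at h1
    exact h1.eventually (gt_mem_nhds (by positivity))
  filter_upwards [hT.eventually hlow, hK, (tendsto_rpow_atTop hp1).eventually_ge_atTop (2 / κ * (|c₁| * (1 + B / 2) + 1)),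
    eventually_ge_atTop (1:ℝ)] with l e1 e2 e3 e4
  have hl0 : 0 < l := by linarith
  have hlog := Real.log_nonneg e4
  by_contra hcon
  push Not at hcon
  set a : ℝ := B / 2 * Real.log l with ha
  have ha0 : 0 ≤ a := by positivity
  set t : ℝ := l + a with ht
  have htl : t ≤ (1 + B / 2) * l := by
    have : Real.log l ≤ l := (Real.log_le_sub_one_of_pos hl0).trans (by linarith)
    have h7 : a ≤ B / 2 * l := mul_le_mul_of_nonneg_left this (by positivity)
    linarith
  set K : ℝ := c' * l ^ n * C2 * C4 * Real.exp (β * t) +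
    C1 * C2 * C5 * Real.exp (c₁ * t - κ / 2 * Real.exp (b * a)) with hKdef
  -- pointwise bound
  have hpt : ∀ u : ℝ, ‖F u * k (t - u)‖ ≤ K * Real.exp (-(1 * |t - u|)) := by
    intro u
    rw [norm_mul]
    have hA0 : 0 ≤ c' * l ^ n * C2 * C4 * Real.exp (β * t) * Real.exp (-(1 * |t - u|)) := by positivity
    have hA1 : 0 ≤ C1 * C2 * C5 * Real.exp (c₁ * t - κ / 2 * Real.exp (b * a)) * Real.exp (-(1 * |t - u|)) := by positivity
    rcases le_total |t - u| a with h | h
    · have hu : u ∈ Icc l (l + B * Real.log l) := by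
        rw [abs_le] at h
        constructor
        · linarith [h.2]
        · have : t + a = l + B * Real.log l := by rw [ht, ha]; ring
          linarith [h.1]
      have h6 := (hcon u hu).le
      have h7 : Real.exp (β * u) ≤ Real.exp (β * t) * Real.exp (β * |t - u|) := by
        rw [← Real.exp_add]
        refine Real.exp_le_exp.2 ?_
        have h8 : u - t ≤ |t - u| := by rw [abs_sub_comm]; exact le_abs_self _
        nlinarith
      calc ‖F u‖ * ‖k (t - u)‖ ≤ (c' * (l ^ n * Real.exp (β * u))) * (C2 * Real.exp (-(κ * Real.exp (b * |t - u|)))) :=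
            mul_le_mul h6 (hk2 _) (norm_nonneg _) (by positivity)
        _ ≤ (c' * (l ^ n * (Real.exp (β * t) * Real.exp (β * |t - u|)))) * (C2 * Real.exp (-(κ * Real.exp (b * |t - u|)))) := by
            refine mul_le_mul_of_nonneg_right ?_ (by positivity)
            exact mul_le_mul_of_nonneg_left (mul_le_mul_of_nonneg_left h7 (by positivity)) hc'0.le
        _ = c' * l ^ n * C2 * Real.exp (β * t) * (Real.exp (β * |t - u|) * Real.exp (-(κ * Real.exp (b * |t - u|)))) := by ring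
        _ ≤ c' * l ^ n * C2 * Real.exp (β * t) * (C4 * Real.exp (-(1 * |t - u|))) :=
            mul_le_mul_of_nonneg_left (h4 _) (by positivity)
        _ = c' * l ^ n * C2 * C4 * Real.exp (β * t) * Real.exp (-(1 * |t - u|)) := by ring
        _ ≤ K * Real.exp (-(1 * |t - u|)) := by rw [hKdef, add_mul]; linarith
    · have h7 : Real.exp (c₁ * u) ≤ Real.exp (c₁ * t) * Real.exp (|c₁| * |t - u|) := by
        rw [← Real.exp_add]
        refine Real.exp_le_exp.2 ?_
        have h8 : c₁ * (u - t) ≤ |c₁| * |t - u| := by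
          rw [abs_sub_comm t u, ← abs_mul]
          exact le_abs_self _
        linarith
      have h8 : Real.exp (-(κ * Real.exp (b * |t - u|))) ≤ Real.exp (-(κ / 2 * Real.exp (b * a))) *
          Real.exp (-(κ / 2 * Real.exp (b * |t - u|))) := by
        rw [← Real.exp_add]
        refine Real.exp_le_exp.2 ?_
        have h9 : Real.exp (b * a) ≤ Real.exp (b * |t - u|) := Real.exp_le_exp.2 (mul_le_mul_of_nonneg_left h hb.le)
        nlinarith
      calc ‖F u‖ * ‖k (t - u)‖ ≤ (C1 * Real.exp (c₁ * u)) * (C2 * Real.exp (-(κ * Real.exp (b * |t - u|)))) :=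
            mul_le_mul (hF1 u) (hk2 _) (norm_nonneg _) (by positivity)
        _ ≤ (C1 * (Real.exp (c₁ * t) * Real.exp (|c₁| * |t - u|))) * (C2 * (Real.exp (-(κ / 2 * Real.exp (b * a))) *
              Real.exp (-(κ / 2 * Real.exp (b * |t - u|))))) :=
            mul_le_mul (mul_le_mul_of_nonneg_left h7 hC1) (mul_le_mul_of_nonneg_left h8 hC2) (by positivity) (by positivity)
        _ = C1 * C2 * (Real.exp (c₁ * t) * Real.exp (-(κ / 2 * Real.exp (b * a)))) *
              (Real.exp (|c₁| * |t - u|) * Real.exp (-(κ / 2 * Real.exp (b * |t - u|)))) := by ring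
        _ ≤ C1 * C2 * (Real.exp (c₁ * t) * Real.exp (-(κ / 2 * Real.exp (b * a)))) * (C5 * Real.exp (-(1 * |t - u|))) :=
            mul_le_mul_of_nonneg_left (h5 _) (by positivity)
        _ = C1 * C2 * C5 * Real.exp (c₁ * t - κ / 2 * Real.exp (b * a)) * Real.exp (-(1 * |t - u|)) := by
            rw [← Real.exp_add, ← sub_eq_add_neg]
            ring
        _ ≤ K * Real.exp (-(1 * |t - u|)) := by rw [hKdef, add_mul]; linarith
  have hint : Integrable (fun u : ℝ => K * Real.exp (-(1 * |t - u|))) :=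
    ((int_exp_abs 1 one_pos).comp_sub_left t).const_mul K
  have h6 : ‖∫ u : ℝ, F u * k (t - u)‖ ≤ K * D := by
    refine (norm_integral_le_of_norm_le hint (ae_of_all _ hpt)).trans (le_of_eq ?_)
    rw [integral_const_mul, integral_sub_left_eq_self (fun x => Real.exp (-(1 * |x|))) volume t]
  have h7 := e1.trans h6
  -- the tail is negligible
  have hexp : Real.exp (b * a) = l ^ p := by
    rw [Real.rpow_def_of_pos hl0, ha, hp]
    congr 1
    ring
  have hlp : l ^ p = l * l ^ (p - 1) := by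
    rw [Real.rpow_sub_one hl0.ne']
    field_simp
  have h8 : c₁ * t - κ / 2 * Real.exp (b * a) ≤ -l := by
    rw [hexp, hlp]
    have h9 : c₁ * t ≤ |c₁| * ((1 + B / 2) * l) := by
      have ht0 : 0 ≤ t := by linarith
      calc c₁ * t ≤ |c₁| * t := mul_le_mul_of_nonneg_right (le_abs_self _) ht0
        _ ≤ _ := mul_le_mul_of_nonneg_left htl (abs_nonneg _)
    have h10 : κ / 2 * (l * (2 / κ * (|c₁| * (1 + B / 2) + 1))) ≤ κ / 2 * (l * l ^ (p - 1)) :=
      mul_le_mul_of_nonneg_left (mul_le_mul_of_nonneg_left e3 hl0.le) (by positivity)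
    have h11 : κ / 2 * (l * (2 / κ * (|c₁| * (1 + B / 2) + 1))) = l * (|c₁| * (1 + B / 2) + 1) := by
      field_simp
    nlinarith
  have h9 : C1 * C2 * C5 * Real.exp (c₁ * t - κ / 2 * Real.exp (b * a)) * D < c / 2 := by
    refine lt_of_le_of_lt ?_ e2
    calc C1 * C2 * C5 * Real.exp (c₁ * t - κ / 2 * Real.exp (b * a)) * D ≤ C1 * C2 * C5 * Real.exp (-l) * D :=
          mul_le_mul_of_nonneg_right (mul_le_mul_of_nonneg_left (Real.exp_le_exp.2 h8) (by positivity)) hD0
      _ = _ := by ring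
  have hln : 1 ≤ l ^ n := one_le_pow₀ e4
  have htn : l ^ n ≤ t ^ n := pow_le_pow_left₀ hl0.le (by linarith) _
  have hE : 1 ≤ Real.exp (β * t) := Real.one_le_exp (by
    have : 0 ≤ t := by linarith
    positivity)
  set E := Real.exp (β * t) with hEdef
  have h10 : c * (l ^ n * E) ≤ c * (t ^ n * E) :=
    mul_le_mul_of_nonneg_left (mul_le_mul_of_nonneg_right htn (by linarith)) hc.le
  have h11 : c' * l ^ n * C2 * C4 * E * D ≤ c / 2 * (l ^ n * E) := by
    calc c' * l ^ n * C2 * C4 * E * D = c' * (C2 * C4 * D) * (l ^ n * E) := by ring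
      _ ≤ _ := mul_le_mul_of_nonneg_right hc'1 (by positivity)
  have h12 : (1:ℝ) ≤ l ^ n * E := by
    calc (1:ℝ) = 1 * 1 := by ring
      _ ≤ _ := mul_le_mul hln hE (by norm_num) (by linarith)
  have h13 : c / 2 ≤ c / 2 * (l ^ n * E) := le_mul_of_one_le_right (by positivity) h12
  rw [hKdef, add_mul] at h7
  linarith

/-- original variable -/
theorem window_x {B β : ℝ} (hB0 : 0 < B) (n : ℕ) {S : ℝ → ℂ}
    (h : ∃ c : ℝ, 0 < c ∧ ∀ᶠ l : ℝ in atTop, ∃ u ∈ Icc l (l + B * Real.log l),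
      c * (l ^ n * Real.exp (β * u)) ≤ ‖S (Real.exp u)‖) :
    ∃ c : ℝ, 0 < c ∧ ∀ᶠ x : ℝ in atTop, ∃ y ∈ Icc x (x * Real.log x ^ B),
      c * (y ^ β * Real.log y ^ n) ≤ ‖S y‖ := by
  obtain ⟨c, hc, hev⟩ := h
  refine ⟨c / (1 + B) ^ n, by positivity, ?_⟩
  filter_upwards [Real.tendsto_log_atTop.eventually hev, eventually_ge_atTop (Real.exp 1)] with x hx hx1
  have hx0 : 0 < x := (Real.exp_pos 1).trans_le hx1
  have hl1 : 1 ≤ Real.log x := by rwa [Real.le_log_iff_exp_le hx0]
  have hl0 : 0 < Real.log x := by linarith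
  obtain ⟨u, hu, hu2⟩ := hx
  have e0 : Real.log (x * Real.log x ^ B) = Real.log x + B * Real.log (Real.log x) := by
    rw [Real.log_mul hx0.ne' (Real.rpow_pos_of_pos hl0 _).ne', Real.log_rpow hl0]
  refine ⟨Real.exp u, ⟨?_, ?_⟩, ?_⟩
  · rw [← Real.log_le_iff_le_exp hx0]; exact hu.1
  · have h3 := Real.rpow_pos_of_pos hl0 B
    rw [← Real.le_log_iff_exp_le (by positivity), e0]
    exact hu.2
  · rw [Real.log_exp, ← Real.exp_mul, mul_comm u β]
    have h5 : u ≤ (1 + B) * Real.log x := by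
      have h7 : Real.log (Real.log x) ≤ Real.log x := (Real.log_le_sub_one_of_pos (by linarith)).trans (by linarith)
      have h8 := mul_le_mul_of_nonneg_left h7 hB0.le
      linarith [hu.2]
    have hu0 : 0 ≤ u := by linarith [hu.1]
    have h6 : u ^ n ≤ (1 + B) ^ n * Real.log x ^ n := by
      rw [← mul_pow]
      exact pow_le_pow_left₀ hu0 h5 _
    calc c / (1 + B) ^ n * (Real.exp (β * u) * u ^ n) ≤ c / (1 + B) ^ n * (Real.exp (β * u) * ((1 + B) ^ n * Real.log x ^ n)) :=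
          mul_le_mul_of_nonneg_left (mul_le_mul_of_nonneg_left h6 (Real.exp_pos _).le) (by positivity)
      _ = c * (Real.log x ^ n * Real.exp (β * u)) := by field_simp
      _ ≤ _ := hu2

end

end H313.GK
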