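import Pool.Agent.H313R3.GK.D

/-!
# The abstract local oscillation theorem
-/

open Complex MeasureTheory Filter Topology Set

set_option linter.unusedSectionVars false
set_option linter.unusedVariables false
set_option autoImplicit false

namespace H313.GK

open H313.TK (Ist norm_tw norm_tw' prim_cont int_exp_abs)

noncomputable section

/-- repeated division by `s - ρ` -/
def dv (ρ : ℂ) (Φ : ℂ → ℂ) (j : ℕ) : ℂ → ℂ := (fun f => dslope f ρ)^[j] Φ

theorem dv_succ (ρ : ℂ) (Φ : ℂ → ℂ) (j : ℕ) : dv ρ Φ (j + 1) = dslope (dv ρ Φ j) ρ :=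
  Function.iterate_succ_apply' _ _ _

theorem dv_KP {b : ℝ} (hb : 0 < b) {Φ : ℂ → ℂ} (h : KP b Φ) (ρ : ℂ) (m : ℕ)
    (hm : (m : ℕ∞) ≤ analyticOrderAt Φ ρ) :
    ∀ j : ℕ, j ≤ m → KP b (dv ρ Φ j) ∧ ∀ s : ℂ, (s - ρ) ^ j * dv ρ Φ j s = Φ s := by
  rw [natCast_le_analyticOrderAt (h.diff.analyticAt ρ)] at hm
  obtain ⟨f, hf, hfe⟩ := hm
  intro j
  induction j with
  | zero =>
    intro _
    exact ⟨h, fun s => by rw [pow_zero, one_mul]; rfl⟩
  | succ j ih =>
    intro hj
    obtain ⟨hK, hform⟩ := ih (by omega)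
    have hT0 : dv ρ Φ j ρ = 0 := by
      have c1 : Tendsto (dv ρ Φ j) (𝓝[≠] ρ) (𝓝 (dv ρ Φ j ρ)) :=
        (hK.diff.continuous.continuousAt).tendsto.mono_left nhdsWithin_le_nhds
      have c2 : Tendsto (fun s : ℂ => (s - ρ) ^ (m - j) * f s) (𝓝[≠] ρ) (𝓝 0) := by
        have hcont : ContinuousAt (fun s : ℂ => (s - ρ) ^ (m - j) * f s) ρ :=
          ((continuousAt_id.sub continuousAt_const).pow _).mul hf.continuousAt
        have h5 := hcont.tendsto
        simp only [sub_self] at h5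
        rw [zero_pow (by omega), zero_mul] at h5
        exact h5.mono_left nhdsWithin_le_nhds
      refine tendsto_nhds_unique (c1.congr' ?_) c2
      filter_upwards [hfe.filter_mono nhdsWithin_le_nhds, self_mem_nhdsWithin] with s hs2 hsne
      have h6 := hform s
      have hne' : s - ρ ≠ 0 := sub_ne_zero.2 hsne
      apply mul_left_cancel₀ (pow_ne_zero j hne')
      rw [h6, hs2, smul_eq_mul, ← mul_assoc, ← pow_add, show j + (m - j) = m by omega]
    rw [dv_succ]
    refine ⟨hK.dslope hb ρ hT0, fun s => ?_⟩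
    have h7 := sub_smul_dslope (dv ρ Φ j) ρ s
    rw [hT0, sub_zero, smul_eq_mul] at h7
    rw [pow_succ, mul_assoc, h7]
    exact hform s

/-- iterates of `Ist` on an inverse transform -/
theorem iter_inv {g : ℂ → ℂ} {c B : ℝ} (h : LB g c B) {ρ : ℂ} (hρ : ρ.re < c) (j : ℕ) :
    (∃ B' : ℝ, LB (fun s => g s / (s - ρ) ^ j) c B') ∧
      (Ist ρ)^[j] (Inv g c) = Inv (fun s => g s / (s - ρ) ^ j) c := by
  have hδ : 0 < c - ρ.re := by linarith
  have hne : ∀ τ : ℝ, vl c τ - ρ ≠ 0 := by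
    intro τ h0
    have := congrArg Complex.re h0
    simp at this
    linarith
  have hlow : ∀ τ : ℝ, c - ρ.re ≤ ‖vl c τ - ρ‖ := by
    intro τ
    have := Complex.re_le_norm (vl c τ - ρ)
    simpa using this
  have hLB : ∀ j : ℕ, LB (fun s => g s / (s - ρ) ^ j) c (B / (c - ρ.re) ^ j) := by
    intro j
    refine ⟨by have := h.nn; positivity, ?_, fun τ => ?_⟩
    · have h1 := h.cont
      have h2 := vl_cont c
      exact h1.div ((h2.sub continuous_const).pow j) fun τ => pow_ne_zero _ (hne τ)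
    · rw [norm_div, norm_pow]
      have h3 : (c - ρ.re) ^ j ≤ ‖vl c τ - ρ‖ ^ j := pow_le_pow_left₀ hδ.le (hlow τ) _
      have h4 : 0 ≤ B * (1 + τ ^ 2)⁻¹ := by have := h.nn; positivity
      calc ‖g (vl c τ)‖ / ‖vl c τ - ρ‖ ^ j ≤ B * (1 + τ ^ 2)⁻¹ / (c - ρ.re) ^ j :=
            div_le_div₀ h4 (h.bd τ) (by positivity) h3
        _ = _ := by ring
  refine ⟨⟨_, hLB j⟩, ?_⟩
  induction j with
  | zero => simp
  | succ j ih =>
    rw [Function.iterate_succ_apply', ih]
    funext t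
    rw [ist_inv (hLB j) hρ t]
    unfold Inv
    congr 1
    refine integral_congr_ae (ae_of_all _ fun τ => ?_)
    simp only
    congr 1
    have := hne τ
    rw [pow_succ]
    field_simp

/-- **The abstract theorem.** -/
theorem main {b B σ c c₁ Cg : ℝ} (hb : 0 < b) (hB0 : 0 < B) (hB : 2 < b * B) {Φ : ℂ → ℂ} (hΦ : KP b Φ)
    {ρ : ℂ} {m : ℕ} (hm1 : 1 ≤ m) (hm : (m : ℕ∞) ≤ analyticOrderAt Φ ρ) (hρ0 : 0 ≤ ρ.re)
    (hσρ : σ < ρ.re) (hρc : ρ.re < c) (hc1 : c₁ < c) {F : ℝ → ℂ} (hFm : Measurable F)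
    (hF0 : ∀ u : ℝ, u < 0 → F u = 0)
    (hFb : ∃ C : ℝ, 0 ≤ C ∧ ∀ u : ℝ, ‖F u‖ ≤ C * Real.exp (c₁ * u)) {g : ℂ → ℂ}
    (hg : ∀ τ : ℝ, Φ (vl c τ) * (∫ u : ℝ, F u * cexp (-vl c τ * u)) = g (vl c τ))
    (hgd : ∀ s : ℂ, σ ≤ s.re → s.re ≤ c → DifferentiableAt ℂ g s)
    (hgb : ∀ s : ℂ, σ ≤ s.re → s.re ≤ c → ‖g s‖ ≤ Cg * (1 + s.im ^ 2)⁻¹) (hg0 : g ρ ≠ 0) :
    ∃ c' : ℝ, 0 < c' ∧ ∀ᶠ l : ℝ in atTop, ∃ u ∈ Icc l (l + B * Real.log l),
      c' * (l ^ (m - 1) * Real.exp (ρ.re * u)) ≤ ‖F u‖ := by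
  have hCg : 0 ≤ Cg := by
    have := (norm_nonneg _).trans (hgb (vl c 0) (by simp; linarith) (by simp))
    simpa using this
  have lb : ∀ σ' : ℝ, σ ≤ σ' → σ' ≤ c → LB g σ' Cg := by
    intro σ' h1 h2
    refine ⟨hCg, ?_, fun τ => ?_⟩
    · rw [continuous_iff_continuousAt]
      intro τ
      exact ContinuousAt.comp (f := vl σ') (hgd (vl σ' τ) (by simpa using h1) (by simpa using h2)).continuousAt
        (vl_cont σ').continuousAt
    · have := hgb (vl σ' τ) (by simpa using h1) (by simpa using h2)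
      simpa using this
  have hFi : Integrable (fun u : ℝ => ‖F u‖ * Real.exp (-(c * u))) := by
    obtain ⟨C, hC, hb1⟩ := hFb
    have hdc : 0 < c - c₁ := by linarith
    refine ((int_exp_abs (c - c₁) hdc).const_mul C).mono' ?_ (ae_of_all _ fun u => ?_)
    · exact (hFm.norm.mul (by fun_prop)).aestronglyMeasurable
    · rw [Real.norm_eq_abs, abs_of_nonneg (by positivity)]
      rcases lt_or_ge u 0 with hu | hu
      · rw [hF0 u hu, norm_zero, zero_mul]
        positivity
      · rw [abs_of_nonneg hu]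
        calc ‖F u‖ * Real.exp (-(c * u)) ≤ (C * Real.exp (c₁ * u)) * Real.exp (-(c * u)) :=
              mul_le_mul_of_nonneg_right (hb1 u) (Real.exp_pos _).le
          _ = C * (Real.exp (c₁ * u) * Real.exp (-(c * u))) := by ring
          _ = C * Real.exp (-((c - c₁) * u)) := by
              rw [← Real.exp_add]
              congr 2
              ring
  have hne : ∀ τ : ℝ, vl c τ - ρ ≠ 0 := by
    intro τ h0
    have := congrArg Complex.re h0
    simp at this
    linarith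
  obtain ⟨hK, hform⟩ := dv_KP hb hΦ ρ m hm m le_rfl
  set k : ℝ → ℂ := Inv (dv ρ Φ m) c with hk
  have hkd := hK.decay hb c
  obtain ⟨A, hA, hl⟩ := hK.lb
  have hcv : ∀ t : ℝ, ∫ u : ℝ, F u * k (t - u) = (Ist ρ)^[m] (Inv g c) t := by
    intro t
    rw [hk, conv (hl c) hFm hFi t, (iter_inv (lb c (by linarith) le_rfl) hρc m).2]
    unfold Inv
    congr 1
    refine integral_congr_ae (ae_of_all _ fun τ => ?_)
    simp only
    congr 1
    rw [← hg τ, eq_div_iff (pow_ne_zero _ (hne τ)), ← hform (vl c τ)]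
    ring
  -- the function `Inv g c`
  have hLc := lb c (by linarith) le_rfl
  have hEC : EC c (Inv g c) := ⟨hLc.inv_cont, Cg, hCg, fun v => hLc.inv_le v⟩
  have hEσ : ∃ C : ℝ, 0 ≤ C ∧ ∀ v : ℝ, ‖Inv g c v‖ ≤ C * Real.exp (σ * v) := by
    refine ⟨Cg, hCg, fun v => ?_⟩
    rw [← inv_shift (a := σ) (b := c) (by linarith) hgd hgb v]
    exact (lb σ le_rfl (by linarith)).inv_le v
  have hLρ := lb ρ.re hσρ.le hρc.le
  have hsame : ∀ v : ℝ, Inv g c v = Inv g ρ.re v := fun v =>
    (inv_shift (a := ρ.re) (b := c) hρc.le (fun s h1 h2 => hgd s (hσρ.le.trans h1) h2)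
      (fun s h1 h2 => hgb s (hσρ.le.trans h1) h2) v).symm
  have hJ : ∫ v : ℝ, cexp (-ρ * v) * Inv g c v = g ρ := by
    have hi : Integrable (fun v : ℝ => Inv g ρ.re v * cexp (-(ρ.re * v : ℝ))) := by
      obtain ⟨C, hC, hb2⟩ := hEσ
      obtain ⟨C', hC', hb3⟩ := hEC.bd
      set δ : ℝ := min (ρ.re - σ) (c - ρ.re) with hδ
      have hδ0 : 0 < δ := lt_min (by linarith) (by linarith)
      refine ((int_exp_abs δ hδ0).const_mul (C + C')).mono' ?_ (ae_of_all _ fun v => ?_)
      · exact (hLρ.inv_cont.mul (by fun_prop)).aestronglyMeasurable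
      · rw [norm_mul, Complex.norm_exp, ← hsame v]
        have e0 : (-((ρ.re * v : ℝ) : ℂ)).re = -(ρ.re * v) := by simp
        rw [e0]
        rcases le_total 0 v with hv | hv
        · rw [abs_of_nonneg hv]
          calc ‖Inv g c v‖ * Real.exp (-(ρ.re * v)) ≤ (C * Real.exp (σ * v)) * Real.exp (-(ρ.re * v)) :=
                mul_le_mul_of_nonneg_right (hb2 v) (Real.exp_pos _).le
            _ = C * Real.exp (-((ρ.re - σ) * v)) := by
                rw [mul_assoc, ← Real.exp_add]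
                congr 2
                ring
            _ ≤ (C + C') * Real.exp (-(δ * v)) := by
                refine mul_le_mul (by linarith) (Real.exp_le_exp.2 ?_) (Real.exp_pos _).le (by positivity)
                have := mul_le_mul_of_nonneg_right (min_le_left (ρ.re - σ) (c - ρ.re)) hv
                linarith
        · rw [abs_of_nonpos hv]
          calc ‖Inv g c v‖ * Real.exp (-(ρ.re * v)) ≤ (C' * Real.exp (c * v)) * Real.exp (-(ρ.re * v)) :=
                mul_le_mul_of_nonneg_right (hb3 v) (Real.exp_pos _).le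
            _ = C' * Real.exp ((c - ρ.re) * v) := by
                rw [mul_assoc, ← Real.exp_add]
                congr 2
                ring
            _ ≤ (C + C') * Real.exp (-(δ * -v)) := by
                refine mul_le_mul (by linarith) (Real.exp_le_exp.2 ?_) (Real.exp_pos _).le (by positivity)
                have := mul_le_mul_of_nonneg_right (min_le_right (ρ.re - σ) (c - ρ.re)) (neg_nonneg.2 hv)
                linarith
    have h1 := inv_trans hLρ hi ρ.im
    rw [← eq_vl ρ] at h1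
    rw [← h1]
    exact integral_congr_ae (ae_of_all _ fun v => by simp only; rw [hsame v])
  obtain ⟨c', hc', hlow⟩ := iter_low hEC hρc hσρ hEσ (g ρ) hJ hg0 m hm1
  refine window hb hB0 hB hρ0 (m - 1) hFb hkd ⟨c', hc', ?_⟩
  filter_upwards [hlow] with t ht
  rw [hcv t]
  exact ht

end

end H313.GK
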