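import Pool.Agent.H313R3.GK.E

/-!
# Gamma factors, and a criterion for the class `KP`
-/

open Complex MeasureTheory Filter Topology Set
open scoped ComplexConjugate

set_option linter.unusedSectionVars false
set_option linter.unusedVariables false
set_option autoImplicit false

namespace H313.GK

noncomputable section

theorem gamma_le_pow {y : ℝ} (hy : 1 ≤ y) : Real.Gamma y ≤ y ^ y := by
  set n : ℕ := ⌊y⌋₊ with hn
  have h1 : (n : ℝ) ≤ y := Nat.floor_le (by linarith)
  have h2 : y ≤ n + 1 := (Nat.lt_floor_add_one y).le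
  have hn1 : 1 ≤ n := Nat.le_floor (by simpa using hy)
  have hn1' : (1:ℝ) ≤ n := by exact_mod_cast hn1
  have hconv := Real.convexOn_Gamma.subset (s := Icc (n:ℝ) (n + 1)) (fun x hx => by
    show 0 < x
    linarith [hx.1]) (convex_Icc _ _)
  have h3 : Real.Gamma y ≤ max (Real.Gamma n) (Real.Gamma (n + 1)) :=
    hconv.le_max_of_mem_Icc ⟨le_rfl, by linarith⟩ ⟨by linarith, le_rfl⟩ ⟨h1, h2⟩
  have h4 : Real.Gamma (n + 1) ≤ (n : ℝ) ^ n := by
    rw [Real.Gamma_nat_eq_factorial]
    exact_mod_cast Nat.factorial_le_pow n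
  have h5 : Real.Gamma n ≤ (n : ℝ) ^ n := by
    obtain ⟨k, hk⟩ : ∃ k, n = k + 1 := ⟨n - 1, by omega⟩
    rw [hk]
    push_cast
    rw [Real.Gamma_nat_eq_factorial]
    have h6 : k.factorial ≤ (k + 1) ^ (k + 1) := by
      calc k.factorial ≤ (k + 1).factorial := Nat.factorial_le (by omega)
        _ ≤ _ := Nat.factorial_le_pow _
    exact_mod_cast h6
  have h6 : (n : ℝ) ^ n ≤ y ^ y := by
    calc (n : ℝ) ^ n ≤ y ^ n := pow_le_pow_left₀ (by linarith) h1 _
      _ = y ^ (n : ℝ) := (Real.rpow_natCast _ _).symm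
      _ ≤ y ^ y := Real.rpow_le_rpow_of_exponent_le hy h1
  exact h3.trans (max_le (h5.trans h6) (h4.trans h6))

theorem norm_gamma_le {z : ℂ} (hz : 0 < z.re) : ‖Complex.Gamma z‖ ≤ Real.Gamma z.re := by
  rw [Complex.Gamma_eq_integral hz, Real.Gamma_eq_integral hz, Complex.GammaIntegral]
  refine (norm_integral_le_integral_norm _).trans (le_of_eq ?_)
  refine setIntegral_congr_fun measurableSet_Ioi fun x hx => ?_
  have hx0 : 0 < x := hx
  rw [norm_mul, Complex.norm_real, Real.norm_eq_abs, abs_of_pos (Real.exp_pos _),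
    Complex.norm_cpow_eq_rpow_re_of_pos hx0]
  simp

theorem gam (z : ℂ) (hz : 1 / 2 ≤ z.re) (k : ℕ) (hk : 1 ≤ k) :
    ‖Complex.Gamma z‖ * (1 + |z.im|) ^ k ≤ 3 ^ k * (z.re + k) ^ (z.re + k) := by
  have h1 : ∀ j : ℕ, ‖Complex.Gamma z‖ * (1 + |z.im|) ^ j ≤ 3 ^ j * ‖Complex.Gamma (z + j)‖ := by
    intro j
    induction j with
    | zero => simp
    | succ j ih =>
      have hne : z + j ≠ 0 := by
        intro h
        have h2 := congrArg Complex.re h
        simp at h2
        have : (0:ℝ) ≤ j := Nat.cast_nonneg j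
        linarith
      have h3 : Complex.Gamma (z + (j + 1 : ℕ)) = (z + j) * Complex.Gamma (z + j) := by
        rw [← Complex.Gamma_add_one _ hne]
        congr 1
        push_cast
        ring
      have h4 : (1 + |z.im|) / 3 ≤ ‖z + j‖ := by
        have h5 : |z.im| ≤ ‖z + j‖ := by
          have := Complex.abs_im_le_norm (z + j)
          simpa using this
        have h6 : 1 / 2 ≤ ‖z + j‖ := by
          have := Complex.re_le_norm (z + j)
          simp at this
          have h7 : (0:ℝ) ≤ j := Nat.cast_nonneg j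
          linarith
        linarith
      rw [h3, norm_mul]
      calc ‖Complex.Gamma z‖ * (1 + |z.im|) ^ (j + 1) = (‖Complex.Gamma z‖ * (1 + |z.im|) ^ j) * (1 + |z.im|) := by ring
        _ ≤ (3 ^ j * ‖Complex.Gamma (z + j)‖) * (3 * ‖z + j‖) := by
            refine mul_le_mul ih (by linarith) (by positivity) (by positivity)
        _ = _ := by ring
  refine (h1 k).trans (mul_le_mul_of_nonneg_left ?_ (by positivity))
  have hk' : (1:ℝ) ≤ k := by exact_mod_cast hk
  have h2 : (z + k).re = z.re + k := by simp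
  have h3 := norm_gamma_le (z := z + k) (by rw [h2]; linarith)
  rw [h2] at h3
  exact h3.trans (gamma_le_pow (by linarith))

/-- logarithmic form of the bound -/
theorem pow_self_le {σ x R : ℝ} {b : ℝ} (hb : 0 < b) (hσ : 0 ≤ σ) (hx : 1 ≤ x) (hR : 0 ≤ R) (hxR : x ≤ σ / b + R) :
    x ^ x ≤ Real.exp ((R + (1 / b + R) * (1 / b + R)) * (1 + σ) + σ * Real.log (1 + σ) / b) := by
  have hx0 : 0 < x := by linarith
  rw [Real.rpow_def_of_pos hx0]
  refine Real.exp_le_exp.2 ?_
  have h0 : 0 ≤ Real.log x := Real.log_nonneg hx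
  have h0' : 0 ≤ Real.log (1 + σ) := Real.log_nonneg (by linarith)
  have hσb : 0 ≤ σ / b := by positivity
  have hib : 0 < 1 / b := by positivity
  have h1 : x ≤ (1 + σ) * (1 / b + R) := by
    have : σ / b = σ * (1 / b) := by ring
    nlinarith [mul_nonneg hσ hR]
  have h2 : Real.log x ≤ Real.log (1 + σ) + (1 / b + R) := by
    have h3 := Real.log_le_log hx0 h1
    rw [Real.log_mul (by linarith) (by linarith)] at h3
    have h4 : Real.log (1 / b + R) ≤ 1 / b + R := (Real.log_le_sub_one_of_pos (by linarith)).trans (by linarith)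
    linarith
  have h5 : Real.log (1 + σ) ≤ 1 + σ := (Real.log_le_sub_one_of_pos (by linarith)).trans (by linarith)
  calc Real.log x * x ≤ (Real.log (1 + σ) + (1 / b + R)) * x := mul_le_mul_of_nonneg_right h2 hx0.le
    _ = x * Real.log (1 + σ) + (1 / b + R) * x := by ring
    _ ≤ (σ / b + R) * Real.log (1 + σ) + (1 / b + R) * ((1 + σ) * (1 / b + R)) := by
        refine add_le_add (mul_le_mul_of_nonneg_right hxR h0') (mul_le_mul_of_nonneg_left h1 (by linarith))
    _ = σ * Real.log (1 + σ) / b + R * Real.log (1 + σ) + (1 / b + R) * ((1 + σ) * (1 / b + R)) := by ring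
    _ ≤ σ * Real.log (1 + σ) / b + R * (1 + σ) + (1 / b + R) * ((1 + σ) * (1 / b + R)) := by
        have := mul_le_mul_of_nonneg_left h5 hR
        linarith
    _ = _ := by ring

/-- bounded in the middle strip, from the edges -/
theorem strip {Λ : ℂ → ℂ} (hd : Differentiable ℂ Λ) {a b' : ℝ} (hab : a < b') {M : ℝ} (hM : 0 ≤ M)
    (hg : ∀ s : ℂ, a ≤ s.re → s.re ≤ b' → ‖Λ s‖ ≤ Real.exp (M * (1 + |s.im|))) (k : ℕ)
    (ha : ∃ C : ℝ, ∀ s : ℂ, s.re = a → ‖Λ s‖ * (1 + |s.im|) ^ k ≤ C)
    (hb : ∃ C : ℝ, ∀ s : ℂ, s.re = b' → ‖Λ s‖ * (1 + |s.im|) ^ k ≤ C) :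
    ∃ C : ℝ, 0 ≤ C ∧ ∀ s : ℂ, a ≤ s.re → s.re ≤ b' → ‖Λ s‖ * (1 + |s.im|) ^ k ≤ C := by
  obtain ⟨Ca, hCa⟩ := ha
  obtain ⟨Cb, hCb⟩ := hb
  set w : ℝ := |a| + |b'| + 1 with hw
  have hwa := abs_nonneg a
  have hwb := abs_nonneg b'
  set f : ℂ → ℂ := fun s => (s + w) ^ k * Λ s with hf
  have hfd : Differentiable ℂ f := by fun_prop
  -- comparison of `‖s + w‖` and `1 + |s.im|` in the strip
  have hup : ∀ s : ℂ, a ≤ s.re → s.re ≤ b' → ‖s + w‖ ≤ (2 * w) * (1 + |s.im|) := by
    intro s h1 h2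
    have h3 := Complex.norm_le_abs_re_add_abs_im (s + w)
    have h4 : |(s + w).re| ≤ 2 * w := by
      rw [abs_le]
      simp only [Complex.add_re, Complex.ofReal_re]
      have := neg_abs_le a
      have := le_abs_self b'
      constructor <;> linarith
    have h5 : (s + (w : ℂ)).im = s.im := by simp
    rw [h5] at h3
    have := abs_nonneg s.im
    nlinarith
  have hlo : ∀ s : ℂ, a ≤ s.re → (1 + |s.im|) ≤ 2 * ‖s + w‖ := by
    intro s h1
    have h3 : |s.im| ≤ ‖s + w‖ := by
      have := Complex.abs_im_le_norm (s + w)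
      simpa using this
    have h4 : 1 ≤ ‖s + w‖ := by
      have := Complex.re_le_norm (s + w)
      simp at this
      have := neg_abs_le a
      linarith
    linarith
  set C : ℝ := (2 * w) ^ k * max Ca Cb with hC
  have hmax : 0 ≤ max Ca Cb := by
    have h1 := hCa a (by simp)
    have h2 : 0 ≤ ‖Λ a‖ * (1 + |(a : ℂ).im|) ^ k := by positivity
    exact (h2.trans h1).trans (le_max_left _ _)
  have hC0 : 0 ≤ C := by positivity
  have key : ∀ s : ℂ, a ≤ s.re → s.re ≤ b' → ‖f s‖ ≤ C := by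
    intro s h1 h2
    have hedge : ∀ z : ℂ, a ≤ z.re → z.re ≤ b' → ‖Λ z‖ * (1 + |z.im|) ^ k ≤ max Ca Cb → ‖f z‖ ≤ C := by
      intro z h3 h4 h5
      simp only [hf]
      rw [norm_mul, norm_pow]
      calc ‖z + w‖ ^ k * ‖Λ z‖ ≤ ((2 * w) * (1 + |z.im|)) ^ k * ‖Λ z‖ :=
            mul_le_mul_of_nonneg_right (pow_le_pow_left₀ (norm_nonneg _) (hup z h3 h4) _) (norm_nonneg _)
        _ = (2 * w) ^ k * (‖Λ z‖ * (1 + |z.im|) ^ k) := by rw [mul_pow]; ring
        _ ≤ C := mul_le_mul_of_nonneg_left h5 (by positivity)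
    refine PhragmenLindelof.vertical_strip (f := f) (a := a) (b := b') (C := C) hfd.diffContOnCl ?_
      (fun z hz => hedge z hz.ge (by rw [hz]; exact hab.le) ((hCa z hz).trans (le_max_left _ _)))
      (fun z hz => hedge z (by rw [hz]; exact hab.le) hz.le ((hCb z hz).trans (le_max_right _ _))) h1 h2
    have hL : 0 < b' - a := by linarith
    set c : ℝ := 1 / (b' - a) with hc
    have hc0 : 0 < c := by positivity
    refine ⟨c, ?_, (M + k * (2 * w)) * (1 + 1 / c), ?_⟩
    · rw [hc, div_lt_div_iff_of_pos_right hL]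
      linarith [Real.pi_gt_three]
    · refine Asymptotics.IsBigO.of_bound 1 ?_
      refine Filter.eventually_inf_principal.mpr (Eventually.of_forall fun z hz => ?_)
      have hz1 : a ≤ z.re := le_of_lt hz.1
      have hz2 : z.re ≤ b' := le_of_lt hz.2
      have him := abs_nonneg z.im
      rw [one_mul, Real.norm_eq_abs, abs_of_pos (Real.exp_pos _)]
      simp only [hf]
      rw [norm_mul, norm_pow]
      have h6 : ‖z + w‖ ^ k ≤ Real.exp (k * (2 * w) * (1 + |z.im|)) := by
        have h7 : ‖z + w‖ ≤ Real.exp ((2 * w) * (1 + |z.im|)) :=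
          (hup z hz1 hz2).trans ((by linarith : (2 * w) * (1 + |z.im|) ≤ (2 * w) * (1 + |z.im|) + 1).trans
            (Real.add_one_le_exp _))
        calc ‖z + w‖ ^ k ≤ (Real.exp ((2 * w) * (1 + |z.im|))) ^ k := pow_le_pow_left₀ (norm_nonneg _) h7 _
          _ = _ := by
            rw [← Real.exp_nat_mul]
            congr 1
            ring
      have h8 : 1 + |z.im| ≤ (1 + 1 / c) * Real.exp (c * |z.im|) := by
        have h9 := Real.add_one_le_exp (c * |z.im|)
        have h10 : (1 + 1 / c) * (c * |z.im| + 1) = 1 + |z.im| + (c * |z.im| + 1 / c) := by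
          field_simp
          ring
        have h11 : 0 ≤ c * |z.im| + 1 / c := by positivity
        have h12 : (1 + 1 / c) * (c * |z.im| + 1) ≤ (1 + 1 / c) * Real.exp (c * |z.im|) :=
          mul_le_mul_of_nonneg_left h9 (by positivity)
        linarith
      calc ‖z + w‖ ^ k * ‖Λ z‖ ≤ Real.exp (k * (2 * w) * (1 + |z.im|)) * Real.exp (M * (1 + |z.im|)) :=
            mul_le_mul h6 (hg z hz1 hz2) (norm_nonneg _) (Real.exp_pos _).le
        _ = Real.exp ((M + k * (2 * w)) * (1 + |z.im|)) := by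
            rw [← Real.exp_add]
            congr 1
            ring
        _ ≤ Real.exp ((M + k * (2 * w)) * (1 + 1 / c) * Real.exp (c * |z.im|)) := by
            refine Real.exp_le_exp.2 ?_
            rw [mul_assoc]
            exact mul_le_mul_of_nonneg_left h8 (by positivity)
  refine ⟨2 ^ k * C, by positivity, fun s h1 h2 => ?_⟩
  have h3 := key s h1 h2
  simp only [hf] at h3
  rw [norm_mul, norm_pow] at h3
  calc ‖Λ s‖ * (1 + |s.im|) ^ k ≤ ‖Λ s‖ * (2 * ‖s + w‖) ^ k :=
        mul_le_mul_of_nonneg_left (pow_le_pow_left₀ (by positivity) (hlo s h1) _) (norm_nonneg _)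
    _ = 2 ^ k * (‖s + w‖ ^ k * ‖Λ s‖) := by rw [mul_pow]; ring
    _ ≤ _ := mul_le_mul_of_nonneg_left h3 (by positivity)

/-- criterion for `KP`: bound to the right, functional equation, moderate growth in strips -/
theorem KP_of {b : ℝ} (hb : 0 < b) {Λ : ℂ → ℂ} (hd : Differentiable ℂ Λ) {σ₁ w : ℝ} (hw : 0 ≤ w) (hσ : w < 2 * σ₁)
    (hσ0 : 0 ≤ σ₁)
    (hr : ∀ k : ℕ, ∃ A : ℝ, 0 ≤ A ∧ ∀ s : ℂ, σ₁ ≤ s.re → ‖Λ s‖ * (1 + |s.im|) ^ k ≤
      Real.exp (A * (1 + |s.re|) + |s.re| * Real.log (1 + |s.re|) / b))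
    (hfe : ∃ C : ℝ, 0 ≤ C ∧ ∀ s : ℂ, ‖Λ s‖ ≤ Real.exp (C * (1 + |s.re|)) * ‖Λ (w - conj s)‖)
    (hg : ∀ p q : ℝ, ∃ M : ℝ, ∀ s : ℂ, p ≤ s.re → s.re ≤ q → ‖Λ s‖ ≤ Real.exp (M * (1 + |s.im|))) : KP b Λ := by
  refine ⟨hd, fun k => ?_⟩
  obtain ⟨A, hA, hrA⟩ := hr k
  obtain ⟨C, hC, hfe⟩ := hfe
  -- the left half plane
  have hl : ∀ s : ℂ, s.re ≤ w - σ₁ → ‖Λ s‖ * (1 + |s.im|) ^ k ≤
      Real.exp ((C + A * (1 + w) + w / b + w * (1 + w) / b) * (1 + |s.re|) + |s.re| * Real.log (1 + |s.re|) / b) := by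
    intro s hs
    have e1 : (w - conj s : ℂ).re = w - s.re := by simp
    have e2 : |(w - conj s : ℂ).im| = |s.im| := by simp
    have h1 := hrA (w - conj s) (by rw [e1]; linarith)
    rw [e1, e2] at h1
    have hre := abs_nonneg s.re
    have h2 : |w - s.re| ≤ w + |s.re| := by
      rw [abs_le]
      have := neg_abs_le s.re
      have := le_abs_self s.re
      constructor <;> linarith
    have h2' := abs_nonneg (w - s.re)
    have hlog0 : 0 ≤ Real.log (1 + |s.re|) := Real.log_nonneg (by linarith)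
    have h3 : Real.log (1 + |w - s.re|) ≤ Real.log (1 + |s.re|) + w := by
      have h4 : 1 + |w - s.re| ≤ (1 + |s.re|) * (1 + w) := by nlinarith [mul_nonneg hre hw]
      have h5 := Real.log_le_log (by linarith) h4
      rw [Real.log_mul (by linarith) (by linarith)] at h5
      have h6 : Real.log (1 + w) ≤ w := (Real.log_le_sub_one_of_pos (by linarith)).trans (by linarith)
      linarith
    have h3' : 0 ≤ Real.log (1 + |w - s.re|) := Real.log_nonneg (by linarith)
    have h5 : Real.log (1 + |s.re|) ≤ 1 + |s.re| := (Real.log_le_sub_one_of_pos (by linarith)).trans (by linarith)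
    have h4 : |w - s.re| * Real.log (1 + |w - s.re|) ≤ |s.re| * Real.log (1 + |s.re|) +
        (w + w * (1 + w)) * (1 + |s.re|) := by
      calc |w - s.re| * Real.log (1 + |w - s.re|) ≤ (w + |s.re|) * (Real.log (1 + |s.re|) + w) :=
            mul_le_mul h2 h3 h3' (by linarith)
        _ = |s.re| * Real.log (1 + |s.re|) + (w * Real.log (1 + |s.re|) + w * (w + |s.re|)) := by ring
        _ ≤ |s.re| * Real.log (1 + |s.re|) + (w * (1 + |s.re|) + w * ((1 + w) * (1 + |s.re|))) := by
            have h6 := mul_le_mul_of_nonneg_left h5 hw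
            have h7 : w + |s.re| ≤ (1 + w) * (1 + |s.re|) := by nlinarith [mul_nonneg hw hre]
            have h8 := mul_le_mul_of_nonneg_left h7 hw
            linarith
        _ = _ := by ring
    have h6 := div_le_div_of_nonneg_right h4 hb.le
    calc ‖Λ s‖ * (1 + |s.im|) ^ k ≤ (Real.exp (C * (1 + |s.re|)) * ‖Λ (w - conj s)‖) * (1 + |s.im|) ^ k :=
          mul_le_mul_of_nonneg_right (hfe s) (by positivity)
      _ = Real.exp (C * (1 + |s.re|)) * (‖Λ (w - conj s)‖ * (1 + |s.im|) ^ k) := by ring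
      _ ≤ Real.exp (C * (1 + |s.re|)) * Real.exp (A * (1 + |w - s.re|) + |w - s.re| * Real.log (1 + |w - s.re|) / b) :=
          mul_le_mul_of_nonneg_left h1 (Real.exp_pos _).le
      _ ≤ _ := by
          rw [← Real.exp_add]
          refine Real.exp_le_exp.2 ?_
          have h7 : A * (1 + |w - s.re|) ≤ A * (1 + w) * (1 + |s.re|) := by
            rw [mul_assoc]
            refine mul_le_mul_of_nonneg_left ?_ hA
            nlinarith [mul_nonneg hw hre]
          have h8 : (|s.re| * Real.log (1 + |s.re|) + (w + w * (1 + w)) * (1 + |s.re|)) / b =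
            |s.re| * Real.log (1 + |s.re|) / b + (w / b + w * (1 + w) / b) * (1 + |s.re|) := by ring
          rw [h8] at h6
          linarith
  -- the middle strip
  have hab : w - σ₁ < σ₁ := by linarith
  obtain ⟨M, hM⟩ := hg (w - σ₁) σ₁
  obtain ⟨D, hD, hmid⟩ := strip hd hab (M := |M|) (abs_nonneg _) (fun s h1 h2 => (hM s h1 h2).trans
    (Real.exp_le_exp.2 (mul_le_mul_of_nonneg_right (le_abs_self _) (by have := abs_nonneg s.im; linarith)))) k
    ⟨_, fun s hs => by
      have := hl s hs.le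
      rw [hs] at this
      exact this⟩ ⟨_, fun s hs => by
      have := hrA s hs.ge
      rw [hs] at this
      exact this⟩
  set A' : ℝ := A + (C + A * (1 + w) + w / b + w * (1 + w) / b) + D with hA'
  have hq : 0 ≤ C + A * (1 + w) + w / b + w * (1 + w) / b := by positivity
  refine ⟨A', by positivity, fun s => ?_⟩
  have hre := abs_nonneg s.re
  have hlog0 : 0 ≤ Real.log (1 + |s.re|) := Real.log_nonneg (by linarith)
  rcases le_total s.re (w - σ₁) with h | h
  · refine (hl s h).trans (Real.exp_le_exp.2 ?_)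
    have : 0 ≤ (A + D) * (1 + |s.re|) := by positivity
    rw [hA']
    nlinarith
  rcases le_total s.re σ₁ with h' | h'
  · have h1 := hmid s h h'
    have h2 : D ≤ Real.exp D := (by linarith : D ≤ D + 1).trans (Real.add_one_le_exp _)
    refine (h1.trans h2).trans (Real.exp_le_exp.2 ?_)
    have h3 : 0 ≤ |s.re| * Real.log (1 + |s.re|) / b := by positivity
    have h4 : D ≤ A' * (1 + |s.re|) := by
      rw [hA']
      nlinarith [mul_nonneg hA hre, mul_nonneg hq hre, mul_nonneg hD hre]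
    linarith
  · refine (hrA s h').trans (Real.exp_le_exp.2 ?_)
    have : 0 ≤ ((C + A * (1 + w) + w / b + w * (1 + w) / b) + D) * (1 + |s.re|) := by positivity
    rw [hA']
    nlinarith

end

end H313.GK
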