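import Mathlib

/-!
# The inverse of an Euler product
-/

open Complex MeasureTheory Filter Topology Set

set_option linter.unusedSectionVars false
set_option linter.unusedVariables false
set_option autoImplicit false

namespace H313.GK

noncomputable section

variable {m : ℕ}

/-- the coefficient of `X^k` in `∏_j (1 - α_j(p) X)` -/
def lmu (α : Fin m → ℕ → ℂ) (p k : ℕ) : ℂ := (-1) ^ k * ∑ S ∈ Finset.powersetCard k Finset.univ, ∏ j ∈ S, α j p

/-- the coefficients of `1 / L(s)`, `L(s) = ∏_p ∏_j (1 - α_j(p) p^(-s))⁻¹` -/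
def muPi (α : Fin m → ℕ → ℂ) (n : ℕ) : ℂ := if n = 0 then 0 else ∏ p ∈ n.primeFactors, lmu α p (n.factorization p)

theorem lmu_zero (α : Fin m → ℕ → ℂ) (p : ℕ) : lmu α p 0 = 1 := by simp [lmu]

theorem muPi_one (α : Fin m → ℕ → ℂ) : muPi α 1 = 1 := by simp [muPi]

theorem muPi_mul (α : Fin m → ℕ → ℂ) {a b : ℕ} (h : a.Coprime b) : muPi α (a * b) = muPi α a * muPi α b := by
  rcases Nat.eq_zero_or_pos a with ha | ha
  · subst ha; simp [muPi]
  rcases Nat.eq_zero_or_pos b with hb | hb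
  · subst hb; simp [muPi]
  have hab : a * b ≠ 0 := by positivity
  unfold muPi
  rw [if_neg hab, if_neg ha.ne', if_neg hb.ne', h.primeFactors_mul, Finset.prod_union h.disjoint_primeFactors]
  congr 1
  · refine Finset.prod_congr rfl fun p hp => ?_
    congr 1
    rw [Nat.factorization_mul ha.ne' hb.ne', Finsupp.add_apply]
    have : b.factorization p = 0 := by
      rw [Nat.factorization_eq_zero_iff]
      right; left
      intro hd
      have h2 := Nat.prime_of_mem_primeFactors hp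
      have h3 := Nat.dvd_gcd (Nat.dvd_of_mem_primeFactors hp) hd
      rw [h.gcd_eq_one] at h3
      exact h2.one_lt.ne' (Nat.dvd_one.1 h3)
    omega
  · refine Finset.prod_congr rfl fun p hp => ?_
    congr 1
    rw [Nat.factorization_mul ha.ne' hb.ne', Finsupp.add_apply]
    have : a.factorization p = 0 := by
      rw [Nat.factorization_eq_zero_iff]
      right; left
      intro hd
      have h2 := Nat.prime_of_mem_primeFactors hp
      have h3 := Nat.dvd_gcd hd (Nat.dvd_of_mem_primeFactors hp)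
      rw [h.gcd_eq_one] at h3
      exact h2.one_lt.ne' (Nat.dvd_one.1 h3)
    omega

theorem muPi_pow (α : Fin m → ℕ → ℂ) {p : ℕ} (hp : p.Prime) (k : ℕ) : muPi α (p ^ k) = lmu α p k := by
  unfold muPi
  rw [if_neg (pow_ne_zero _ hp.ne_zero)]
  rcases Nat.eq_zero_or_pos k with hk | hk
  · subst hk
    simp [lmu_zero]
  · rw [Nat.primeFactors_prime_pow hk.ne' hp, Finset.prod_singleton, hp.factorization_pow, Finsupp.single_eq_same]

theorem norm_lmu_le (α : Fin m → ℕ → ℂ) {θ : ℝ} {p : ℕ} (hp : p.Prime)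
    (h : ∀ j, ‖α j p‖ ≤ (p : ℝ) ^ θ) {k : ℕ} (hk : 1 ≤ k) :
    ‖lmu α p k‖ ≤ ((p : ℝ) ^ k) ^ (m + θ) := by
  have hp0 : (0:ℝ) < p := by exact_mod_cast hp.pos
  have hp2 : (2:ℝ) ≤ p := by exact_mod_cast hp.two_le
  unfold lmu
  rw [norm_mul, norm_pow, norm_neg, norm_one, one_pow, one_mul]
  have h1 : ‖∑ S ∈ Finset.powersetCard k (Finset.univ : Finset (Fin m)), ∏ j ∈ S, α j p‖ ≤
      ∑ S ∈ Finset.powersetCard k (Finset.univ : Finset (Fin m)), ((p : ℝ) ^ θ) ^ k := by
    refine (norm_sum_le _ _).trans (Finset.sum_le_sum fun S hS => ?_)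
    rw [Finset.mem_powersetCard] at hS
    rw [norm_prod, ← hS.2, ← Finset.prod_const]
    exact Finset.prod_le_prod (fun j _ => norm_nonneg _) fun j _ => h j
  rw [Finset.sum_const, nsmul_eq_mul] at h1
  have h2 : ((Finset.powersetCard k (Finset.univ : Finset (Fin m))).card : ℝ) ≤ 2 ^ m := by
    have h3 : (Finset.powersetCard k (Finset.univ : Finset (Fin m))).card ≤ (Finset.powerset (Finset.univ : Finset (Fin m))).card :=
      Finset.card_le_card fun S hS => by
        rw [Finset.mem_powersetCard] at hS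
        exact Finset.mem_powerset.2 hS.1
    rw [Finset.card_powerset, Finset.card_univ, Fintype.card_fin] at h3
    exact_mod_cast h3
  have h4 : (2:ℝ) ≤ (p : ℝ) ^ k := by
    calc (2:ℝ) ≤ p := hp2
      _ = (p : ℝ) ^ 1 := (pow_one _).symm
      _ ≤ _ := pow_le_pow_right₀ (by linarith) hk
  have h5 : (2:ℝ) ^ m ≤ ((p : ℝ) ^ k) ^ m := pow_le_pow_left₀ (by norm_num) h4 _
  have h6 : ((p : ℝ) ^ θ) ^ k = ((p : ℝ) ^ k) ^ θ := by
    rw [← Real.rpow_natCast, ← Real.rpow_mul hp0.le, mul_comm, Real.rpow_mul hp0.le, Real.rpow_natCast]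
  have h7 : 0 ≤ ((p : ℝ) ^ k) ^ θ := Real.rpow_nonneg (by positivity) _
  rw [Real.rpow_add (by positivity), Real.rpow_natCast]
  calc _ ≤ _ := h1
    _ ≤ 2 ^ m * ((p : ℝ) ^ θ) ^ k := mul_le_mul_of_nonneg_right h2 (by positivity)
    _ = 2 ^ m * ((p : ℝ) ^ k) ^ θ := by rw [h6]
    _ ≤ _ := mul_le_mul_of_nonneg_right h5 h7

theorem norm_muPi_le (α : Fin m → ℕ → ℂ) {θ : ℝ} (h : ∀ j, ∀ p : ℕ, p.Prime → ‖α j p‖ ≤ (p : ℝ) ^ θ) (n : ℕ)
    (hn : n ≠ 0) : ‖muPi α n‖ ≤ (n : ℝ) ^ (m + θ) := by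
  unfold muPi
  rw [if_neg hn, norm_prod]
  have h1 : ∏ p ∈ n.primeFactors, ‖lmu α p (n.factorization p)‖ ≤
      ∏ p ∈ n.primeFactors, ((p : ℝ) ^ (n.factorization p)) ^ (m + θ) := by
    refine Finset.prod_le_prod (fun p _ => norm_nonneg _) fun p hp => ?_
    have hpp := Nat.prime_of_mem_primeFactors hp
    refine norm_lmu_le α hpp (fun j => h j p hpp) ?_
    exact (hpp.dvd_iff_one_le_factorization hn).1 (Nat.dvd_of_mem_primeFactors hp)
  refine h1.trans (le_of_eq ?_)
  rw [Real.finsetProd_rpow _ _ (fun p _ => by positivity)]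
  congr 1
  have h2 := Nat.prod_factorization_pow_eq_self hn
  rw [Finsupp.prod, Nat.support_factorization] at h2
  exact_mod_cast h2

/-- the local factor -/
theorem local_sum (α : Fin m → ℕ → ℂ) (p : ℕ) (x : ℂ) :
    ∑ k ∈ Finset.range (m + 1), lmu α p k * x ^ k = ∏ j, (1 - α j p * x) := by
  have h1 : ∏ j : Fin m, (1 - α j p * x) = ∏ j : Fin m, (1 + (-(α j p * x))) := by simp [sub_eq_add_neg]
  rw [h1, Finset.prod_one_add, ← Finset.sum_fiberwise_of_maps_to (s := Finset.powerset (Finset.univ : Finset (Fin m)))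
    (t := Finset.range (m + 1)) (g := fun S => S.card) (fun S hS => by
      rw [Finset.mem_range]
      have := Finset.card_le_card (Finset.mem_powerset.1 hS)
      rw [Finset.card_univ, Fintype.card_fin] at this
      omega)]
  refine Finset.sum_congr rfl fun k hk => ?_
  unfold lmu
  have h2 : Finset.powersetCard k (Finset.univ : Finset (Fin m)) = Finset.filter (fun S => S.card = k) (Finset.powerset Finset.univ) := by
    ext S
    simp [Finset.mem_powersetCard]
  rw [h2, mul_assoc, Finset.sum_mul, Finset.mul_sum]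
  refine Finset.sum_congr rfl fun S hS => ?_
  rw [Finset.mem_filter] at hS
  rw [Finset.prod_neg, hS.2, Finset.prod_mul_distrib, Finset.prod_const, hS.2]

theorem lmu_big (α : Fin m → ℕ → ℂ) (p : ℕ) {k : ℕ} (hk : m < k) : lmu α p k = 0 := by
  unfold lmu
  rw [Finset.powersetCard_eq_empty.2 (by rw [Finset.card_univ, Fintype.card_fin]; exact hk)]
  simp

theorem summable_mu (α : Fin m → ℕ → ℂ) {θ : ℝ} (h : ∀ j, ∀ p : ℕ, p.Prime → ‖α j p‖ ≤ (p : ℝ) ^ θ) {s : ℂ}
    (hs : m + θ + 1 < s.re) : LSeriesSummable (muPi α) s := by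
  refine LSeriesSummable_of_le_const_mul_rpow (x := m + θ + 1) hs ⟨1, fun n hn => ?_⟩
  rw [one_mul, add_sub_cancel_right]
  exact norm_muPi_le α h n hn

theorem cast_pow_cpow (p e : ℕ) (s : ℂ) : (((p ^ e : ℕ) : ℂ)) ^ s = ((p : ℂ) ^ s) ^ e := by
  induction e with
  | zero => simp
  | succ e ih =>
    rw [pow_succ, pow_succ, ← ih]
    push_cast
    rw [← Nat.cast_pow, Complex.natCast_mul_natCast_cpow]

/-- **Euler product of the inverse** -/
theorem euler_mu (α : Fin m → ℕ → ℂ) {θ : ℝ} (h : ∀ j, ∀ p : ℕ, p.Prime → ‖α j p‖ ≤ (p : ℝ) ^ θ) {s : ℂ}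
    (hs : m + θ + 1 < s.re) :
    HasProd (fun p : Nat.Primes => ∏ j, (1 - α j p * ((p : ℕ) : ℂ) ^ (-s))) (LSeries (muPi α) s) := by
  have h1 : LSeries.term (muPi α) s 1 = 1 := by
    rw [LSeries.term_of_ne_zero one_ne_zero, muPi_one]
    simp
  have hmul : ∀ {a b : ℕ}, a.Coprime b → LSeries.term (muPi α) s (a * b) =
      LSeries.term (muPi α) s a * LSeries.term (muPi α) s b := by
    intro a b hab
    rcases Nat.eq_zero_or_pos a with ha | ha
    · subst ha; simp
    rcases Nat.eq_zero_or_pos b with hb | hb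
    · subst hb; simp
    rw [LSeries.term_of_ne_zero (by positivity), LSeries.term_of_ne_zero ha.ne', LSeries.term_of_ne_zero hb.ne',
      muPi_mul α hab]
    push_cast
    rw [Complex.natCast_mul_natCast_cpow]
    ring
  have hsum := (summable_mu α h hs).norm
  have hprod := EulerProduct.eulerProduct_hasProd h1 hmul hsum (LSeries.term_zero _ _)
  have hloc : (fun p : Nat.Primes => ∑' e : ℕ, LSeries.term (muPi α) s ((p : ℕ) ^ e)) =
      fun p : Nat.Primes => ∏ j, (1 - α j p * ((p : ℕ) : ℂ) ^ (-s)) := by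
    funext p
    have hpp := p.2
    have hterm : ∀ e : ℕ, LSeries.term (muPi α) s ((p : ℕ) ^ e) = lmu α p e * ((((p : ℕ) : ℂ)) ^ (-s)) ^ e := by
      intro e
      rw [LSeries.term_of_ne_zero (pow_ne_zero _ hpp.ne_zero), muPi_pow α hpp, cast_pow_cpow, Complex.cpow_neg,
        inv_pow, div_eq_mul_inv]
    rw [tsum_eq_sum (s := Finset.range (m + 1)) (fun e he => by
      rw [hterm, lmu_big α p (by rw [Finset.mem_range] at he; omega), zero_mul])]
    rw [Finset.sum_congr rfl fun e _ => hterm e]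
    exact local_sum α p _
  rw [hloc] at hprod
  exact hprod

/-- closeness to `1` far to the right -/
theorem mu_close (α : Fin m → ℕ → ℂ) {θ : ℝ} (h : ∀ j, ∀ p : ℕ, p.Prime → ‖α j p‖ ≤ (p : ℝ) ^ θ) {s : ℂ}
    (hs : m + θ + 4 ≤ s.re) : ‖LSeries (muPi α) s - 1‖ ≤ 1 / 2 := by
  have hsum : LSeriesSummable (muPi α) s := summable_mu α h (by linarith)
  set g : ℕ → ℂ := fun n => if n = 1 then 0 else LSeries.term (muPi α) s n with hg
  have h1 : LSeries.term (muPi α) s 1 = 1 := by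
    rw [LSeries.term_of_ne_zero one_ne_zero, muPi_one]
    simp
  have e1 : LSeries (muPi α) s - 1 = ∑' n, g n := by
    have h2 := hsum.tsum_eq_add_tsum_ite 1
    rw [h1] at h2
    unfold LSeries
    rw [h2]
    ring
  rw [e1]
  have hz := hasSum_zeta_two
  have hb : ∀ n : ℕ, ‖g n‖ ≤ 1 / 4 * (1 / (n : ℝ) ^ 2) := by
    intro n
    simp only [hg]
    rcases Nat.lt_or_ge n 2 with hn | hn
    · have : (if n = 1 then (0:ℂ) else LSeries.term (muPi α) s n) = 0 := by
        interval_cases n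
        · simp
        · simp
      rw [this, norm_zero]
      positivity
    · rw [if_neg (by omega), LSeries.norm_term_eq, if_neg (by omega)]
      have hn0 : (0:ℝ) < n := by exact_mod_cast (by omega : 0 < n)
      have hn2 : (2:ℝ) ≤ n := by exact_mod_cast hn
      have h2 := norm_muPi_le α h n (by omega)
      calc ‖muPi α n‖ / (n : ℝ) ^ s.re ≤ (n : ℝ) ^ (m + θ) / (n : ℝ) ^ s.re :=
            div_le_div_of_nonneg_right h2 (by positivity)
        _ = (n : ℝ) ^ (m + θ - s.re) := (Real.rpow_sub hn0 _ _).symm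
        _ ≤ (n : ℝ) ^ (-4 : ℝ) := Real.rpow_le_rpow_of_exponent_le (by linarith) (by linarith)
        _ = 1 / (n : ℝ) ^ 4 := by
            rw [Real.rpow_neg hn0.le, show (4:ℝ) = ((4:ℕ):ℝ) by norm_num, Real.rpow_natCast, one_div]
        _ ≤ 1 / 4 * (1 / (n : ℝ) ^ 2) := by
            rw [one_div_mul_one_div, one_div_le_one_div (by positivity) (by positivity)]
            have h9 : (4:ℝ) ≤ (n:ℝ) ^ 2 := by nlinarith
            have h10 : (0:ℝ) < (n:ℝ) ^ 2 := by positivity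
            nlinarith
  have h3 : Summable fun n : ℕ => 1 / 4 * (1 / (n : ℝ) ^ 2) := hz.summable.mul_left _
  refine (tsum_of_norm_bounded h3.hasSum hb).trans ?_
  rw [tsum_mul_left, hz.tsum_eq]
  have := Real.pi_lt_d2
  have := Real.pi_pos
  nlinarith

/-- the product and its inverse -/
theorem euler_inv (α : Fin m → ℕ → ℂ) {θ : ℝ} (h : ∀ j, ∀ p : ℕ, p.Prime → ‖α j p‖ ≤ (p : ℝ) ^ θ) {s : ℂ}
    (hs : m + θ + 4 ≤ s.re) :
    LSeries (muPi α) s ≠ 0 ∧ ∏' p : Nat.Primes, ∏ j, (1 - α j p * ((p : ℕ) : ℂ) ^ (-s))⁻¹ = (LSeries (muPi α) s)⁻¹ ∧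
    ‖(LSeries (muPi α) s)⁻¹‖ ≤ 2 := by
  have h1 := mu_close α h hs
  have h2 : 1 / 2 ≤ ‖LSeries (muPi α) s‖ := by
    have h3 : ‖(1:ℂ)‖ ≤ ‖LSeries (muPi α) s‖ + ‖LSeries (muPi α) s - 1‖ := by
      rw [← norm_neg (LSeries (muPi α) s - 1)]
      refine le_trans (le_of_eq ?_) (norm_add_le _ _)
      congr 1
      ring
    rw [norm_one] at h3
    linarith
  have hne : LSeries (muPi α) s ≠ 0 := by
    intro h0
    rw [h0, norm_zero] at h2
    norm_num at h2
  refine ⟨hne, ?_, ?_⟩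
  · have h3 := euler_mu α h (s := s) (by linarith)
    have h4 : HasProd (fun p : Nat.Primes => ∏ j, (1 - α j p * ((p : ℕ) : ℂ) ^ (-s))⁻¹) (LSeries (muPi α) s)⁻¹ := by
      have h5 : Tendsto _ _ (𝓝 (LSeries (muPi α) s)) := h3
      refine (h5.inv₀ hne).congr fun S => ?_
      rw [← Finset.prod_inv_distrib]
      exact Finset.prod_congr rfl fun p _ => (Finset.prod_inv_distrib _).symm
    exact h4.tprod_eq
  · rw [norm_inv]
    exact inv_le_of_inv_le₀ (by norm_num) (by rw [← one_div]; exact h2)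

/-- transform of the summatory function -/
theorem trans_F {f : ℕ → ℂ} {a : ℝ} (ha : 0 ≤ a) (hf : ∀ n : ℕ, n ≠ 0 → ‖f n‖ ≤ (n : ℝ) ^ a) {s : ℂ} (hs : a + 1 < s.re) :
    ∫ u : ℝ, (∑ n ∈ Finset.Icc 1 ⌊Real.exp u⌋₊, f n) * cexp (-s * u) = LSeries f s / s := by
  have hs0 : s ≠ 0 := by
    rintro rfl
    simp at hs
    linarith
  have hO : (fun n : ℕ => ∑ k ∈ Finset.Icc 1 n, ‖f k‖) =O[atTop] fun n => (n : ℝ) ^ (a + 1) := by
    refine Asymptotics.IsBigO.of_bound 1 ?_
    filter_upwards [eventually_ge_atTop 1] with n hn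
    have hn0 : (0:ℝ) < n := by exact_mod_cast hn
    rw [one_mul, Real.norm_eq_abs, Real.norm_eq_abs, abs_of_nonneg (Finset.sum_nonneg fun _ _ => norm_nonneg _),
      abs_of_nonneg (by positivity)]
    calc ∑ k ∈ Finset.Icc 1 n, ‖f k‖ ≤ ∑ k ∈ Finset.Icc 1 n, (n : ℝ) ^ a := by
          refine Finset.sum_le_sum fun k hk => ?_
          rw [Finset.mem_Icc] at hk
          refine (hf k (by omega)).trans (Real.rpow_le_rpow (by positivity) (by exact_mod_cast hk.2) ha)
      _ = (n : ℝ) ^ (a + 1) := by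
          rw [Finset.sum_const, Nat.card_Icc, nsmul_eq_mul, Real.rpow_add_one hn0.ne']
          simp
          ring
  have h1 := LSeries_eq_mul_integral' f (by linarith : (0:ℝ) ≤ a + 1) hs hO
  rw [h1, mul_div_assoc, mul_comm s, div_mul_cancel₀ _ hs0]
  have himg : Real.exp '' Ioi 0 = Ioi 1 := by
    ext t
    constructor
    · rintro ⟨u, hu, rfl⟩
      exact Real.one_lt_exp_iff.2 hu
    · intro ht
      have ht0 : 0 < t := lt_trans one_pos ht
      exact ⟨Real.log t, Real.log_pos ht, Real.exp_log ht0⟩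
  rw [← himg, integral_image_eq_integral_abs_deriv_smul measurableSet_Ioi
    (fun x _ => (Real.hasDerivAt_exp x).hasDerivWithinAt) Real.exp_injective.injOn]
  have h2 : ∫ u : ℝ, (∑ n ∈ Finset.Icc 1 ⌊Real.exp u⌋₊, f n) * cexp (-s * u) =
      ∫ u in Ioi (0:ℝ), (∑ n ∈ Finset.Icc 1 ⌊Real.exp u⌋₊, f n) * cexp (-s * u) := by
    rw [← integral_indicator measurableSet_Ioi]
    refine integral_congr_ae ?_
    have h3 : ∀ᵐ u : ℝ, u ≠ 0 := by
      rw [ae_iff]
      simp
    filter_upwards [h3] with u hu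
    rcases lt_or_gt_of_ne hu with h | h
    · rw [indicator_of_notMem (by simpa using h.le)]
      have h4 : ⌊Real.exp u⌋₊ = 0 := Nat.floor_eq_zero.2 (by rw [← Real.exp_zero]; exact Real.exp_lt_exp.2 h)
      rw [h4]
      simp
    · rw [indicator_of_mem (show u ∈ Ioi (0:ℝ) from h)]
  rw [h2]
  refine setIntegral_congr_fun measurableSet_Ioi fun u _ => ?_
  rw [abs_of_pos (Real.exp_pos _), Complex.real_smul]
  have h5 : ((Real.exp u : ℝ) : ℂ) * ((Real.exp u : ℝ) : ℂ) ^ (-(s + 1)) = cexp (-s * u) := by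
    rw [Complex.cpow_def_of_ne_zero (by exact_mod_cast (Real.exp_pos u).ne'), ← Complex.ofReal_log (Real.exp_pos _).le,
      Real.log_exp, Complex.ofReal_exp, ← Complex.exp_add]
    congr 1
    ring
  rw [← h5]
  ring

end

end H313.GK
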