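import Pool.Agent.H313R3.GK.F
import Pool.Agent.H313R3.GK.G

/-!
# Local oscillation for all standard L-functions
-/

open Complex MeasureTheory Filter Topology Set
open scoped ComplexConjugate

set_option linter.unusedSectionVars false
set_option linter.unusedVariables false
set_option autoImplicit false

namespace H313.GK

noncomputable section

/-- analytic data of a standard L-function of degree `m` -/
structure SD {m : ℕ} (θ N : ℝ) (μ : Fin m → ℂ) (α : Fin m → ℕ → ℂ) (ε : ℂ) (Λ : ℂ → ℂ) : Prop where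
  one_le : 1 ≤ N
  re_le : ∀ j, (μ j).re ≤ 1 / 2
  norm_le : ∀ j, ∀ p : ℕ, p.Prime → ‖α j p‖ ≤ (p : ℝ) ^ θ
  norm_eq : ‖ε‖ = 1
  entire : Differentiable ℂ Λ
  euler : ∀ s : ℂ, 1 + θ < s.re → Λ s = (∏ j, Gammaℝ (s - μ j)) *
    ∏' p : Nat.Primes, ∏ j, (1 - α j p * (p : ℂ) ^ (-s))⁻¹
  fe : ∀ s : ℂ, Λ s = ε * (N : ℂ) ^ (1 / 2 - s) * conj (Λ (1 - conj s))
  growth : ∀ a b : ℝ, ∃ M, ∀ s : ℂ, a ≤ s.re → s.re ≤ b → ‖Λ s‖ ≤ Real.exp (M * (1 + |s.im|))

theorem gR {z : ℂ} (hz : 1 ≤ z.re) (k : ℕ) (hk : 1 ≤ k) :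
    ‖Gammaℝ z‖ * (1 + |z.im|) ^ k ≤ 6 ^ k * (z.re / 2 + k) ^ (z.re / 2 + k) := by
  have h0 : (z / 2).re = z.re / 2 := by simp
  have h0' : (z / 2).im = z.im / 2 := by simp
  have h1 := gam (z / 2) (by rw [h0]; linarith) k hk
  rw [h0, h0', abs_div, abs_two] at h1
  have h2 : ‖Gammaℝ z‖ ≤ ‖Complex.Gamma (z / 2)‖ := by
    rw [Gammaℝ_def, norm_mul]
    have h3 : ‖(Real.pi : ℂ) ^ (-z / 2)‖ ≤ 1 := by
      rw [Complex.norm_cpow_eq_rpow_re_of_pos Real.pi_pos]
      refine Real.rpow_le_one_of_one_le_of_nonpos (by linarith [Real.pi_gt_three]) ?_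
      simp
      linarith
    exact mul_le_of_le_one_left (norm_nonneg _) h3
  have him := abs_nonneg z.im
  have h3 : (1 + |z.im|) ^ k ≤ 2 ^ k * (1 + |z.im| / 2) ^ k := by
    rw [← mul_pow]
    exact pow_le_pow_left₀ (by linarith) (by linarith) _
  calc ‖Gammaℝ z‖ * (1 + |z.im|) ^ k ≤ ‖Complex.Gamma (z / 2)‖ * (2 ^ k * (1 + |z.im| / 2) ^ k) :=
        mul_le_mul h2 h3 (by positivity) (norm_nonneg _)
    _ = 2 ^ k * (‖Complex.Gamma (z / 2)‖ * (1 + |z.im| / 2) ^ k) := by ring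
    _ ≤ 2 ^ k * (3 ^ k * (z.re / 2 + k) ^ (z.re / 2 + k)) := mul_le_mul_of_nonneg_left h1 (by positivity)
    _ = _ := by
        rw [← mul_assoc, ← mul_pow]
        norm_num

/-- shifted version -/
theorem gR' (s μ : ℂ) (hz : 1 ≤ s.re - μ.re) (k : ℕ) (hk : 1 ≤ k) :
    ‖Gammaℝ (s - μ)‖ * (1 + |s.im|) ^ k ≤
      (6 * (1 + |μ.im|)) ^ k * ((s.re - μ.re) / 2 + k) ^ ((s.re - μ.re) / 2 + k) := by
  have h1 := gR (z := s - μ) (by simpa using hz) k hk
  rw [Complex.sub_re, Complex.sub_im] at h1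
  have h2 : 1 + |s.im| ≤ (1 + |μ.im|) * (1 + |s.im - μ.im|) := by
    have h3 := abs_sub_abs_le_abs_sub s.im μ.im
    nlinarith [mul_nonneg (abs_nonneg μ.im) (abs_nonneg (s.im - μ.im))]
  calc ‖Gammaℝ (s - μ)‖ * (1 + |s.im|) ^ k ≤ ‖Gammaℝ (s - μ)‖ * ((1 + |μ.im|) * (1 + |s.im - μ.im|)) ^ k :=
        mul_le_mul_of_nonneg_left (pow_le_pow_left₀ (by positivity) h2 _) (norm_nonneg _)
    _ = (1 + |μ.im|) ^ k * (‖Gammaℝ (s - μ)‖ * (1 + |s.im - μ.im|) ^ k) := by rw [mul_pow]; ring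
    _ ≤ (1 + |μ.im|) ^ k * (6 ^ k * ((s.re - μ.re) / 2 + k) ^ ((s.re - μ.re) / 2 + k)) :=
        mul_le_mul_of_nonneg_left h1 (by positivity)
    _ = _ := by rw [mul_pow]; ring

variable {m : ℕ} {θ N : ℝ} {μ : Fin m → ℂ} {α : Fin m → ℕ → ℂ} {ε : ℂ} {Λ : ℂ → ℂ}

/-- one gamma factor, in exponential form -/
theorem gfac (μ : ℂ) (hμ : μ.re ≤ 1 / 2) (k : ℕ) (hk : 1 ≤ k) : ∃ A : ℝ, 0 ≤ A ∧ ∀ s : ℂ, 4 ≤ s.re →
    ‖Gammaℝ (s - μ)‖ * (1 + |s.im|) ^ k ≤ Real.exp (A * (1 + |s.re|) + |s.re| * Real.log (1 + |s.re|) / 2) := by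
  set R : ℝ := |μ.re| + k with hR
  have hR0 : 0 ≤ R := by positivity
  have hk' : (1:ℝ) ≤ k := by exact_mod_cast hk
  set P : ℝ := 6 * (1 + |μ.im|) with hP
  have hP0 : 0 ≤ P := by positivity
  refine ⟨P * k + (R + (1 / 2 + R) * (1 / 2 + R)), by positivity, fun s hs => ?_⟩
  have hs0 : 0 ≤ s.re := by linarith
  rw [abs_of_nonneg hs0]
  have h1 := gR' s μ (by linarith) k hk
  have h2 : (s.re - μ.re) / 2 + k ≤ s.re / 2 + R := by
    have := neg_abs_le μ.re
    have := abs_nonneg μ.re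
    rw [hR]
    linarith
  have h3 := pow_self_le (σ := s.re) (x := (s.re - μ.re) / 2 + k) (R := R) (b := 2) two_pos hs0 (by linarith) hR0 h2
  have h4 : P ^ k ≤ Real.exp (P * k) := by
    have h5 : P ≤ Real.exp P := (by linarith : P ≤ P + 1).trans (Real.add_one_le_exp _)
    calc P ^ k ≤ (Real.exp P) ^ k := pow_le_pow_left₀ hP0 h5 _
      _ = _ := by rw [← Real.exp_nat_mul]; congr 1; ring
  calc _ ≤ _ := h1
    _ ≤ Real.exp (P * k) * Real.exp ((R + (1 / 2 + R) * (1 / 2 + R)) * (1 + s.re) + s.re * Real.log (1 + s.re) / 2) :=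
        mul_le_mul h4 h3 (by
          have : 0 ≤ (s.re - μ.re) / 2 + k := by linarith
          exact Real.rpow_nonneg this _) (Real.exp_pos _).le
    _ ≤ _ := by
        rw [← Real.exp_add]
        refine Real.exp_le_exp.2 ?_
        have h5 : 0 ≤ P * k * s.re := by positivity
        nlinarith

theorem SD.kp (hm : 1 ≤ m) (hθ : 0 ≤ θ) (d : SD θ N μ α ε Λ) : KP (2 / m) Λ := by
  have hm0 : (0:ℝ) < m := by exact_mod_cast hm
  have hm1 : (1:ℝ) ≤ m := by exact_mod_cast hm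
  refine KP_of (b := 2 / m) (by positivity) d.entire (σ₁ := m + θ + 4) (w := 1) zero_le_one (by linarith) (by linarith)
    (fun k => ?_) ?_ d.growth
  · choose A hA hAb using fun j => gfac (μ j) (d.re_le j) (k + 1) (by omega)
    refine ⟨1 + ∑ j, A j, by
      have : 0 ≤ ∑ j, A j := Finset.sum_nonneg fun j _ => hA j
      linarith, fun s hs => ?_⟩
    obtain ⟨_, he, hL⟩ := euler_inv α d.norm_le (s := s) hs
    rw [d.euler s (by linarith), he, norm_mul, norm_prod]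
    have him := abs_nonneg s.im
    have h1 : (1 + |s.im|) ^ k ≤ ∏ j : Fin m, (1 + |s.im|) ^ (k + 1) := by
      rw [Finset.prod_const, Finset.card_univ, Fintype.card_fin, ← pow_mul]
      exact pow_le_pow_right₀ (by linarith) (by nlinarith)
    have h2 : ∏ j, (‖Gammaℝ (s - μ j)‖ * (1 + |s.im|) ^ (k + 1)) ≤
        ∏ j : Fin m, Real.exp (A j * (1 + |s.re|) + |s.re| * Real.log (1 + |s.re|) / 2) :=
      Finset.prod_le_prod (fun j _ => by positivity) fun j _ => hAb j s (by linarith)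
    rw [← Real.exp_sum, Finset.sum_add_distrib, ← Finset.sum_mul, Finset.sum_const, Finset.card_univ,
      Fintype.card_fin, nsmul_eq_mul] at h2
    have h3 : (2:ℝ) ≤ Real.exp 1 := by have := Real.add_one_le_exp (1:ℝ); linarith
    calc (∏ j, ‖Gammaℝ (s - μ j)‖) * ‖(LSeries (muPi α) s)⁻¹‖ * (1 + |s.im|) ^ k
        ≤ (∏ j, ‖Gammaℝ (s - μ j)‖) * 2 * (∏ j : Fin m, (1 + |s.im|) ^ (k + 1)) := by
          refine mul_le_mul (mul_le_mul_of_nonneg_left hL ?_) h1 (by positivity) ?_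
          · exact Finset.prod_nonneg fun j _ => norm_nonneg _
          · have : 0 ≤ ∏ j, ‖Gammaℝ (s - μ j)‖ := Finset.prod_nonneg fun j _ => norm_nonneg _
            positivity
      _ = 2 * ∏ j, (‖Gammaℝ (s - μ j)‖ * (1 + |s.im|) ^ (k + 1)) := by
          rw [Finset.prod_mul_distrib]
          ring
      _ ≤ Real.exp 1 * Real.exp ((∑ j, A j) * (1 + |s.re|) + m * (|s.re| * Real.log (1 + |s.re|) / 2)) := by
          refine mul_le_mul h3 h2 ?_ (Real.exp_pos _).le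
          exact Finset.prod_nonneg fun j _ => by positivity
      _ ≤ _ := by
          rw [← Real.exp_add]
          refine Real.exp_le_exp.2 ?_
          have h4 : m * (|s.re| * Real.log (1 + |s.re|) / 2) = |s.re| * Real.log (1 + |s.re|) / (2 / m) := by
            field_simp
          rw [h4]
          have := abs_nonneg s.re
          nlinarith
  · refine ⟨Real.log N, Real.log_nonneg d.one_le, fun s => ?_⟩
    have hN0 : 0 < N := by linarith [d.one_le]
    have h1 : ‖Λ s‖ = N ^ (1 / 2 - s.re) * ‖Λ (1 - conj s)‖ := by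
      conv_lhs => rw [d.fe s]
      rw [norm_mul, norm_mul, d.norm_eq, one_mul, Complex.norm_conj, Complex.norm_cpow_eq_rpow_re_of_pos hN0]
      simp
    rw [h1]
    have h2 : ((1 : ℝ) : ℂ) - conj s = 1 - conj s := by simp
    rw [h2]
    refine mul_le_mul_of_nonneg_right ?_ (norm_nonneg _)
    rw [Real.rpow_def_of_pos hN0]
    refine Real.exp_le_exp.2 (mul_le_mul_of_nonneg_left ?_ (Real.log_nonneg d.one_le))
    have := neg_abs_le s.re
    linarith

/-- the summatory function -/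
def SM (f : ℕ → ℂ) (y : ℝ) : ℂ := ∑ n ∈ Finset.Icc 1 ⌊y⌋₊, f n

theorem SM_meas (f : ℕ → ℂ) : Measurable (SM f) := by
  have h : SM f = (fun n : ℕ => ∑ k ∈ Finset.Icc 1 n, f k) ∘ Nat.floor := rfl
  rw [h]
  exact measurable_from_nat.comp Nat.measurable_floor

theorem SM_bd {f : ℕ → ℂ} {a : ℝ} (ha : 0 ≤ a) (hf : ∀ n : ℕ, n ≠ 0 → ‖f n‖ ≤ (n : ℝ) ^ a) (u : ℝ) :
    ‖SM f (Real.exp u)‖ ≤ 1 * Real.exp ((a + 1) * u) := by
  rw [one_mul]
  unfold SM
  have hu := Real.exp_pos u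
  have h1 : (⌊Real.exp u⌋₊ : ℝ) ≤ Real.exp u := Nat.floor_le hu.le
  calc ‖∑ n ∈ Finset.Icc 1 ⌊Real.exp u⌋₊, f n‖ ≤ ∑ n ∈ Finset.Icc 1 ⌊Real.exp u⌋₊, (Real.exp u) ^ a := by
        refine (norm_sum_le _ _).trans (Finset.sum_le_sum fun n hn => ?_)
        rw [Finset.mem_Icc] at hn
        refine (hf n (by omega)).trans (Real.rpow_le_rpow (by positivity) ?_ ha)
        exact (by exact_mod_cast hn.2 : (n:ℝ) ≤ ⌊Real.exp u⌋₊).trans h1
    _ = ⌊Real.exp u⌋₊ * (Real.exp u) ^ a := by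
        rw [Finset.sum_const, Nat.card_Icc, nsmul_eq_mul]
        simp
    _ ≤ Real.exp u * (Real.exp u) ^ a := mul_le_mul_of_nonneg_right h1 (by positivity)
    _ = _ := by
        rw [← Real.exp_mul, ← Real.exp_add]
        congr 1
        ring

/-- **Every zero of a standard L-function is visible in every window.** -/
theorem SD.osc (hm : 1 ≤ m) (hθ : 0 ≤ θ) (d : SD θ N μ α ε Λ) {B : ℝ} (hB : m < B) {ρ : ℂ} (hρ : 0 < ρ.re)
    {r : ℕ} (hr1 : 1 ≤ r) (hr : (r : ℕ∞) ≤ analyticOrderAt Λ ρ) :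
    ∃ c : ℝ, 0 < c ∧ ∀ᶠ x : ℝ in atTop, ∃ y ∈ Icc x (x * Real.log x ^ B),
      c * (y ^ ρ.re * Real.log y ^ (r - 1)) ≤ ‖SM (muPi α) y‖ := by
  have hm0 : (0:ℝ) < m := by exact_mod_cast hm
  have hm1 : (1:ℝ) ≤ m := by exact_mod_cast hm
  have hB0 : 0 < B := by linarith
  refine window_x hB0 (r - 1) ?_
  have hb : (0:ℝ) < 2 / m := by positivity
  have hbB : 2 < 2 / m * B := by
    rw [div_mul_eq_mul_div, lt_div_iff₀ hm0]
    linarith
  set Φ : ℂ → ℂ := fun s => (∏ j, (s - μ j)) * Λ s with hΦ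
  have hKP : KP (2 / m) Φ := (d.kp hm hθ).mul_prod hb Finset.univ μ
  have hord : (r : ℕ∞) ≤ analyticOrderAt Φ ρ := by
    have h1 : AnalyticAt ℂ (fun s : ℂ => ∏ j, (s - μ j)) ρ := by
      have : Differentiable ℂ (fun s : ℂ => ∏ j, (s - μ j)) := by fun_prop
      exact this.analyticAt ρ
    have h2 := analyticOrderAt_mul h1 (d.entire.analyticAt ρ)
    have h3 : Φ = (fun s : ℂ => ∏ j, (s - μ j)) * Λ := rfl
    rw [h3, h2]
    exact hr.trans (by exact le_add_self)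
  set a : ℝ := m + θ with ha
  have ha0 : 0 ≤ a := by positivity
  have hf : ∀ n : ℕ, n ≠ 0 → ‖muPi α n‖ ≤ (n : ℝ) ^ a := fun n hn => norm_muPi_le α d.norm_le n hn
  set c : ℝ := max (m + θ + 4) (ρ.re + 1) with hc
  have hc1 : m + θ + 4 ≤ c := le_max_left _ _
  have hc2 : ρ.re + 1 ≤ c := le_max_right _ _
  set g : ℂ → ℂ := fun s => (∏ j, (((2 * Real.pi : ℝ) : ℂ) * Gammaℝ (s - μ j + 2))) / s with hg
  have hzne : ∀ s : ℂ, 0 < s.re → ∀ j, 3 / 2 ≤ (s - μ j + 2).re := by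
    intro s hs j
    have := d.re_le j
    simp
    linarith
  have hz1 : ∀ s : ℂ, ∀ j, (s - μ j + 2).re = s.re - (μ j - 2).re := by
    intro s j
    simp
    ring
  -- bound in the strip
  obtain ⟨Cg, hCg⟩ : ∃ Cg : ℝ, ∀ s : ℂ, ρ.re / 2 ≤ s.re → s.re ≤ c → ‖g s‖ ≤ Cg * (1 + s.im ^ 2)⁻¹ := by
    set Y : Fin m → ℝ := fun j => (c + 2 + |(μ j).re|) / 2 + 2 with hY
    set D : Fin m → ℝ := fun j => (2 * Real.pi) * ((6 * (1 + |(μ j - 2).im|)) ^ 2 * (Y j) ^ (Y j)) with hD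
    refine ⟨(∏ j, D j) / (ρ.re / 2), fun s h1 h2 => ?_⟩
    have hs0 : 0 < s.re := by linarith
    have him := abs_nonneg s.im
    have hfac : ∀ j, ‖((2 * Real.pi : ℝ) : ℂ) * Gammaℝ (s - μ j + 2)‖ * (1 + |s.im|) ^ 2 ≤ D j := by
      intro j
      have e : s - μ j + 2 = s - (μ j - 2) := by ring
      have h3 := gR' s (μ j - 2) (by have := hzne s hs0 j; rw [hz1] at this; linarith) 2 (by norm_num)
      rw [e, norm_mul, Complex.norm_real, Real.norm_eq_abs, abs_of_pos (by positivity), mul_assoc]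
      refine mul_le_mul_of_nonneg_left (h3.trans ?_) (by positivity)
      refine mul_le_mul_of_nonneg_left ?_ (by positivity)
      have h4 : (s.re - (μ j - 2).re) / 2 + (2:ℕ) ≤ Y j := by
        simp only [hY, Complex.sub_re]
        have := neg_abs_le (μ j).re
        norm_num
        linarith
      have h5 : 1 ≤ (s.re - (μ j - 2).re) / 2 + (2:ℕ) := by
        have h6 := hzne s hs0 j
        rw [hz1] at h6
        have h7 : ((2:ℕ):ℝ) = 2 := by norm_num
        rw [h7]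
        linarith
      calc ((s.re - (μ j - 2).re) / 2 + (2:ℕ)) ^ ((s.re - (μ j - 2).re) / 2 + (2:ℕ)) ≤
            (Y j) ^ ((s.re - (μ j - 2).re) / 2 + (2:ℕ)) := Real.rpow_le_rpow (by linarith) h4 (by linarith)
        _ ≤ (Y j) ^ (Y j) := Real.rpow_le_rpow_of_exponent_le (by linarith) h4
    have hprod : (∏ j, ‖((2 * Real.pi : ℝ) : ℂ) * Gammaℝ (s - μ j + 2)‖) * (1 + |s.im|) ^ 2 ≤ ∏ j, D j := by
      calc (∏ j, ‖((2 * Real.pi : ℝ) : ℂ) * Gammaℝ (s - μ j + 2)‖) * (1 + |s.im|) ^ 2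
          ≤ (∏ j, ‖((2 * Real.pi : ℝ) : ℂ) * Gammaℝ (s - μ j + 2)‖) * ∏ j : Fin m, (1 + |s.im|) ^ 2 := by
            refine mul_le_mul_of_nonneg_left ?_ (Finset.prod_nonneg fun j _ => norm_nonneg _)
            rw [Finset.prod_const, Finset.card_univ, Fintype.card_fin, ← pow_mul]
            exact pow_le_pow_right₀ (by linarith) (by omega)
        _ = ∏ j, (‖((2 * Real.pi : ℝ) : ℂ) * Gammaℝ (s - μ j + 2)‖ * (1 + |s.im|) ^ 2) := by
            rw [Finset.prod_mul_distrib]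
        _ ≤ _ := Finset.prod_le_prod (fun j _ => by positivity) fun j _ => hfac j
    have hns : ρ.re / 2 ≤ ‖s‖ := h1.trans (Complex.re_le_norm s)
    rw [← div_eq_mul_inv, le_div_iff₀ (by positivity)]
    simp only [hg]
    rw [norm_div, norm_prod, div_mul_eq_mul_div]
    refine div_le_div₀ ?_ ?_ (by positivity) hns
    · refine Finset.prod_nonneg fun j _ => ?_
      have h6 : 0 ≤ Y j := by
        simp only [hY]
        have := abs_nonneg (μ j).re
        linarith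
      have h7 := Real.rpow_nonneg h6 (Y j)
      have h8 := abs_nonneg (μ j - 2).im
      simp only [hD]
      positivity
    · refine le_trans (mul_le_mul_of_nonneg_left (sq_le_two s.im) ?_) hprod
      exact Finset.prod_nonneg fun j _ => norm_nonneg _
  have hgne : ∀ s : ℂ, 0 < s.re → ∀ j, Gammaℝ (s - μ j + 2) ≠ 0 := fun s hs j =>
    Gammaℝ_ne_zero_of_re_pos (by have := hzne s hs j; linarith)
  refine main (F := fun u => SM (muPi α) (Real.exp u)) (σ := ρ.re / 2) (c := c) (c₁ := a + 1) (Cg := Cg) (g := g)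
    hb hB0 hbB hKP hr1 hord hρ.le (by linarith) (by linarith) (by linarith)
    ((SM_meas _).comp Real.measurable_exp) (fun u hu => ?_) ⟨1, zero_le_one, SM_bd ha0 hf⟩ (fun τ => ?_) (fun s h1 h2 => ?_)
    hCg ?_
  · have h4 : ⌊Real.exp u⌋₊ = 0 := Nat.floor_eq_zero.2 (by rw [← Real.exp_zero]; exact Real.exp_lt_exp.2 hu)
    simp only [SM]
    rw [h4]
    simp
  · set s : ℂ := vl c τ with hs
    have hsre : s.re = c := by rw [hs]; simp
    have hs0 : 0 < s.re := by rw [hsre]; linarith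
    have h1 := trans_F ha0 hf (s := s) (by rw [hsre]; linarith)
    obtain ⟨hne, he, _⟩ := euler_inv α d.norm_le (s := s) (by rw [hsre]; linarith)
    have h2 : ∫ u : ℝ, SM (muPi α) (Real.exp u) * cexp (-s * u) = LSeries (muPi α) s / s := h1
    rw [h2]
    simp only [hΦ, hg]
    rw [d.euler s (by rw [hsre]; linarith), he]
    have h3 : ∀ j, ((2 * Real.pi : ℝ) : ℂ) * Gammaℝ (s - μ j + 2) = (s - μ j) * Gammaℝ (s - μ j) := by
      intro j
      have hz : s - μ j ≠ 0 := by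
        intro h0
        have := congrArg Complex.re h0
        simp at this
        have := d.re_le j
        linarith
      rw [Gammaℝ_add_two hz]
      have hpi : (Real.pi : ℂ) ≠ 0 := by exact_mod_cast Real.pi_ne_zero
      push_cast
      field_simp
    rw [Finset.prod_congr rfl fun j _ => h3 j, Finset.prod_mul_distrib]
    field_simp
  · have hs0 : 0 < s.re := by linarith
    have hsne : s ≠ 0 := by
      rintro rfl
      simp at hs0
    simp only [hg]
    refine DifferentiableAt.div ?_ differentiableAt_id hsne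
    refine DifferentiableAt.fun_finsetProd fun j _ => ?_
    refine DifferentiableAt.const_mul ?_ _
    have h5 := (differentiable_Gammaℝ_inv (s - μ j + 2)).inv (inv_ne_zero (hgne s hs0 j))
    have h6 : DifferentiableAt ℂ Gammaℝ (s - μ j + 2) := by
      refine h5.congr_of_eventuallyEq (Eventually.of_forall fun z => ?_)
      simp
    exact DifferentiableAt.comp (g := Gammaℝ) (f := fun z : ℂ => z - μ j + 2) s h6 (by fun_prop)
  · have hρne : ρ ≠ 0 := by
      rintro rfl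
      simp at hρ
    simp only [hg]
    refine div_ne_zero (Finset.prod_ne_zero_iff.2 fun j _ => mul_ne_zero ?_ (hgne ρ hρ j)) hρne
    exact_mod_cast (by positivity : (2 * Real.pi) ≠ 0)

end

end H313.GK
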