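import Pool.Agent.H313R3.GK.H
import Pool.Agent.H313R3.TK.L

/-!
# Criteria on sparse windows for all standard L-functions
-/

open Complex MeasureTheory Filter Topology Set
open scoped ComplexConjugate

set_option linter.unusedSectionVars false
set_option linter.unusedVariables false
set_option autoImplicit false

namespace H313.GK

noncomputable section

variable {m : ℕ} {θ N : ℝ} {μ : Fin m → ℂ} {α : Fin m → ℕ → ℂ} {ε : ℂ} {Λ : ℂ → ℂ}

theorem order_one {ρ : ℂ} (hd : Differentiable ℂ Λ) (hz : Λ ρ = 0) : ((1 : ℕ) : ℕ∞) ≤ analyticOrderAt Λ ρ := by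
  have h3 : analyticOrderAt Λ ρ ≠ 0 := fun h => ((hd.analyticAt ρ).analyticOrderAt_eq_zero.1 h) hz
  rw [Nat.cast_one]
  exact Order.one_le_iff_ne_zero.2 h3

theorem SD.refl (d : SD θ N μ α ε Λ) {ρ : ℂ} (hz : Λ ρ = 0) : Λ (1 - conj ρ) = 0 := by
  have h := d.fe ρ
  rw [hz] at h
  have hN0' : (0:ℝ) < N := by linarith [d.one_le]
  have hN0 : (N : ℂ) ≠ 0 := by exact_mod_cast hN0'.ne'
  have hε : ε ≠ 0 := by
    intro h0
    have := d.norm_eq
    rw [h0, norm_zero] at this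
    norm_num at this
  have h1 : (N : ℂ) ^ (1 / 2 - ρ) ≠ 0 := by
    rw [Complex.cpow_def_of_ne_zero hN0]
    exact Complex.exp_ne_zero _
  have h2 : conj (Λ (1 - conj ρ)) = 0 := by
    rcases mul_eq_zero.1 h.symm with h3 | h3
    · rcases mul_eq_zero.1 h3 with h4 | h4
      · exact absurd h4 hε
      · exact absurd h4 h1
    · exact h3
  simpa using h2

/-- sparse windows: no zeros off the line, multiplicities at most `k` -/
theorem SD.crit (hm : 1 ≤ m) (hθ : 0 ≤ θ) (d : SD θ N μ α ε Λ) {B : ℝ} (hB : m < B) (k : ℕ) (hk : 1 ≤ k)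
    (h : ∀ ε' : ℝ, 0 < ε' → ∃ᶠ x : ℝ in atTop, ∀ y ∈ Icc x (x * Real.log x ^ B),
      ‖SM (muPi α) y‖ ≤ ε' * (Real.sqrt y * Real.log y ^ k)) (ρ : ℂ) (hz : Λ ρ = 0) :
    ρ.re = 1 / 2 ∧ analyticOrderAt Λ ρ ≤ k := by
  have key : ∀ ρ : ℂ, Λ ρ = 0 → ρ.re ≤ 1 / 2 := by
    intro ρ hz
    by_contra hcon
    push Not at hcon
    obtain ⟨c, hc, hev⟩ := d.osc hm hθ hB (ρ := ρ) (by linarith) le_rfl (order_one d.entire hz)
    obtain ⟨Y, hY⟩ := eventually_atTop.mp (H313.TK.log_pow_lt c (ρ.re - 1 / 2) hc (by linarith) k)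
    obtain ⟨x, hx1, hx2, hx3, hx4⟩ := ((h 1 one_pos).and_eventually (hev.and
      ((eventually_ge_atTop Y).and (eventually_ge_atTop 1)))).exists
    obtain ⟨y, hy, hy2⟩ := hx2
    have h5 := hx1 y hy
    have hy0 : 0 < y := by linarith [hy.1]
    have h6 := hY y (hx3.trans hy.1)
    have h7 : Real.sqrt y * y ^ (ρ.re - 1 / 2) = y ^ ρ.re := by
      rw [Real.sqrt_eq_rpow, ← Real.rpow_add hy0]
      congr 1
      ring
    have h8 := Real.sqrt_pos.2 hy0
    have h9 : Real.sqrt y * Real.log y ^ k < c * y ^ ρ.re := by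
      calc Real.sqrt y * Real.log y ^ k < Real.sqrt y * (c * y ^ (ρ.re - 1 / 2)) := mul_lt_mul_of_pos_left h6 h8
        _ = c * (Real.sqrt y * y ^ (ρ.re - 1 / 2)) := by ring
        _ = _ := by rw [h7]
    rw [Nat.sub_self, pow_zero, mul_one] at hy2
    linarith
  have hle := key ρ hz
  have hge := key (1 - conj ρ) (d.refl hz)
  have hre : ρ.re = 1 / 2 := by
    simp at hge
    linarith
  refine ⟨hre, ?_⟩
  by_contra hcon
  push Not at hcon
  have hm' : ((k + 1 : ℕ) : ℕ∞) ≤ analyticOrderAt Λ ρ := by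
    push_cast
    exact Order.add_one_le_of_lt hcon
  obtain ⟨c, hc, hev⟩ := d.osc hm hθ hB (ρ := ρ) (by linarith) (by omega) hm'
  obtain ⟨x, hx1, hx2, hx3⟩ := ((h (c / 2) (by positivity)).and_eventually (hev.and (eventually_gt_atTop (1:ℝ)))).exists
  obtain ⟨y, hy, hy2⟩ := hx2
  have h5 := hx1 y hy
  have hy1 : 1 < y := hx3.trans_le hy.1
  have h6 : 0 < Real.log y := Real.log_pos hy1
  have h7 : 0 < Real.sqrt y := Real.sqrt_pos.mpr (by linarith)
  rw [hre, ← Real.sqrt_eq_rpow, Nat.add_sub_cancel] at hy2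
  have h8 : 0 < c * (Real.sqrt y * Real.log y ^ k) := by positivity
  linarith

/-- sparse windows: power saving -/
theorem SD.crit_pow (hm : 1 ≤ m) (hθ : 0 ≤ θ) (d : SD θ N μ α ε Λ) {B : ℝ} (hB : m < B) {δ : ℝ} (hδ : 1 / 2 ≤ δ)
    (h : ∀ ε' : ℝ, 0 < ε' → ∃ᶠ x : ℝ in atTop, ∀ y ∈ Icc x (x * Real.log x ^ B),
      ‖SM (muPi α) y‖ ≤ y ^ (δ + ε')) (ρ : ℂ) (hz : Λ ρ = 0) : 1 - δ ≤ ρ.re ∧ ρ.re ≤ δ := by
  have key : ∀ ρ : ℂ, Λ ρ = 0 → ρ.re ≤ δ := by
    intro ρ hz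
    by_contra hcon
    push Not at hcon
    obtain ⟨c, hc, hev⟩ := d.osc hm hθ hB (ρ := ρ) (by linarith) le_rfl (order_one d.entire hz)
    set ε' : ℝ := (ρ.re - δ) / 2 with hε'
    have hε0 : 0 < ε' := by rw [hε']; linarith
    obtain ⟨Y, hY⟩ := eventually_atTop.mp (H313.TK.log_pow_lt c ε' hc hε0 0)
    obtain ⟨x, hx1, hx2, hx3, hx4⟩ := ((h ε' hε0).and_eventually (hev.and
      ((eventually_ge_atTop Y).and (eventually_ge_atTop 1)))).exists
    obtain ⟨y, hy, hy2⟩ := hx2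
    have h5 := hx1 y hy
    have hy0 : 0 < y := by linarith [hy.1]
    have h6 := hY y (hx3.trans hy.1)
    rw [pow_zero] at h6
    have h7 : y ^ (δ + ε') * y ^ ε' = y ^ ρ.re := by
      rw [← Real.rpow_add hy0]
      congr 1
      rw [hε']
      ring
    have h8 := Real.rpow_pos_of_pos hy0 (δ + ε')
    rw [Nat.sub_self, pow_zero, mul_one] at hy2
    have h9 : y ^ (δ + ε') < c * y ^ ρ.re := by
      calc y ^ (δ + ε') = y ^ (δ + ε') * 1 := (mul_one _).symm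
        _ < y ^ (δ + ε') * (c * y ^ ε') := mul_lt_mul_of_pos_left h6 h8
        _ = c * (y ^ (δ + ε') * y ^ ε') := by ring
        _ = _ := by rw [h7]
    linarith
  have hle := key ρ hz
  have hge := key (1 - conj ρ) (d.refl hz)
  simp at hge
  exact ⟨by linarith, hle⟩

end

end H313.GK
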