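import Mathlib

/-!
# The Dirichlet series of the Liouville function
-/

open Complex MeasureTheory Filter Topology Set ArithmeticFunction

set_option linter.unusedSectionVars false
set_option linter.unusedVariables false
set_option autoImplicit false

namespace H313.GK

/-- the indicator function of the nonzero squares -/
def sqi : ArithmeticFunction ℤ := ⟨fun n => if n ≠ 0 ∧ IsSquare n then 1 else 0, by simp⟩

theorem sqi_apply (n : ℕ) : sqi n = if n ≠ 0 ∧ IsSquare n then 1 else 0 := rfl

theorem isSquare_mul_coprime {m n : ℕ} (h : m.Coprime n) : IsSquare (m * n) ↔ IsSquare m ∧ IsSquare n := by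
  constructor
  · rintro ⟨r, hr⟩
    have h1 : m * n = r ^ 2 := by rw [hr, pow_two]
    have h2 := exists_eq_pow_of_mul_eq_pow (Nat.isUnit_iff.mpr h) h1
    have h3 := exists_eq_pow_of_mul_eq_pow (Nat.isUnit_iff.mpr h.symm) (by rw [mul_comm]; exact h1)
    obtain ⟨a, ha⟩ := h2
    obtain ⟨b, hb⟩ := h3
    exact ⟨⟨a, by rw [ha, pow_two]⟩, ⟨b, by rw [hb, pow_two]⟩⟩
  · rintro ⟨h1, h2⟩
    exact h1.mul h2

theorem sqi_mult : IsMultiplicative sqi := by
  refine ⟨by simp [sqi_apply], fun {m n} h => ?_⟩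
  rw [sqi_apply, sqi_apply, sqi_apply]
  by_cases hm : m = 0
  · subst hm; simp
  by_cases hn : n = 0
  · subst hn; simp
  have h0 : m * n ≠ 0 := mul_ne_zero hm hn
  have := isSquare_mul_coprime h
  by_cases h1 : IsSquare m <;> by_cases h2 : IsSquare n <;> simp [this, h1, h2, hm, hn]

theorem isSquare_prime_pow (p k : ℕ) (hp : p.Prime) : IsSquare (p ^ k) ↔ Even k := by
  constructor
  · rintro ⟨r, hr⟩
    have h1 : r ∣ p ^ k := ⟨r, hr⟩
    obtain ⟨j, hj, rfl⟩ := (Nat.dvd_prime_pow hp).mp h1
    rw [← pow_add] at hr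
    have := Nat.pow_right_injective hp.two_le hr
    exact ⟨j, this⟩
  · intro h
    exact h.isSquare_pow p

theorem sqi_prime_pow (p k : ℕ) (hp : p.Prime) : sqi (p ^ k) = if Even k then 1 else 0 := by
  rw [sqi_apply]
  have h0 : p ^ k ≠ 0 := pow_ne_zero _ hp.ne_zero
  by_cases h : Even k
  · rw [if_pos ⟨h0, (isSquare_prime_pow p k hp).mpr h⟩, if_pos h]
  · rw [if_neg (fun h1 => h ((isSquare_prime_pow p k hp).mp h1.2)), if_neg h]

theorem liouville_eq : liouville = sqi * moebius := by
  rw [IsMultiplicative.eq_iff_eq_on_prime_powers _ isMultiplicative_liouville _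
    (sqi_mult.mul isMultiplicative_moebius)]
  intro p k hp
  rcases k with _ | k
  · simp [liouville_apply_one, mul_apply, sqi_apply]
  · rw [liouville_apply (pow_ne_zero _ hp.ne_zero), cardFactors_apply_prime_pow hp, mul_comm sqi,
      mul_apply, Nat.sum_divisorsAntidiagonal (f := fun a b => moebius a * sqi b),
      Nat.sum_divisors_prime_pow hp, Finset.sum_range_succ', Finset.sum_range_succ']
    have h1 : ∑ x ∈ Finset.range k, moebius (p ^ (x + 1 + 1)) * sqi (p ^ (k + 1) / p ^ (x + 1 + 1)) = 0 := by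
      refine Finset.sum_eq_zero fun x _ => ?_
      rw [moebius_apply_prime_pow hp (by omega), if_neg (by omega), zero_mul]
    rw [h1, zero_add, zero_add, pow_one, moebius_apply_prime hp, pow_zero, moebius_apply_one, one_mul,
      Nat.div_one, pow_succ p k, Nat.mul_div_cancel _ hp.pos, ← pow_succ, sqi_prime_pow p k hp,
      sqi_prime_pow p (k + 1) hp, pow_succ]
    rcases Nat.even_or_odd k with h | h
    · rw [if_pos h, if_neg (by rw [Nat.even_add_one]; simpa using h), h.neg_one_pow]; norm_num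
    · rw [if_neg (Nat.not_even_iff_odd.mpr h), if_pos (by rw [Nat.even_add_one, Nat.not_even_iff_odd]; exact h),
        h.neg_one_pow]; norm_num

/-- complex valued square indicator -/
theorem sqi_lser {s : ℂ} (hs : 1 < s.re) : LSeriesSummable (fun n => ((sqi n : ℤ) : ℂ)) s ∧
    LSeries (fun n => ((sqi n : ℤ) : ℂ)) s = riemannZeta (2 * s) := by
  have hsum : LSeriesSummable (fun n => ((sqi n : ℤ) : ℂ)) s := by
    refine LSeriesSummable_of_le_const_mul_rpow (x := 1) hs ⟨1, fun n hn => ?_⟩
    rw [sub_self, Real.rpow_zero, sqi_apply]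
    split_ifs <;> simp
  refine ⟨hsum, ?_⟩
  have hinj : Function.Injective (fun d : ℕ => d ^ 2) := Nat.pow_left_injective (by norm_num : 2 ≠ 0)
  have h2s : 1 < (2 * s).re := by simp; linarith
  rw [zeta_eq_tsum_one_div_nat_cpow h2s]
  unfold LSeries
  have hsupp : Function.support (fun n => LSeries.term (fun n => ((sqi n : ℤ) : ℂ)) s n) ⊆ Set.range (fun d : ℕ => d ^ 2) := by
    intro n hn
    by_contra hcon
    apply hn
    rcases Nat.eq_zero_or_pos n with h0 | h0
    · rw [h0]; simp
    simp only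
    rw [LSeries.term_of_ne_zero h0.ne', sqi_apply, if_neg]
    · simp
    · rintro ⟨_, r, hr⟩
      exact hcon ⟨r, by simp only; rw [hr, pow_two]⟩
  rw [← hinj.tsum_eq hsupp]
  refine tsum_congr fun d => ?_
  rcases Nat.eq_zero_or_pos d with h0 | h0
  · rw [h0]
    have : (2 * s) ≠ 0 := by
      rintro h
      rw [h] at h2s
      simp at h2s
      linarith
    simp [this]
  · have hd : d ^ 2 ≠ 0 := by positivity
    rw [LSeries.term_of_ne_zero hd, sqi_apply, if_pos ⟨hd, d, by ring⟩]
    have hdc : (d : ℂ) ≠ 0 := by exact_mod_cast h0.ne'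
    have e : ((d ^ 2 : ℕ) : ℂ) ^ s = (d : ℂ) ^ (2 * s) := by
      rw [two_mul, Complex.cpow_add _ _ hdc, ← Complex.natCast_mul_natCast_cpow]
      congr 1
      push_cast
      ring
    rw [e]
    simp

theorem coe_fun (f : ArithmeticFunction ℤ) : ⇑(f : ArithmeticFunction ℂ) = fun n => ((f n : ℤ) : ℂ) := by
  funext n
  rw [intCoe_apply]

theorem liouville_lser {s : ℂ} (hs : 1 < s.re) : LSeries (fun n => ((liouville n : ℤ) : ℂ)) s * riemannZeta s =
    riemannZeta (2 * s) := by
  obtain ⟨h1, h2⟩ := sqi_lser hs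
  have h3 : LSeriesSummable (fun n => ((moebius n : ℤ) : ℂ)) s := LSeriesSummable_moebius_iff.2 hs
  have h4 := LSeries_zeta_mul_Lseries_moebius hs
  rw [LSeries_zeta_eq_riemannZeta hs, mul_comm] at h4
  rw [← coe_fun] at h1 h2 h3
  have e1 : (fun n => ((liouville n : ℤ) : ℂ)) = ⇑((sqi : ArithmeticFunction ℂ) * (moebius : ArithmeticFunction ℂ)) := by
    rw [← intCoe_mul, ← liouville_eq, coe_fun]
  have h5 : LSeries (⇑(moebius : ArithmeticFunction ℂ)) s * riemannZeta s = 1 := by
    rw [coe_fun]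
    exact h4
  rw [e1, LSeries_mul' h1 h3, h2, mul_assoc, h5, mul_one]

end H313.GK
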