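import Pool.Agent.H313R3.TK.K
import Pool.Agent.H313R3.GK.T
import Pool.Agent.H313R3.GK.F
import Pool.Agent.H353R2.Z1

/-!
# The kernel of the Riemann zeta function in the general framework
-/

open Complex MeasureTheory Filter Topology Set
open scoped FourierTransform

set_option linter.unusedSectionVars false
set_option linter.unusedVariables false
set_option autoImplicit false

namespace H313.GK

open H313.TK ZU.J_g2b

noncomputable section

theorem qh_bd (p q : ℝ) (hp : 0 < p) (hq : 0 ≤ q) (k : ℕ) (hk : 1 ≤ k) : ∃ D : ℝ, 0 ≤ D ∧ ∀ s : ℂ, p ≤ s.re → s.re ≤ q →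
    ‖qh s‖ * (1 + |s.im|) ^ k ≤ D := by
  have hpi := Real.pi_pos
  set Y : ℝ := q / 2 + 1 + k with hY
  have hY1 : 1 ≤ Y := by
    have : (0:ℝ) ≤ k := by positivity
    rw [hY]; linarith
  set E : ℝ := (Real.pi / 4) ^ (-(q / 2)) + 5 with hE
  have hE0 : 0 ≤ E := by positivity
  refine ⟨E * (2 ^ k * (3 ^ k * Y ^ Y)) / p, by positivity, fun s h1 h2 => ?_⟩
  have hs0 : 0 < s.re := by linarith
  have hsne : s / 2 ≠ 0 := by
    intro h0
    have := congrArg Complex.re h0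
    simp at this
    linarith
  have him := abs_nonneg s.im
  rw [qh_formula s hs0]
  have hG := gam (s / 2 + 1) (by simp; linarith) k hk
  rw [Complex.Gamma_add_one _ hsne, norm_mul] at hG
  have e1 : (s / 2 + 1).re = s.re / 2 + 1 := by simp
  have e2 : (s / 2 + 1).im = s.im / 2 := by simp
  rw [e1, e2, abs_div, abs_two] at hG
  have hYb : (s.re / 2 + 1 + (k:ℝ)) ^ (s.re / 2 + 1 + (k:ℝ)) ≤ Y ^ Y := by
    have h3 : s.re / 2 + 1 + (k:ℝ) ≤ Y := by rw [hY]; linarith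
    have hk0 : (0:ℝ) ≤ k := by positivity
    calc (s.re / 2 + 1 + (k:ℝ)) ^ (s.re / 2 + 1 + (k:ℝ)) ≤ Y ^ (s.re / 2 + 1 + (k:ℝ)) :=
          Real.rpow_le_rpow (by linarith) h3 (by linarith)
      _ ≤ _ := Real.rpow_le_rpow_of_exponent_le hY1 h3
  have hns : p / 2 ≤ ‖s / 2‖ := by
    have := Complex.re_le_norm s
    rw [norm_div]
    simp
    linarith
  have hpw : (1 + |s.im|) ^ k ≤ 2 ^ k * (1 + |s.im| / 2) ^ k := by
    rw [← mul_pow]
    exact pow_le_pow_left₀ (by linarith) (by linarith) _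
  have hΓ : p / 2 * (‖Complex.Gamma (s / 2)‖ * (1 + |s.im|) ^ k) ≤ 2 ^ k * (3 ^ k * Y ^ Y) := by
    calc p / 2 * (‖Complex.Gamma (s / 2)‖ * (1 + |s.im|) ^ k) ≤
          ‖s / 2‖ * (‖Complex.Gamma (s / 2)‖ * (2 ^ k * (1 + |s.im| / 2) ^ k)) :=
          mul_le_mul hns (mul_le_mul_of_nonneg_left hpw (norm_nonneg _)) (by positivity) (norm_nonneg _)
      _ = 2 ^ k * (‖s / 2‖ * ‖Complex.Gamma (s / 2)‖ * (1 + |s.im| / 2) ^ k) := by ring
      _ ≤ 2 ^ k * (3 ^ k * Y ^ Y) := by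
          refine mul_le_mul_of_nonneg_left (hG.trans ?_) (by positivity)
          exact mul_le_mul_of_nonneg_left hYb (by positivity)
  have hbr : ‖(((Real.pi / 4 : ℝ) : ℂ) ^ (-(s / 2)) - 3 * ((Real.pi : ℝ) : ℂ) ^ (-(s / 2)) +
      2 * ((4 * Real.pi : ℝ) : ℂ) ^ (-(s / 2)))‖ ≤ E := by
    have n1 : ‖((Real.pi / 4 : ℝ) : ℂ) ^ (-(s / 2))‖ ≤ (Real.pi / 4) ^ (-(q / 2)) := by
      rw [Complex.norm_cpow_eq_rpow_re_of_pos (by positivity)]
      refine Real.rpow_le_rpow_of_exponent_ge (by positivity) (by linarith [Real.pi_le_four]) ?_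
      simp
      linarith
    have n2 : ‖((Real.pi : ℝ) : ℂ) ^ (-(s / 2))‖ ≤ 1 := by
      rw [Complex.norm_cpow_eq_rpow_re_of_pos hpi]
      refine Real.rpow_le_one_of_one_le_of_nonpos (by linarith [Real.pi_gt_three]) ?_
      simp
      linarith
    have n3 : ‖((4 * Real.pi : ℝ) : ℂ) ^ (-(s / 2))‖ ≤ 1 := by
      rw [Complex.norm_cpow_eq_rpow_re_of_pos (by positivity)]
      refine Real.rpow_le_one_of_one_le_of_nonpos (by linarith [Real.pi_gt_three]) ?_
      simp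
      linarith
    calc _ ≤ ‖((Real.pi / 4 : ℝ) : ℂ) ^ (-(s / 2))‖ + ‖3 * ((Real.pi : ℝ) : ℂ) ^ (-(s / 2))‖ +
          ‖2 * ((4 * Real.pi : ℝ) : ℂ) ^ (-(s / 2))‖ := (norm_add_le _ _).trans (add_le_add (norm_sub_le _ _) le_rfl)
      _ ≤ E := by
          rw [norm_mul, norm_mul]
          simp only [Complex.norm_ofNat]
          rw [hE]
          linarith
  rw [norm_mul, norm_mul, le_div_iff₀ hp]
  have h12 : ‖(1 / 2 : ℂ)‖ = 1 / 2 := by simp
  rw [h12]
  calc 1 / 2 * ‖Complex.Gamma (s / 2)‖ * ‖_‖ * (1 + |s.im|) ^ k * p =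
        ‖(((Real.pi / 4 : ℝ) : ℂ) ^ (-(s / 2)) - 3 * ((Real.pi : ℝ) : ℂ) ^ (-(s / 2)) +
      2 * ((4 * Real.pi : ℝ) : ℂ) ^ (-(s / 2)))‖ * (p / 2 * (‖Complex.Gamma (s / 2)‖ * (1 + |s.im|) ^ k)) := by ring
    _ ≤ E * (2 ^ k * (3 ^ k * Y ^ Y)) := mul_le_mul hbr hΓ (by positivity) hE0

/-- polynomial growth against the decay of `qh` -/
theorem FF_qh_bd (a p q : ℝ) (ha : 0 < a) (hp : 0 < p) (hq : 0 ≤ q) : ∃ D : ℝ, 0 ≤ D ∧ ∀ s : ℂ, p ≤ s.re → s.re ≤ q →
    ‖FF (a * s)‖ * ‖qh s‖ ≤ D * (1 + s.im ^ 2)⁻¹ := by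
  obtain ⟨D, hD, hb⟩ := qh_bd p q hp hq 4 (by norm_num)
  have hap : 0 < a * p := by positivity
  refine ⟨(1 + 1 / (a * p)) * (1 + a * (q + 1)) ^ 2 * D, by positivity, fun s h1 h2 => ?_⟩
  have hs0 : 0 < s.re := by linarith
  have him := abs_nonneg s.im
  have h3 := H353.FF_bound (a * p) hap (a * s) (by simp; exact mul_le_mul_of_nonneg_left h1 ha.le)
  have h4 : ‖(a : ℂ) * s‖ ≤ a * (q + |s.im|) := by
    rw [norm_mul, Complex.norm_real, Real.norm_eq_abs, abs_of_pos ha]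
    refine mul_le_mul_of_nonneg_left ?_ ha.le
    refine (Complex.norm_le_abs_re_add_abs_im s).trans ?_
    rw [abs_of_pos hs0]
    linarith
  have h5 : 1 + ‖(a : ℂ) * s‖ ≤ (1 + a * (q + 1)) * (1 + |s.im|) := by
    have : 0 ≤ a * q * |s.im| := by positivity
    nlinarith
  have h6 : (1 + ‖(a : ℂ) * s‖) ^ 2 ≤ (1 + a * (q + 1)) ^ 2 * (1 + |s.im|) ^ 2 := by
    rw [← mul_pow]
    exact pow_le_pow_left₀ (by positivity) h5 2
  rw [← div_eq_mul_inv, le_div_iff₀ (by positivity)]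
  calc ‖FF (a * s)‖ * ‖qh s‖ * (1 + s.im ^ 2) ≤
        ((1 + 1 / (a * p)) * ((1 + a * (q + 1)) ^ 2 * (1 + |s.im|) ^ 2)) * ‖qh s‖ * (1 + |s.im|) ^ 2 := by
        refine mul_le_mul (mul_le_mul_of_nonneg_right (h3.trans ?_) (norm_nonneg _)) (sq_le_two s.im) (by positivity) (by positivity)
        exact mul_le_mul_of_nonneg_left h6 (by positivity)
    _ = (1 + 1 / (a * p)) * (1 + a * (q + 1)) ^ 2 * (‖qh s‖ * (1 + |s.im|) ^ 4) := by ring
    _ ≤ _ := mul_le_mul_of_nonneg_left (hb s h1 h2) (by positivity)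

theorem Kh_diff {s : ℂ} (hs : |s.re| < 3) : DifferentiableAt ℂ Kh s := Tr_diff kc_DK s hs

theorem Kh_lb {c : ℝ} (hc1 : 1 < c) (hc2 : c < 2) : ∃ B : ℝ, LB Kh c B := by
  obtain ⟨D, hD, hb⟩ := FF_qh_bd 1 c c one_pos (by linarith) (by linarith)
  refine ⟨D / (c - 1), div_nonneg hD (by linarith), ?_, fun τ => ?_⟩
  · rw [continuous_iff_continuousAt]
    intro τ
    refine ContinuousAt.comp (f := vl c) (g := Kh) ?_ (vl_cont c).continuousAt
    exact (Kh_diff (by rw [vl_re, abs_of_pos (by linarith)]; linarith)).continuousAt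
  · have h1 := Kh_FF (vl c τ) (by simp; linarith) (by simp; linarith)
    have h2 := hb (vl c τ) (by simp) (by simp)
    rw [Complex.ofReal_one, one_mul, ← norm_mul, ← h1, norm_mul, vl_im] at h2
    have h3 : c - 1 ≤ ‖vl c τ - 1‖ := by
      have := Complex.re_le_norm (vl c τ - 1)
      simpa using this
    have h4 : 0 < c - 1 := by linarith
    rw [div_mul_eq_mul_div, le_div_iff₀ h4, mul_comm]
    exact (mul_le_mul_of_nonneg_right h3 (norm_nonneg _)).trans h2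

theorem Kh_inv {c : ℝ} (hc1 : 1 < c) (hc2 : c < 2) (v : ℝ) : Inv Kh c v = (kp v : ℂ) := by
  obtain ⟨B, hLB⟩ := Kh_lb hc1 hc2
  have hp := Real.pi_pos
  have h2p : (0:ℝ) < 2 * Real.pi := by positivity
  set g : ℝ → ℂ := fun v => cexp (-(c : ℂ) * v) * (kp v : ℂ) with hg
  have hgc : Continuous g := by
    have := kc_DK.cont
    have h2 : Continuous (fun v : ℝ => (kp v : ℂ)) := this
    exact (by fun_prop : Continuous fun v : ℝ => cexp (-(c : ℂ) * v)).mul h2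
  have hgi : Integrable g := tw_int kc_DK (c : ℂ) (by simp; rw [abs_of_pos (by linarith)]; linarith)
  have hF : ∀ w : ℝ, 𝓕 g w = Kh (vl c (2 * Real.pi * w)) := by
    intro w
    rw [Real.fourier_real_eq_integral_exp_smul]
    unfold Kh
    refine integral_congr_ae (ae_of_all _ fun x => ?_)
    simp only [hg, smul_eq_mul]
    rw [← mul_assoc, ← Complex.exp_add]
    congr 2
    unfold vl
    push_cast
    ring
  have hFi : Integrable (𝓕 g) := by
    have h1 := hLB.int.comp_mul_left' h2p.ne'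
    refine h1.congr (ae_of_all _ fun w => ?_)
    simp only
    rw [hF w]
  have h1 := congrFun (hgc.fourierInv_fourier_eq hgi hFi) v
  rw [Real.fourierInv_eq'] at h1
  have h2 : ∫ w : ℝ, cexp (((2 * Real.pi * (w * v) : ℝ) : ℂ) * I) * Kh (vl c (2 * Real.pi * w)) = g v := by
    rw [← h1]
    refine integral_congr_ae (ae_of_all _ fun w => ?_)
    simp only [smul_eq_mul]
    rw [hF w]
    congr 3
    simp [mul_comm]
  have h3 : ∫ w : ℝ, cexp (((2 * Real.pi * (w * v) : ℝ) : ℂ) * I) * Kh (vl c (2 * Real.pi * w)) =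
      |(2 * Real.pi)⁻¹| • ∫ τ : ℝ, cexp (((τ * v : ℝ) : ℂ) * I) * Kh (vl c τ) := by
    rw [← Measure.integral_comp_mul_left (fun τ : ℝ => cexp (((τ * v : ℝ) : ℂ) * I) * Kh (vl c τ)) (2 * Real.pi)]
    refine integral_congr_ae (ae_of_all _ fun w => ?_)
    simp only
    rw [mul_assoc (2 * Real.pi) w v]
  rw [h3, abs_of_pos (by positivity)] at h2
  have h4 : Inv Kh c v = cexp ((c : ℂ) * v) * ((2 * Real.pi)⁻¹ • ∫ τ : ℝ, cexp (((τ * v : ℝ) : ℂ) * I) * Kh (vl c τ)) := by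
    unfold Inv
    rw [Complex.real_smul, mul_left_comm, one_div]
    congr 1
    rw [← integral_const_mul]
    refine integral_congr_ae (ae_of_all _ fun τ => ?_)
    simp only
    rw [← mul_assoc, ← Complex.exp_add, mul_comm]
    congr 2
    unfold vl
    push_cast
    ring
  rw [h4, h2, hg]
  simp only
  rw [← mul_assoc, ← Complex.exp_add]
  simp

theorem W_decay2 (v : ℝ) : W v ≤ 1 * Real.exp (-(Real.pi / 8 * Real.exp (2 * |v|))) := by
  have hp := Real.pi_gt_three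
  have hv := abs_nonneg v
  unfold W
  rw [one_mul]
  refine Real.exp_le_exp.2 ?_
  have h1 := Real.quadratic_le_exp_of_nonneg (show 0 ≤ 2 * |v| by positivity)
  have h2 : max v 0 ≤ |v| := max_le (le_abs_self _) hv
  have h3 : |v| ≤ Real.pi / 8 * Real.exp (2 * |v|) := by
    have h4 : |v| ≤ 3 / 8 * (1 + 2 * |v| + (2 * |v|) ^ 2 / 2) := by nlinarith [sq_nonneg (3 * |v| - 1)]
    nlinarith [Real.exp_pos (2 * |v|)]
  have e : Real.pi / 4 * Real.exp (2 * |v|) = Real.pi / 8 * Real.exp (2 * |v|) + Real.pi / 8 * Real.exp (2 * |v|) := by ring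
  linarith

end

end H313.GK
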