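import Pool.Agent.H313R3.GK.U

/-!
# One-sided local oscillation for Hecke data with a positive kernel
-/

open Complex MeasureTheory Filter Topology Set
open scoped ComplexConjugate

set_option linter.unusedSectionVars false
set_option linter.unusedVariables false
set_option autoImplicit false

namespace H313.GK

noncomputable section

variable {k h : ℝ} {ε : ℝ} {a : ℕ → ℂ} {φ : ℝ → ℂ}

/-- real summatory function -/
def RM (b : ℕ → ℝ) (y : ℝ) : ℝ := ∑ n ∈ Finset.Icc 1 ⌊y⌋₊, b n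

theorem RM_SM (b : ℕ → ℝ) (y : ℝ) : ((RM b y : ℝ) : ℂ) = SM (fun n => (b n : ℂ)) y := by
  unfold RM SM
  push_cast
  rfl

theorem RM_meas (b : ℕ → ℝ) : Measurable (RM b) := by
  have h : RM b = (fun n : ℕ => ∑ k ∈ Finset.Icc 1 n, b k) ∘ Nat.floor := rfl
  rw [h]
  exact measurable_from_nat.comp Nat.measurable_floor

theorem window_signs {B β : ℝ} (hB0 : 0 < B) (n : ℕ) {S : ℝ → ℝ}
    (h : ∃ c : ℝ, 0 < c ∧ ∀ e : ℝ, e = 1 ∨ e = -1 → ∀ᶠ l : ℝ in atTop, ∃ u ∈ Icc l (l + B * Real.log l),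
      c * (l ^ n * Real.exp (β * u)) ≤ e * S (Real.exp u)) :
    ∃ c : ℝ, 0 < c ∧ ∀ᶠ x : ℝ in atTop, ∀ e : ℝ, e = 1 ∨ e = -1 → ∃ y ∈ Icc x (x * Real.log x ^ B),
      c * (y ^ β * Real.log y ^ n) ≤ e * S y := by
  obtain ⟨c, hc, hev⟩ := h
  have key : ∀ e : ℝ, e = 1 ∨ e = -1 → ∃ c : ℝ, 0 < c ∧ ∀ᶠ x : ℝ in atTop, ∃ y ∈ Icc x (x * Real.log x ^ B),
      c * (y ^ β * Real.log y ^ n) ≤ e * S y := by
    intro e he
    obtain ⟨c', hc', h1⟩ := window_x (S := fun y => ((max (e * S y) 0 : ℝ) : ℂ)) (β := β) hB0 n ⟨c, hc, by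
      filter_upwards [hev e he] with l hl
      obtain ⟨u, hu, h2⟩ := hl
      refine ⟨u, hu, ?_⟩
      rw [Complex.norm_real, Real.norm_eq_abs, abs_of_nonneg (le_max_right _ _)]
      exact h2.trans (le_max_left _ _)⟩
    refine ⟨c', hc', ?_⟩
    filter_upwards [h1, eventually_gt_atTop (1:ℝ)] with x hx hx1
    obtain ⟨y, hy, h2⟩ := hx
    refine ⟨y, hy, ?_⟩
    have hy1 : 1 < y := hx1.trans_le hy.1
    have h3 : 0 < c' * (y ^ β * Real.log y ^ n) := by
      have h4 : 0 < y ^ β := Real.rpow_pos_of_pos (by linarith) _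
      have h5 : 0 < Real.log y := Real.log_pos hy1
      positivity
    rw [Complex.norm_real, Real.norm_eq_abs, abs_of_nonneg (le_max_right _ _)] at h2
    rcases le_total (e * S y) 0 with h6 | h6
    · rw [max_eq_right h6] at h2
      linarith
    · rwa [max_eq_left h6] at h2
  obtain ⟨a1, ha1, h1⟩ := key 1 (Or.inl rfl)
  obtain ⟨a2, ha2, h2⟩ := key (-1) (Or.inr rfl)
  refine ⟨min a1 a2, lt_min ha1 ha2, ?_⟩
  filter_upwards [h1, h2, eventually_gt_atTop (1:ℝ)] with x h3 h4 hx1 e he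
  have hp : ∀ y : ℝ, x ≤ y → 0 ≤ y ^ β * Real.log y ^ n := by
    intro y hy
    have h4 : 0 < y ^ β := Real.rpow_pos_of_pos (by linarith) _
    have h5 : 0 < Real.log y := Real.log_pos (by linarith)
    positivity
  rcases he with he | he <;> rw [he]
  · obtain ⟨y, hy, h5⟩ := h3
    exact ⟨y, hy, (mul_le_mul_of_nonneg_right (min_le_left _ _) (hp y hy.1)).trans h5⟩
  · obtain ⟨y, hy, h5⟩ := h4
    exact ⟨y, hy, (mul_le_mul_of_nonneg_right (min_le_right _ _) (hp y hy.1)).trans h5⟩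

/-- **Every zero is visible in every window, with both signs.** -/
theorem HD.signs (d : HD k h ε a φ) (hpos : ∀ y, 0 < y → 0 < (φ y).re) {b : ℕ → ℝ} (hab : DInv a (fun n => (b n : ℂ)))
    {B : ℝ} (hB : 2 < B) {ρ : ℂ} (hρ : 0 < ρ.re)
    {r : ℕ} (hr1 : 1 ≤ r) (hr : (r : ℕ∞) ≤ analyticOrderAt (mellin φ) ρ) :
    ∃ c : ℝ, 0 < c ∧ ∀ᶠ x : ℝ in atTop, ∀ e : ℝ, e = 1 ∨ e = -1 → ∃ y ∈ Icc x (x * Real.log x ^ B),
      c * (y ^ ρ.re * Real.log y ^ (r - 1)) ≤ e * RM b y := by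
  obtain ⟨C, κ, hC, hb⟩ := d.bound
  obtain ⟨K, hK⟩ := pow_unbounded_of_one_lt C (one_lt_two)
  have hg := hab.growth d.one hb hK.le
  set A : ℕ := κ + (K + 2) with hA
  have hh := d.hpos
  have hpi := Real.pi_pos
  have hB0 : 0 < B := by linarith
  refine window_signs hB0 (r - 1) ?_
  have ha0 : (0:ℝ) ≤ A := by positivity
  have hf : ∀ n : ℕ, n ≠ 0 → ‖(b n : ℂ)‖ ≤ (n : ℝ) ^ (A : ℝ) := fun n hn => by
    rw [Real.rpow_natCast]
    exact hg n hn
  set c : ℝ := max (A + 2) (ρ.re + 1) with hc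
  have hc1 : (A:ℝ) + 2 ≤ c := le_max_left _ _
  have hc2 : ρ.re + 1 ≤ c := le_max_right _ _
  have hκA : (κ:ℝ) ≤ A := by
    rw [hA]
    exact_mod_cast Nat.le_add_right _ _
  set H : ℝ := h / (2 * Real.pi) with hH
  have hH0 : 0 < H := by positivity
  have hHc : (H : ℂ) ≠ 0 := by exact_mod_cast hH0.ne'
  set g : ℂ → ℂ := fun s => (H : ℂ) ^ s * Complex.Gamma (s + 1) / s ^ 2 with hg'
  obtain ⟨Cg, hCg⟩ : ∃ Cg : ℝ, ∀ s : ℂ, ρ.re / 2 ≤ s.re → s.re ≤ c → ‖g s‖ ≤ Cg * (1 + s.im ^ 2)⁻¹ := by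
    set G : ℝ := |Real.log H| with hG
    set Y : ℝ := c + 3 with hY
    refine ⟨Real.exp (G * c) * (3 ^ 2 * Y ^ Y) / (ρ.re / 2) ^ 2, fun s h1 h2 => ?_⟩
    have hs0 : 0 < s.re := by linarith
    have hY0 : 0 < Y := by linarith
    have him := abs_nonneg s.im
    have h3 : ‖(H : ℂ) ^ s‖ ≤ Real.exp (G * c) := by
      rw [Complex.norm_cpow_eq_rpow_re_of_pos hH0, Real.rpow_def_of_pos hH0]
      refine Real.exp_le_exp.2 ?_
      calc Real.log H * s.re ≤ G * s.re := mul_le_mul_of_nonneg_right (le_abs_self _) hs0.le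
        _ ≤ G * c := mul_le_mul_of_nonneg_left h2 (abs_nonneg _)
    have h4 := gam (s + 1) (by simp; linarith) 2 (by norm_num)
    have e1 : (s + 1).re = s.re + 1 := by simp
    have e2 : (s + 1).im = s.im := by simp
    rw [e1, e2] at h4
    have h5 : (s.re + 1 + (2:ℕ)) ^ (s.re + 1 + (2:ℕ)) ≤ Y ^ Y := by
      have h6 : s.re + 1 + ((2:ℕ):ℝ) ≤ Y := by
        rw [hY]
        norm_num
        linarith
      have h7 : 1 ≤ s.re + 1 + ((2:ℕ):ℝ) := by
        norm_num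
        linarith
      calc (s.re + 1 + (2:ℕ)) ^ (s.re + 1 + (2:ℕ)) ≤ Y ^ (s.re + 1 + (2:ℕ)) :=
            Real.rpow_le_rpow (by linarith) h6 (by linarith)
        _ ≤ _ := Real.rpow_le_rpow_of_exponent_le (by linarith) h6
    have hns : ρ.re / 2 ≤ ‖s‖ := h1.trans (Complex.re_le_norm s)
    rw [← div_eq_mul_inv, le_div_iff₀ (by positivity)]
    simp only [hg']
    rw [norm_div, norm_mul, norm_pow, div_mul_eq_mul_div]
    refine div_le_div₀ (by positivity) ?_ (by positivity) (pow_le_pow_left₀ (by positivity) hns 2)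
    rw [mul_assoc]
    refine mul_le_mul h3 ?_ (by positivity) (by positivity)
    refine (mul_le_mul_of_nonneg_left (sq_le_two s.im) (norm_nonneg _)).trans (h4.trans ?_)
    exact mul_le_mul_of_nonneg_left h5 (by positivity)
  have hGd : ∀ s : ℂ, 0 < s.re → DifferentiableAt ℂ Complex.Gamma (s + 1) := fun s hs =>
    Complex.differentiableAt_Gamma _ fun m hm => by
      have := congrArg Complex.re hm
      simp at this
      have : (0:ℝ) ≤ m := by positivity
      linarith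
  refine main_pos (F := fun u => RM b (Real.exp u)) (σ := ρ.re / 2) (c := c) (c₁ := A + 1) (Cg := Cg) (g := g)
    one_pos hB0 (by rw [one_mul]; exact hB) (d.pk hpos) hr1 hr hρ.le (by linarith) (by linarith) (by linarith)
    ((RM_meas _).comp Real.measurable_exp) (fun u hu => ?_) ⟨1, zero_le_one, fun u => ?_⟩ (fun τ => ?_) (fun s h1 h2 => ?_)
    hCg ?_
  · have h4 : ⌊Real.exp u⌋₊ = 0 := Nat.floor_eq_zero.2 (by rw [← Real.exp_zero]; exact Real.exp_lt_exp.2 hu)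
    simp only [RM]
    rw [h4]
    simp
  · have h1 := SM_bd ha0 hf u
    rw [← RM_SM, Complex.norm_real, Real.norm_eq_abs] at h1
    exact h1
  · set s : ℂ := vl c τ with hs
    have hsre : s.re = c := by rw [hs]; simp
    have hs0 : 0 < s.re := by rw [hsre]; linarith
    have h1 := trans_F ha0 hf (s := s) (by rw [hsre]; linarith)
    have h2 : ∫ u : ℝ, ((RM b (Real.exp u) : ℝ) : ℂ) * cexp (-s * u) = LSeries (fun n => (b n : ℂ)) s / s := by
      simp only [RM_SM]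
      exact h1
    have hsa : LSeriesSummable a s := by
      refine LSeriesSummable_of_le_const_mul_rpow (x := κ + 1) (by rw [hsre]; linarith) ⟨C, fun n hn => ?_⟩
      rw [add_sub_cancel_right, Real.rpow_natCast]
      exact hb n
    have hsb : LSeriesSummable (fun n => (b n : ℂ)) s := by
      refine LSeriesSummable_of_le_const_mul_rpow (x := A + 1) (by rw [hsre]; linarith) ⟨1, fun n hn => ?_⟩
      rw [add_sub_cancel_right, one_mul]
      exact hf n hn
    have h3 := hab.lser hsa hsb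
    have hsne : s ≠ 0 := by
      rintro h0
      rw [h0] at hs0
      simp at hs0
    rw [h2, d.dir hb (by rw [hsre]; linarith)]
    simp only [hg']
    rw [Complex.Gamma_add_one s hsne]
    have e : (H : ℂ) ^ s * Complex.Gamma s * LSeries a s * (LSeries (fun n => (b n : ℂ)) s / s) =
        (H : ℂ) ^ s * Complex.Gamma s * (LSeries a s * LSeries (fun n => (b n : ℂ)) s) / s := by ring
    rw [e, h3]
    field_simp
  · have hs0 : 0 < s.re := by linarith
    have hsne : s ≠ 0 := by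
      rintro rfl
      simp at hs0
    simp only [hg']
    refine DifferentiableAt.div (DifferentiableAt.mul ?_ ?_) (by fun_prop) (pow_ne_zero _ hsne)
    · exact (differentiableAt_id).const_cpow (Or.inl hHc)
    · exact DifferentiableAt.comp (g := Complex.Gamma) (f := fun z : ℂ => z + 1) s (hGd s hs0) (by fun_prop)
  · have hρne : ρ ≠ 0 := by
      rintro rfl
      simp at hρ
    simp only [hg']
    refine div_ne_zero (mul_ne_zero ?_ ?_) (pow_ne_zero _ hρne)
    · rw [Complex.cpow_def_of_ne_zero hHc]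
      exact Complex.exp_ne_zero _
    · exact Complex.Gamma_ne_zero_of_re_pos (by simp; linarith)

/-- there is a zero in the closed half plane `Re s ≥ k / 2` -/
theorem HD.exists_zero (d : HD k h ε a φ) : ∃ ρ : ℂ, k / 2 ≤ ρ.re ∧ mellin φ ρ = 0 := by
  obtain ⟨ρ, hρ⟩ := d.kp.exists_zero one_pos
  rcases le_total (k / 2) ρ.re with h | h
  · exact ⟨ρ, h, hρ⟩
  · refine ⟨k - ρ, ?_, d.refl hρ⟩
    simp
    linarith

/-- **Unconditional oscillation in every window.** -/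
theorem HD.signs0 (d : HD k h ε a φ) (hpos : ∀ y, 0 < y → 0 < (φ y).re) {b : ℕ → ℝ} (hab : DInv a (fun n => (b n : ℂ)))
    {B : ℝ} (hB : 2 < B) :
    ∃ c : ℝ, 0 < c ∧ ∀ᶠ x : ℝ in atTop, ∀ e : ℝ, e = 1 ∨ e = -1 → ∃ y ∈ Icc x (x * Real.log x ^ B),
      c * y ^ (k / 2) ≤ e * RM b y := by
  obtain ⟨ρ, hρ, hz⟩ := d.exists_zero
  have hk := d.kpos
  obtain ⟨c, hc, hev⟩ := d.signs hpos hab hB (ρ := ρ) (by linarith) le_rfl (order_one d.diff hz)
  refine ⟨c, hc, ?_⟩
  filter_upwards [hev, eventually_ge_atTop (1:ℝ)] with x hx hx1 e he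
  obtain ⟨y, hy, h2⟩ := hx e he
  refine ⟨y, hy, le_trans ?_ h2⟩
  rw [Nat.sub_self, pow_zero, mul_one]
  exact mul_le_mul_of_nonneg_left (Real.rpow_le_rpow_of_exponent_le (hx1.trans hy.1) hρ) hc.le

/-- one-sided criterion -/
theorem HD.crit1 (d : HD k h ε a φ) (hpos : ∀ y, 0 < y → 0 < (φ y).re) {b : ℕ → ℝ} (hab : DInv a (fun n => (b n : ℂ)))
    {B : ℝ} (hB : 2 < B) (j : ℕ) (hj : 1 ≤ j) {e : ℝ} (he : e = 1 ∨ e = -1)
    (H : ∀ ε' : ℝ, 0 < ε' → ∃ᶠ x : ℝ in atTop, ∀ y ∈ Icc x (x * Real.log x ^ B),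
      e * RM b y ≤ ε' * (y ^ (k / 2) * Real.log y ^ j)) (ρ : ℂ) (hz : mellin φ ρ = 0) :
    ρ.re = k / 2 ∧ analyticOrderAt (mellin φ) ρ ≤ j := by
  have hk := d.kpos
  have key : ∀ ρ : ℂ, mellin φ ρ = 0 → ρ.re ≤ k / 2 := by
    intro ρ hz
    by_contra hcon
    push Not at hcon
    obtain ⟨c, hc, hev⟩ := d.signs hpos hab hB (ρ := ρ) (by linarith) le_rfl (order_one d.diff hz)
    obtain ⟨Y, hY⟩ := eventually_atTop.mp (H313.TK.log_pow_lt c (ρ.re - k / 2) hc (by linarith) j)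
    obtain ⟨x, hx1, hx2, hx3, hx4⟩ := ((H 1 one_pos).and_eventually (hev.and
      ((eventually_ge_atTop Y).and (eventually_ge_atTop 1)))).exists
    obtain ⟨y, hy, hy2⟩ := hx2 e he
    have h5 := hx1 y hy
    have hy0 : 0 < y := by linarith [hy.1]
    have h6 := hY y (hx3.trans hy.1)
    have h7 : y ^ (k / 2) * y ^ (ρ.re - k / 2) = y ^ ρ.re := by
      rw [← Real.rpow_add hy0]
      congr 1
      ring
    have h8 := Real.rpow_pos_of_pos hy0 (k / 2)
    have h9 : y ^ (k / 2) * Real.log y ^ j < c * y ^ ρ.re := by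
      calc y ^ (k / 2) * Real.log y ^ j < y ^ (k / 2) * (c * y ^ (ρ.re - k / 2)) := mul_lt_mul_of_pos_left h6 h8
        _ = c * (y ^ (k / 2) * y ^ (ρ.re - k / 2)) := by ring
        _ = _ := by rw [h7]
    rw [Nat.sub_self, pow_zero, mul_one] at hy2
    linarith
  have hle := key ρ hz
  have hge := key (k - ρ) (d.refl hz)
  have hre : ρ.re = k / 2 := by
    simp at hge
    linarith
  refine ⟨hre, ?_⟩
  by_contra hcon
  push Not at hcon
  have hm' : ((j + 1 : ℕ) : ℕ∞) ≤ analyticOrderAt (mellin φ) ρ := by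
    push_cast
    exact Order.add_one_le_of_lt hcon
  obtain ⟨c, hc, hev⟩ := d.signs hpos hab hB (ρ := ρ) (by linarith) (by omega) hm'
  obtain ⟨x, hx1, hx2, hx3⟩ := ((H (c / 2) (by positivity)).and_eventually (hev.and (eventually_gt_atTop (1:ℝ)))).exists
  obtain ⟨y, hy, hy2⟩ := hx2 e he
  have h5 := hx1 y hy
  have hy1 : 1 < y := hx3.trans_le hy.1
  have h6 : 0 < Real.log y := Real.log_pos hy1
  have h7 : 0 < y ^ (k / 2) := Real.rpow_pos_of_pos (by linarith) _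
  rw [hre, Nat.add_sub_cancel] at hy2
  have h8 : 0 < c * (y ^ (k / 2) * Real.log y ^ j) := by positivity
  linarith

/-- one-sided power saving -/
theorem HD.crit1_pow (d : HD k h ε a φ) (hpos : ∀ y, 0 < y → 0 < (φ y).re) {b : ℕ → ℝ} (hab : DInv a (fun n => (b n : ℂ)))
    {B : ℝ} (hB : 2 < B) {dl : ℝ} (hdl : k / 2 ≤ dl) {e : ℝ} (he : e = 1 ∨ e = -1)
    (H : ∀ ε' : ℝ, 0 < ε' → ∃ᶠ x : ℝ in atTop, ∀ y ∈ Icc x (x * Real.log x ^ B),
      e * RM b y ≤ y ^ (dl + ε')) (ρ : ℂ) (hz : mellin φ ρ = 0) : k - dl ≤ ρ.re ∧ ρ.re ≤ dl := by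
  have hk := d.kpos
  have key : ∀ ρ : ℂ, mellin φ ρ = 0 → ρ.re ≤ dl := by
    intro ρ hz
    by_contra hcon
    push Not at hcon
    obtain ⟨c, hc, hev⟩ := d.signs hpos hab hB (ρ := ρ) (by linarith) le_rfl (order_one d.diff hz)
    set ε' : ℝ := (ρ.re - dl) / 2 with hε'
    have hε0 : 0 < ε' := by rw [hε']; linarith
    obtain ⟨Y, hY⟩ := eventually_atTop.mp (H313.TK.log_pow_lt c ε' hc hε0 0)
    obtain ⟨x, hx1, hx2, hx3, hx4⟩ := ((H ε' hε0).and_eventually (hev.and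
      ((eventually_ge_atTop Y).and (eventually_ge_atTop 1)))).exists
    obtain ⟨y, hy, hy2⟩ := hx2 e he
    have h5 := hx1 y hy
    have hy0 : 0 < y := by linarith [hy.1]
    have h6 := hY y (hx3.trans hy.1)
    rw [pow_zero] at h6
    have h7 : y ^ (dl + ε') * y ^ ε' = y ^ ρ.re := by
      rw [← Real.rpow_add hy0]
      congr 1
      rw [hε']
      ring
    have h8 := Real.rpow_pos_of_pos hy0 (dl + ε')
    rw [Nat.sub_self, pow_zero, mul_one] at hy2
    have h9 : y ^ (dl + ε') < c * y ^ ρ.re := by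
      calc y ^ (dl + ε') = y ^ (dl + ε') * 1 := (mul_one _).symm
        _ < y ^ (dl + ε') * (c * y ^ ε') := mul_lt_mul_of_pos_left h6 h8
        _ = c * (y ^ (dl + ε') * y ^ ε') := by ring
        _ = _ := by rw [h7]
    linarith
  have hle := key ρ hz
  have hge := key (k - ρ) (d.refl hz)
  simp at hge
  exact ⟨by linarith, hle⟩

end

end H313.GK
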