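import Pool.Agent.H313R3.GK.LC
import Pool.Agent.H313R3.GK.LB
import Pool.Agent.H313R3.GK.V

/-!
# Both signs from a dominating kernel; zeta version
-/

open Complex MeasureTheory Filter Topology Set

set_option linter.unusedSectionVars false
set_option linter.unusedVariables false
set_option autoImplicit false

namespace H313.GK

open H313.TK (Ist norm_tw norm_tw' prim_cont int_exp_abs)

noncomputable section

theorem signs_of {b B σ β c₁ : ℝ} (hb : 0 < b) (hB0 : 0 < B) (hB : 2 < b * B) {m : ℕ} (hρ0 : 0 ≤ β) (hσρ : σ < β)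
    {K : ℝ → ℝ} (hKpos : ∀ v, 0 < K v) (hKcr : Continuous K)
    (hKd : ∃ κ : ℝ, 0 < κ ∧ ∃ C : ℝ, 0 ≤ C ∧ ∀ v : ℝ, ‖(K v : ℂ)‖ ≤ C * Real.exp (-(κ * Real.exp (b * |v|))))
    {F : ℝ → ℝ} (hFm : Measurable F)
    (hFb : ∃ C : ℝ, 0 ≤ C ∧ ∀ u : ℝ, |F u| ≤ C * Real.exp (c₁ * u)) {kk : ℝ → ℂ} {D : ℝ} (hD : 0 ≤ D)
    (hdb : ∀ v, ‖kk v‖ ≤ D * K v)
    (hlow : ∃ c' : ℝ, 0 < c' ∧ ∀ᶠ t : ℝ in atTop, c' * (t ^ (m - 1) * Real.exp (β * t)) ≤ ‖∫ u : ℝ, (F u : ℂ) * kk (t - u)‖)
    (hsm : ∃ C0 : ℝ, 0 ≤ C0 ∧ ∀ t : ℝ, ‖∫ u : ℝ, (F u : ℂ) * (K (t - u) : ℂ)‖ ≤ C0 * Real.exp (σ * t)) :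
    ∃ c' : ℝ, 0 < c' ∧ ∀ e : ℝ, e = 1 ∨ e = -1 → ∀ᶠ l : ℝ in atTop, ∃ u ∈ Icc l (l + B * Real.log l),
      c' * (l ^ (m - 1) * Real.exp (β * u)) ≤ e * F u := by
  obtain ⟨c', hc', hlow⟩ := hlow
  obtain ⟨C0, hC0, hsm⟩ := hsm
  have hFm' : Measurable (fun u => (F u : ℂ)) := Complex.measurable_ofReal.comp hFm
  have hFb' : ∃ C : ℝ, 0 ≤ C ∧ ∀ u : ℝ, ‖(F u : ℂ)‖ ≤ C * Real.exp (c₁ * u) := by
    obtain ⟨C, hC, h⟩ := hFb
    exact ⟨C, hC, fun u => by rw [Complex.norm_real, Real.norm_eq_abs]; exact h u⟩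
  have hKc : Continuous (fun v => (K v : ℂ)) := Complex.continuous_ofReal.comp hKcr
  have hi1 : ∀ t : ℝ, Integrable (fun u : ℝ => F u * K (t - u)) := by
    intro t
    have h1 := (conv_int hb hFm' hKc hFb' hKd t).re
    refine h1.congr (ae_of_all _ fun u => ?_)
    simp
  have hi2 : ∀ t : ℝ, Integrable (fun u : ℝ => |F u| * K (t - u)) := by
    intro t
    refine (hi1 t).abs.congr (ae_of_all _ fun u => ?_)
    simp only [abs_mul, abs_of_pos (hKpos _)]
  -- the positive part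
  have key : ∃ c'' : ℝ, 0 < c'' ∧ ∀ᶠ t : ℝ in atTop, ∀ e : ℝ, e = 1 ∨ e = -1 →
      c'' * (t ^ (m - 1) * Real.exp (β * t)) ≤ ∫ u : ℝ, max (e * F u) 0 * K (t - u) := by
    refine ⟨c' / (4 * (D + 1)), by positivity, ?_⟩
    have hlim : ∀ᶠ t : ℝ in atTop, C0 * Real.exp (σ * t) ≤ c' / (2 * (D + 1)) * (t ^ (m - 1) * Real.exp (β * t)) := by
      have h1 : Tendsto (fun t : ℝ => C0 * Real.exp (-((β - σ) * t))) atTop (𝓝 (C0 * 0)) := by
        refine Tendsto.const_mul _ (Real.tendsto_exp_neg_atTop_nhds_zero.comp ?_)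
        exact Tendsto.const_mul_atTop (by linarith) tendsto_id
      rw [mul_zero] at h1
      filter_upwards [h1.eventually (ge_mem_nhds (show (0:ℝ) < c' / (2 * (D + 1)) by positivity)), eventually_ge_atTop (1:ℝ)] with t ht ht1
      have h2 : (1:ℝ) ≤ t ^ (m - 1) := one_le_pow₀ ht1
      calc C0 * Real.exp (σ * t) = C0 * Real.exp (-((β - σ) * t)) * Real.exp (β * t) := by
            rw [mul_assoc, ← Real.exp_add]
            congr 2
            ring
        _ ≤ c' / (2 * (D + 1)) * Real.exp (β * t) := mul_le_mul_of_nonneg_right ht (Real.exp_pos _).le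
        _ = c' / (2 * (D + 1)) * (1 * Real.exp (β * t)) := by rw [one_mul]
        _ ≤ _ := by gcongr
    filter_upwards [hlow, hlim] with t h1 h2 e he
    have he2 : e * e = 1 := by rcases he with h | h <;> rw [h] <;> norm_num
    have h3 : ∫ u : ℝ, max (e * F u) 0 * K (t - u) = 1 / 2 * (∫ u : ℝ, |F u| * K (t - u)) + e / 2 * ∫ u : ℝ, F u * K (t - u) := by
      rw [← integral_const_mul, ← integral_const_mul, ← integral_add ((hi2 t).const_mul _) ((hi1 t).const_mul _)]
      refine integral_congr_ae (ae_of_all _ fun u => ?_)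
      simp only
      have h4 : max (e * F u) 0 = 1 / 2 * |F u| + e / 2 * F u := by
        have h5 : |F u| = |e * F u| := by
          rcases he with h | h <;> rw [h] <;> simp
        rw [h5]
        rcases le_total 0 (e * F u) with h6 | h6
        · rw [max_eq_left h6, abs_of_nonneg h6]; ring
        · rw [max_eq_right h6, abs_of_nonpos h6]; ring
      rw [h4]
      ring
    have h4 : ‖∫ u : ℝ, (F u : ℂ) * kk (t - u)‖ ≤ D * ∫ u : ℝ, |F u| * K (t - u) := by
      rw [← integral_const_mul]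
      refine norm_integral_le_of_norm_le ((hi2 t).const_mul D) (ae_of_all _ fun u => ?_)
      rw [norm_mul, Complex.norm_real, Real.norm_eq_abs]
      calc |F u| * ‖kk (t - u)‖ ≤ |F u| * (D * K (t - u)) :=
            mul_le_mul_of_nonneg_left (hdb _) (abs_nonneg _)
        _ = _ := by ring
    have h5 : |∫ u : ℝ, F u * K (t - u)| ≤ C0 * Real.exp (σ * t) := by
      have h6 := hsm t
      have h7 : ∫ u : ℝ, (F u : ℂ) * (K (t - u) : ℂ) = ((∫ u : ℝ, F u * K (t - u) : ℝ) : ℂ) := by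
        rw [← integral_complex_ofReal]
        refine integral_congr_ae (ae_of_all _ fun u => ?_)
        simp only
        push_cast
        rfl
      rw [h7, Complex.norm_real, Real.norm_eq_abs] at h6
      exact h6
    set P : ℝ := t ^ (m - 1) * Real.exp (β * t) with hP
    set I1 : ℝ := ∫ u : ℝ, |F u| * K (t - u) with hI1
    set I2 : ℝ := ∫ u : ℝ, F u * K (t - u) with hI2
    have hI10 : 0 ≤ I1 := integral_nonneg fun u => mul_nonneg (abs_nonneg _) (hKpos _).le
    have h6 : c' * P ≤ (D + 1) * I1 := by linarith [h1.trans h4]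
    have h7 : c' / (D + 1) * P ≤ I1 := by
      rw [div_mul_eq_mul_div, div_le_iff₀ (by positivity)]
      linarith
    have h8 : -(C0 * Real.exp (σ * t)) ≤ e * I2 := by
      have h9 : |e * I2| ≤ C0 * Real.exp (σ * t) := by
        rw [abs_mul]
        have : |e| = 1 := by rcases he with h | h <;> rw [h] <;> norm_num
        rw [this, one_mul]
        exact h5
      have := neg_abs_le (e * I2)
      linarith
    have e1 : c' / (2 * (D + 1)) * P = 1 / 2 * (c' / (D + 1) * P) := by field_simp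
    have e2 : c' / (4 * (D + 1)) * P = 1 / 4 * (c' / (D + 1) * P) := by field_simp
    rw [h3, e2]
    rw [e1] at h2
    nlinarith
  obtain ⟨c'', hc'', hev⟩ := key
  have hwin : ∀ e : ℝ, e = 1 ∨ e = -1 → ∃ c3 : ℝ, 0 < c3 ∧ ∀ᶠ l : ℝ in atTop, ∃ u ∈ Icc l (l + B * Real.log l),
      c3 * (l ^ (m - 1) * Real.exp (β * u)) ≤ e * F u := by
    intro e he
    have h1 := window (F := fun u => ((max (e * F u) 0 : ℝ) : ℂ)) (k := fun v => (K v : ℂ)) (c₁ := c₁) hb hB0 hB hρ0 (m - 1) (by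
        obtain ⟨C, hC, h⟩ := hFb
        refine ⟨C, hC, fun u => ?_⟩
        rw [Complex.norm_real, Real.norm_eq_abs, abs_of_nonneg (le_max_right _ _)]
        refine (max_le ?_ (abs_nonneg _)).trans (h u)
        rcases he with h | h <;> rw [h]
        · rw [one_mul]; exact le_abs_self _
        · rw [neg_one_mul]; exact neg_le_abs _) hKd ⟨c'', hc'', by
          filter_upwards [hev] with t ht
          refine (ht e he).trans ?_
          have h7 : ∫ u : ℝ, ((max (e * F u) 0 : ℝ) : ℂ) * (K (t - u) : ℂ) = ((∫ u : ℝ, max (e * F u) 0 * K (t - u) : ℝ) : ℂ) := by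
            rw [← integral_complex_ofReal]
            refine integral_congr_ae (ae_of_all _ fun u => ?_)
            simp only
            push_cast
            rfl
          rw [h7, Complex.norm_real, Real.norm_eq_abs]
          exact le_abs_self _⟩
    obtain ⟨c3, hc3, h2⟩ := h1
    refine ⟨c3, hc3, ?_⟩
    filter_upwards [h2, eventually_gt_atTop (0:ℝ)] with l h3 hl0
    obtain ⟨u, hu, h4⟩ := h3
    refine ⟨u, hu, ?_⟩
    rw [Complex.norm_real, Real.norm_eq_abs, abs_of_nonneg (le_max_right _ _)] at h4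
    have h5 : 0 < c3 * (l ^ (m - 1) * Real.exp (β * u)) := by positivity
    rcases le_total (e * F u) 0 with h6 | h6
    · rw [max_eq_right h6] at h4
      linarith
    · rwa [max_eq_left h6] at h4
  obtain ⟨a1, ha1, h1⟩ := hwin 1 (Or.inl rfl)
  obtain ⟨a2, ha2, h2⟩ := hwin (-1) (Or.inr rfl)
  refine ⟨min a1 a2, lt_min ha1 ha2, fun e he => ?_⟩
  rcases he with he | he <;> rw [he]
  · filter_upwards [h1, eventually_gt_atTop (0:ℝ)] with l h3 hl0
    obtain ⟨u, hu, h4⟩ := h3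
    exact ⟨u, hu, (mul_le_mul_of_nonneg_right (min_le_left _ _) (by positivity)).trans h4⟩
  · filter_upwards [h2, eventually_gt_atTop (0:ℝ)] with l h3 hl0
    obtain ⟨u, hu, h4⟩ := h3
    exact ⟨u, hu, (mul_le_mul_of_nonneg_right (min_le_right _ _) (by positivity)).trans h4⟩


/-- **zeta version**: zeros of order at least `m`, both signs -/
theorem main_zeta {B σ c Cg : ℝ} (hB : 1 < B) {ρ : ℂ} (hρ0 : 0 < ρ.re) (hρ1 : ρ.re < 1) {m : ℕ} (hm1 : 1 ≤ m)
    (hm : (m : ℕ∞) ≤ analyticOrderAt riemannZeta ρ) (hσρ : σ < ρ.re) (hc1 : 1 < c) (hc2 : c < 2)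
    {F : ℝ → ℝ} (hFm : Measurable F) (hF0 : ∀ u : ℝ, u < 0 → F u = 0)
    (hFb : ∃ C : ℝ, 0 ≤ C ∧ ∀ u : ℝ, |F u| ≤ C * Real.exp (1 * u)) {g : ℂ → ℂ}
    (hg : ∀ τ : ℝ, H313.TK.Kh (vl c τ) * (∫ u : ℝ, (F u : ℂ) * cexp (-vl c τ * u)) = g (vl c τ))
    (hgd : ∀ s : ℂ, σ ≤ s.re → s.re ≤ c → DifferentiableAt ℂ g s)
    (hgb : ∀ s : ℂ, σ ≤ s.re → s.re ≤ c → ‖g s‖ ≤ Cg * (1 + s.im ^ 2)⁻¹) (hg0 : g ρ ≠ 0) :
    ∃ c' : ℝ, 0 < c' ∧ ∀ e : ℝ, e = 1 ∨ e = -1 → ∀ᶠ l : ℝ in atTop, ∃ u ∈ Icc l (l + B * Real.log l),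
      c' * (l ^ (m - 1) * Real.exp (ρ.re * u)) ≤ e * F u := by
  have hρc : ρ.re < c := by linarith
  have hFm' : Measurable (fun u => (F u : ℂ)) := Complex.measurable_ofReal.comp hFm
  have hCg : 0 ≤ Cg := by
    have := (norm_nonneg _).trans (hgb (vl c 0) (by simp; linarith) (by simp))
    simpa using this
  have lb : ∀ σ' : ℝ, σ ≤ σ' → σ' ≤ c → LB g σ' Cg := by
    intro σ' h1 h2
    refine ⟨hCg, ?_, fun τ => ?_⟩
    · rw [continuous_iff_continuousAt]
      intro τ
      exact ContinuousAt.comp (f := vl σ') (hgd (vl σ' τ) (by simpa using h1) (by simpa using h2)).continuousAt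
        (vl_cont σ').continuousAt
    · have := hgb (vl σ' τ) (by simpa using h1) (by simpa using h2)
      simpa using this
  obtain ⟨BK, hKLB⟩ := Kh_lb hc1 hc2
  have hKinv : Inv H313.TK.Kh c = H313.TK.kc := funext fun v => Kh_inv hc1 hc2 v
  obtain ⟨⟨BK', hKLB'⟩, hKit⟩ := iter_inv hKLB hρc m
  rw [hKinv] at hKit
  obtain ⟨hDK, -⟩ := H313.TK.iter_DK ρ hρ0 hρ1 m hm m le_rfl
  rw [hKit] at hDK
  have hFi : Integrable (fun u : ℝ => ‖(F u : ℂ)‖ * Real.exp (-(c * u))) := by
    obtain ⟨C, hC, hb1⟩ := hFb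
    have hdc : 0 < c - 1 := by linarith
    refine ((int_exp_abs (c - 1) hdc).const_mul C).mono' ?_ (ae_of_all _ fun u => ?_)
    · exact (hFm'.norm.mul (by fun_prop)).aestronglyMeasurable
    · rw [Real.norm_eq_abs, abs_of_nonneg (by positivity), Complex.norm_real, Real.norm_eq_abs]
      rcases lt_or_ge u 0 with hu | hu
      · rw [hF0 u hu, abs_zero, zero_mul]
        positivity
      · rw [abs_of_nonneg hu]
        calc |F u| * Real.exp (-(c * u)) ≤ (C * Real.exp (1 * u)) * Real.exp (-(c * u)) :=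
              mul_le_mul_of_nonneg_right (hb1 u) (Real.exp_pos _).le
          _ = C * (Real.exp (1 * u) * Real.exp (-(c * u))) := by ring
          _ = C * Real.exp (-((c - 1) * u)) := by
              rw [← Real.exp_add]
              congr 2
              ring
  have hcv : ∀ t : ℝ, ∫ u : ℝ, (F u : ℂ) * Inv (fun s => H313.TK.Kh s / (s - ρ) ^ m) c (t - u) = (Ist ρ)^[m] (Inv g c) t := by
    intro t
    rw [conv hKLB' hFm' hFi t, (iter_inv (lb c (by linarith) le_rfl) hρc m).2]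
    unfold Inv
    congr 1
    refine integral_congr_ae (ae_of_all _ fun τ => ?_)
    simp only
    congr 1
    rw [← hg τ]
    ring
  have hcv0 : ∀ t : ℝ, ∫ u : ℝ, (F u : ℂ) * (H313.TK.kp (t - u) : ℂ) = Inv g c t := by
    intro t
    have h1 := conv hKLB hFm' hFi t
    rw [hKinv] at h1
    have h2 : ∫ u : ℝ, (F u : ℂ) * (H313.TK.kp (t - u) : ℂ) = ∫ u : ℝ, (F u : ℂ) * H313.TK.kc (t - u) := rfl
    rw [h2, h1]
    unfold Inv
    congr 1
    refine integral_congr_ae (ae_of_all _ fun τ => ?_)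
    simp only
    congr 1
    exact hg τ
  -- the function `Inv g c`
  have hLc := lb c (by linarith) le_rfl
  have hEC : EC c (Inv g c) := ⟨hLc.inv_cont, Cg, hCg, fun v => hLc.inv_le v⟩
  have hEσ : ∃ C : ℝ, 0 ≤ C ∧ ∀ v : ℝ, ‖Inv g c v‖ ≤ C * Real.exp (σ * v) := by
    refine ⟨Cg, hCg, fun v => ?_⟩
    rw [← inv_shift (a := σ) (b := c) (by linarith) hgd hgb v]
    exact (lb σ le_rfl (by linarith)).inv_le v
  have hLρ := lb ρ.re hσρ.le hρc.le
  have hsame : ∀ v : ℝ, Inv g c v = Inv g ρ.re v := fun v =>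
    (inv_shift (a := ρ.re) (b := c) hρc.le (fun s h1 h2 => hgd s (hσρ.le.trans h1) h2)
      (fun s h1 h2 => hgb s (hσρ.le.trans h1) h2) v).symm
  have hJ : ∫ v : ℝ, cexp (-ρ * v) * Inv g c v = g ρ := by
    have hi : Integrable (fun v : ℝ => Inv g ρ.re v * cexp (-(ρ.re * v : ℝ))) := by
      obtain ⟨C, hC, hb2⟩ := hEσ
      obtain ⟨C', hC', hb3⟩ := hEC.bd
      set δ : ℝ := min (ρ.re - σ) (c - ρ.re) with hδ
      have hδ0 : 0 < δ := lt_min (by linarith) (by linarith)
      refine ((int_exp_abs δ hδ0).const_mul (C + C')).mono' ?_ (ae_of_all _ fun v => ?_)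
      · exact (hLρ.inv_cont.mul (by fun_prop)).aestronglyMeasurable
      · rw [norm_mul, Complex.norm_exp, ← hsame v]
        have e0 : (-((ρ.re * v : ℝ) : ℂ)).re = -(ρ.re * v) := by simp
        rw [e0]
        rcases le_total 0 v with hv | hv
        · rw [abs_of_nonneg hv]
          calc ‖Inv g c v‖ * Real.exp (-(ρ.re * v)) ≤ (C * Real.exp (σ * v)) * Real.exp (-(ρ.re * v)) :=
                mul_le_mul_of_nonneg_right (hb2 v) (Real.exp_pos _).le
            _ = C * Real.exp (-((ρ.re - σ) * v)) := by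
                rw [mul_assoc, ← Real.exp_add]
                congr 2
                ring
            _ ≤ (C + C') * Real.exp (-(δ * v)) := by
                refine mul_le_mul (by linarith) (Real.exp_le_exp.2 ?_) (Real.exp_pos _).le (by positivity)
                have := mul_le_mul_of_nonneg_right (min_le_left (ρ.re - σ) (c - ρ.re)) hv
                linarith
        · rw [abs_of_nonpos hv]
          calc ‖Inv g c v‖ * Real.exp (-(ρ.re * v)) ≤ (C' * Real.exp (c * v)) * Real.exp (-(ρ.re * v)) :=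
                mul_le_mul_of_nonneg_right (hb3 v) (Real.exp_pos _).le
            _ = C' * Real.exp ((c - ρ.re) * v) := by
                rw [mul_assoc, ← Real.exp_add]
                congr 2
                ring
            _ ≤ (C + C') * Real.exp (-(δ * -v)) := by
                refine mul_le_mul (by linarith) (Real.exp_le_exp.2 ?_) (Real.exp_pos _).le (by positivity)
                have := mul_le_mul_of_nonneg_right (min_le_right (ρ.re - σ) (c - ρ.re)) (neg_nonneg.2 hv)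
                linarith
    have h1 := inv_trans hLρ hi ρ.im
    rw [← eq_vl ρ] at h1
    rw [← h1]
    exact integral_congr_ae (ae_of_all _ fun v => by simp only; rw [hsame v])
  obtain ⟨c', hc', hlow⟩ := iter_low hEC hρc hσρ hEσ (g ρ) hJ hg0 m hm1
  obtain ⟨D, hD, hdb⟩ := hDK.bd
  obtain ⟨C, hC, hsm⟩ := hEσ
  have hp := Real.pi_pos
  have hC0 := H313.TK.C0_nonneg
  refine signs_of (b := 2) (c₁ := 1) (σ := σ) (m := m) (K := H313.TK.kp) two_pos (by linarith) (by linarith) hρ0.le hσρ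
    (fun v => lt_of_lt_of_le (by have := H313.TK.W_pos v; positivity) (H313.TK.kp_bounds v).1) H313.TK.kp_cont
    ⟨Real.pi / 8, by positivity, H313.TK.C0, hC0, fun v => ?_⟩ hFm hFb (kk := Inv (fun s => H313.TK.Kh s / (s - ρ) ^ m) c)
    (D := D * 2) (by positivity) (fun v => ?_) ⟨c', hc', ?_⟩ ⟨C, hC, fun t => ?_⟩
  · have h1 := (H313.TK.kp_bounds v)
    have h2 := W_decay2 v
    have h3 := H313.TK.W_pos v
    rw [Complex.norm_real, Real.norm_eq_abs, abs_of_nonneg (by linarith [h1.1])]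
    refine h1.2.trans ?_
    rw [one_mul] at h2
    exact mul_le_mul_of_nonneg_left h2 hC0
  · refine (hdb v).trans ?_
    have h1 := (H313.TK.kp_bounds v).1
    rw [mul_assoc]
    exact mul_le_mul_of_nonneg_left (by linarith) hD
  · filter_upwards [hlow] with t ht
    rw [hcv t]
    exact ht
  · rw [hcv0 t]
    exact hsm t

end

end H313.GK
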