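import Pool.Agent.H313R3.GK.LD
import Pool.Agent.H313R3.TK.L

/-!
# The summatory function of the Liouville function
-/

open Complex MeasureTheory Filter Topology Set
open scoped ComplexConjugate

set_option linter.unusedSectionVars false
set_option linter.unusedVariables false
set_option autoImplicit false

namespace H313.GK

open H313.TK ZU.J_g2b

noncomputable section

/-- `L(y) = ∑_{n ≤ y} λ(n)` -/
def LL (y : ℝ) : ℝ := ∑ n ∈ Finset.Icc 1 ⌊y⌋₊, ((ArithmeticFunction.liouville n : ℤ) : ℝ)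

/-- the real number `ζ(1/2)` -/
def z0 : ℝ := (riemannZeta (1 / 2)).re

theorem z0_eq : ((z0 : ℝ) : ℂ) = riemannZeta (1 / 2) := by
  refine Complex.conj_eq_iff_re.1 ?_
  rw [← riemannZeta_conj]
  congr 1
  have h2 : (starRingEnd ℂ) 2 = 2 := Complex.conj_eq_iff_real.2 ⟨2, by norm_num⟩
  rw [map_div₀, map_one, h2]

theorem z0_ne : z0 ≠ 0 := by
  intro h
  have h1 := H353.FF_real_ne (1 / 2) (by norm_num)
  apply h1
  have e : (((1 / 2 : ℝ)) : ℂ) = 1 / 2 := by push_cast; ring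
  rw [e]
  have h2 : FF (1 / 2) = (1 / 2 - 1) * riemannZeta (1 / 2) := FF_ne (by norm_num)
  rw [← z0_eq, h] at h2
  simpa using h2

theorem LL_SM (y : ℝ) : ((LL y : ℝ) : ℂ) = SM (fun n => ((ArithmeticFunction.liouville n : ℤ) : ℂ)) y := by
  unfold LL SM
  push_cast
  rfl

theorem LL_meas : Measurable LL := by
  have h : LL = (fun n : ℕ => ∑ k ∈ Finset.Icc 1 n, ((ArithmeticFunction.liouville k : ℤ) : ℝ)) ∘ Nat.floor := rfl
  rw [h]
  exact measurable_from_nat.comp Nat.measurable_floor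

theorem liouville_norm (n : ℕ) (hn : n ≠ 0) : ‖((ArithmeticFunction.liouville n : ℤ) : ℂ)‖ ≤ (n : ℝ) ^ (0 : ℝ) := by
  rw [ArithmeticFunction.liouville_apply hn, Real.rpow_zero]
  push_cast
  rw [norm_pow, norm_neg, norm_one, one_pow]

theorem LL_bd (u : ℝ) : |LL (Real.exp u)| ≤ Real.exp u := by
  have h := SM_bd le_rfl liouville_norm u
  rw [← LL_SM, Complex.norm_real, Real.norm_eq_abs, zero_add, one_mul, one_mul] at h
  exact h

/-- the test function -/
def LF (u : ℝ) : ℝ := LL (Real.exp u) - z0⁻¹ * (Ici (0:ℝ)).indicator (fun u => Real.exp (u / 2)) u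

theorem LL_neg {u : ℝ} (hu : u < 0) : LL (Real.exp u) = 0 := by
  have h4 : ⌊Real.exp u⌋₊ = 0 := Nat.floor_eq_zero.2 (by rw [← Real.exp_zero]; exact Real.exp_lt_exp.2 hu)
  unfold LL
  rw [h4]
  simp

theorem LF_neg {u : ℝ} (hu : u < 0) : LF u = 0 := by
  unfold LF
  rw [LL_neg hu, indicator_of_notMem (by simpa using hu)]
  simp

theorem LF_nonneg {u : ℝ} (hu : 0 ≤ u) : LF u = LL (Real.exp u) - z0⁻¹ * Real.sqrt (Real.exp u) := by
  unfold LF
  rw [indicator_of_mem (by simpa using hu), ← Real.exp_half]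

theorem LF_meas : Measurable LF := by
  unfold LF
  exact (LL_meas.comp Real.measurable_exp).sub (((by fun_prop : Measurable fun u : ℝ => Real.exp (u / 2)).indicator
    measurableSet_Ici).const_mul _)

theorem LF_bd : ∃ C : ℝ, 0 ≤ C ∧ ∀ u : ℝ, |LF u| ≤ C * Real.exp (1 * u) := by
  refine ⟨1 + |z0⁻¹|, by positivity, fun u => ?_⟩
  rcases lt_or_ge u 0 with hu | hu
  · rw [LF_neg hu, abs_zero]
    positivity
  · unfold LF
    rw [indicator_of_mem (by simpa using hu), one_mul]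
    have h1 := LL_bd u
    have h2 : Real.exp (u / 2) ≤ Real.exp u := Real.exp_le_exp.2 (by linarith)
    calc |LL (Real.exp u) - z0⁻¹ * Real.exp (u / 2)| ≤ |LL (Real.exp u)| + |z0⁻¹ * Real.exp (u / 2)| := abs_sub _ _
      _ ≤ Real.exp u + |z0⁻¹| * Real.exp u := by
          rw [abs_mul, abs_of_pos (Real.exp_pos (u / 2))]
          exact add_le_add h1 (mul_le_mul_of_nonneg_left h2 (abs_nonneg _))
      _ = _ := by ring

theorem LF_trans {s : ℂ} (hs : 1 < s.re) : ∫ u : ℝ, (LF u : ℂ) * cexp (-s * u) =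
    LSeries (fun n => ((ArithmeticFunction.liouville n : ℤ) : ℂ)) s / s - (z0 : ℂ)⁻¹ / (s - 1 / 2) := by
  have h1 := trans_F le_rfl liouville_norm (s := s) (by rw [zero_add]; exact hs)
  have hδ : 0 < s.re - 1 := by linarith
  have i1 : Integrable (fun u : ℝ => (LL (Real.exp u) : ℂ) * cexp (-s * u)) := by
    refine (int_exp_abs (s.re - 1) hδ).mono' ?_ (ae_of_all _ fun u => ?_)
    · exact ((Complex.measurable_ofReal.comp (LL_meas.comp Real.measurable_exp)).mul (by fun_prop)).aestronglyMeasurable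
    · rw [norm_mul, norm_tw, Complex.norm_real, Real.norm_eq_abs]
      rcases lt_or_ge u 0 with hu | hu
      · rw [LL_neg hu, abs_zero, zero_mul]
        positivity
      · rw [abs_of_nonneg hu]
        calc |LL (Real.exp u)| * Real.exp (-s.re * u) ≤ Real.exp u * Real.exp (-s.re * u) :=
              mul_le_mul_of_nonneg_right (LL_bd u) (Real.exp_pos _).le
          _ = _ := by rw [← Real.exp_add]; congr 1; ring
  have hre : (-(s - 1 / 2)).re < 0 := by
    simp
    linarith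
  have e2 : ∀ u : ℝ, (((Ici (0:ℝ)).indicator (fun u => Real.exp (u / 2)) u : ℝ) : ℂ) * cexp (-s * u) =
      (Ici (0:ℝ)).indicator (fun u : ℝ => cexp (-(s - 1 / 2) * u)) u := by
    intro u
    by_cases hu : u ∈ Ici (0:ℝ)
    · rw [indicator_of_mem hu, indicator_of_mem hu, Complex.ofReal_exp, ← Complex.exp_add]
      congr 1
      push_cast
      ring
    · rw [indicator_of_notMem hu, indicator_of_notMem hu]
      simp
  have i2' : IntegrableOn (fun u : ℝ => cexp (-(s - 1 / 2) * u)) (Ioi 0) := integrableOn_exp_mul_complex_Ioi hre 0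
  have i2 : Integrable (fun u : ℝ => (((Ici (0:ℝ)).indicator (fun u => Real.exp (u / 2)) u : ℝ) : ℂ) * cexp (-s * u)) := by
    simp_rw [e2]
    rw [integrable_indicator_iff measurableSet_Ici, integrableOn_Ici_iff_integrableOn_Ioi]
    exact i2'
  have h2 : ∫ u : ℝ, (((Ici (0:ℝ)).indicator (fun u => Real.exp (u / 2)) u : ℝ) : ℂ) * cexp (-s * u) = 1 / (s - 1 / 2) := by
    simp_rw [e2]
    rw [integral_indicator measurableSet_Ici, integral_Ici_eq_integral_Ioi, integral_exp_mul_complex_Ioi hre]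
    have hne : s - 1 / 2 ≠ 0 := by
      intro h0
      rw [h0] at hre
      simp at hre
    simp only [Complex.ofReal_zero, mul_zero, Complex.exp_zero]
    field_simp
  have h3 : ∀ u : ℝ, (LF u : ℂ) * cexp (-s * u) = (LL (Real.exp u) : ℂ) * cexp (-s * u) -
      (z0 : ℂ)⁻¹ * ((((Ici (0:ℝ)).indicator (fun u => Real.exp (u / 2)) u : ℝ) : ℂ) * cexp (-s * u)) := by
    intro u
    unfold LF
    push_cast
    ring
  simp_rw [h3]
  rw [integral_sub i1 (i2.const_mul _), integral_const_mul, h2]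
  have h4 : ∫ u : ℝ, (LL (Real.exp u) : ℂ) * cexp (-s * u) =
      LSeries (fun n => ((ArithmeticFunction.liouville n : ℤ) : ℂ)) s / s := by
    simp only [LL_SM]
    exact h1
  rw [h4]
  ring

/-- numerator of `g` -/
def NN (s : ℂ) : ℂ := FF (2 * s) * qh s / (2 * s) - (z0 : ℂ)⁻¹ * Kh s

theorem NN_diff {s : ℂ} (h0 : 0 < s.re) (h2 : s.re < 2) : DifferentiableAt ℂ NN s := by
  have hsne : (2 : ℂ) * s ≠ 0 := by
    intro h
    have := congrArg Complex.re h
    simp at this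
    linarith
  unfold NN
  have h1 : DifferentiableAt ℂ (fun s : ℂ => FF (2 * s)) s :=
    DifferentiableAt.comp (g := FF) (f := fun s : ℂ => 2 * s) s (FF_diff _) (by fun_prop)
  have h3 : DifferentiableAt ℂ qh s := (qh_deriv s (by rw [abs_of_pos h0]; exact h2)).differentiableAt
  have h4 : DifferentiableAt ℂ Kh s := Kh_diff (by rw [abs_of_pos h0]; linarith)
  exact ((h1.mul h3).div (by fun_prop) hsne).sub (h4.const_mul _)

theorem NN_half : NN (1 / 2) = 0 := by
  unfold NN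
  have e : (2 : ℂ) * (1 / 2) = 1 := by norm_num
  have hz : (z0 : ℂ) ≠ 0 := by exact_mod_cast z0_ne
  rw [e, FF_one, Kh_eq (1 / 2) (by norm_num) (by norm_num) (by norm_num), ← z0_eq]
  field_simp
  ring

/-- the function `g` -/
def LG : ℂ → ℂ := dslope NN (1 / 2)

theorem LG_ne {s : ℂ} (hs : s ≠ 1 / 2) : LG s = NN s / (s - 1 / 2) := by
  unfold LG
  rw [dslope_of_ne _ hs, slope_def_field, NN_half, sub_zero]

theorem LG_diff {s : ℂ} (h0 : 0 < s.re) (h2 : s.re < 2) : DifferentiableAt ℂ LG s := by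
  have hU : IsOpen {s : ℂ | 0 < s.re ∧ s.re < 2} :=
    (isOpen_lt continuous_const Complex.continuous_re).inter (isOpen_lt Complex.continuous_re continuous_const)
  have hd : DifferentiableOn ℂ NN {s : ℂ | 0 < s.re ∧ s.re < 2} := fun z hz =>
    (NN_diff hz.1 hz.2).differentiableWithinAt
  have h3 := (Complex.differentiableOn_dslope (f := NN) (c := 1 / 2) (hU.mem_nhds (by constructor <;> norm_num))).2 hd
  exact (h3 s ⟨h0, h2⟩).differentiableAt (hU.mem_nhds ⟨h0, h2⟩)

theorem LG_bd : ∃ C : ℝ, ∀ s : ℂ, 1 / 4 ≤ s.re → s.re ≤ 3 / 2 → ‖LG s‖ ≤ C * (1 + s.im ^ 2)⁻¹ := by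
  obtain ⟨D1, hD1, hb1⟩ := FF_qh_bd 2 (1 / 4) (3 / 2) (by norm_num) (by norm_num) (by norm_num)
  obtain ⟨D2, hD2, hb2⟩ := FF_qh_bd 1 (1 / 4) (3 / 2) (by norm_num) (by norm_num) (by norm_num)
  -- compact part
  have hcomp : IsCompact (Icc (1 / 4 : ℝ) (3 / 2) ×ℂ Icc (-1 : ℝ) 1) := isCompact_Icc.reProdIm isCompact_Icc
  have hcont : ContinuousOn LG (Icc (1 / 4 : ℝ) (3 / 2) ×ℂ Icc (-1 : ℝ) 1) := by
    intro z hz
    rw [Complex.mem_reProdIm] at hz
    exact (LG_diff (by linarith [hz.1.1]) (by linarith [hz.1.2])).continuousAt.continuousWithinAt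
  obtain ⟨M, hM⟩ := hcomp.exists_bound_of_continuousOn hcont
  have hM0 : 0 ≤ M := (norm_nonneg _).trans (hM (1 / 2) (by rw [Complex.mem_reProdIm]; constructor <;> constructor <;> norm_num))
  refine ⟨2 * M + (D1 + |z0⁻¹| * D2), fun s h1 h2 => ?_⟩
  have hs0 : 0 < s.re := by linarith
  rcases le_total |s.im| 1 with him | him
  · have h3 := hM s (by
      rw [Complex.mem_reProdIm]
      rw [abs_le] at him
      exact ⟨⟨h1, h2⟩, him⟩)
    have h4 : s.im ^ 2 ≤ 1 := by rw [← sq_abs]; nlinarith [abs_nonneg s.im]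
    have h5 : 1 / 2 ≤ (1 + s.im ^ 2)⁻¹ := by
      rw [one_div]
      exact inv_anti₀ (by positivity) (by linarith)
    have h6 : 0 ≤ D1 + |z0⁻¹| * D2 := by positivity
    nlinarith
  · have hne : s ≠ 1 / 2 := by
      rintro rfl
      norm_num at him
    have n1 : 1 ≤ ‖s - 1 / 2‖ := by
      refine him.trans ?_
      have := Complex.abs_im_le_norm (s - 1 / 2)
      simpa using this
    have n2 : 1 ≤ ‖s - 1‖ := by
      refine him.trans ?_
      have := Complex.abs_im_le_norm (s - 1)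
      simpa using this
    have n3 : 1 ≤ ‖2 * s‖ := by
      rw [norm_mul, Complex.norm_ofNat]
      have := Complex.abs_im_le_norm s
      linarith
    have k1 := hb1 s h1 h2
    have k2 := hb2 s h1 h2
    rw [Complex.ofReal_one, one_mul] at k2
    have e2 : ((2 : ℝ) : ℂ) = 2 := by norm_num
    rw [e2] at k1
    have hK := Kh_FF s hs0 (by linarith)
    have k3 : ‖Kh s‖ ≤ D2 * (1 + s.im ^ 2)⁻¹ := by
      refine le_trans ?_ k2
      rw [← norm_mul, ← hK, norm_mul]
      exact le_mul_of_one_le_left (norm_nonneg _) n2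
    have k4 : ‖FF (2 * s) * qh s / (2 * s)‖ ≤ D1 * (1 + s.im ^ 2)⁻¹ := by
      rw [norm_div, norm_mul]
      exact (div_le_self (by positivity) n3).trans k1
    rw [LG_ne hne, norm_div]
    refine (div_le_self (norm_nonneg _) n1).trans ?_
    unfold NN
    have h7 : 0 ≤ M * (1 + s.im ^ 2)⁻¹ := by positivity
    calc ‖FF (2 * s) * qh s / (2 * s) - (z0 : ℂ)⁻¹ * Kh s‖ ≤ ‖FF (2 * s) * qh s / (2 * s)‖ + ‖(z0 : ℂ)⁻¹ * Kh s‖ := norm_sub_le _ _
      _ ≤ D1 * (1 + s.im ^ 2)⁻¹ + |z0⁻¹| * (D2 * (1 + s.im ^ 2)⁻¹) := by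
          refine add_le_add k4 ?_
          rw [norm_mul, ← Complex.ofReal_inv, Complex.norm_real, Real.norm_eq_abs]
          exact mul_le_mul_of_nonneg_left k3 (abs_nonneg _)
      _ ≤ _ := by nlinarith

theorem LG_zero {ρ : ℂ} (hz : riemannZeta ρ = 0) (h0 : 1 / 2 ≤ ρ.re) (h1 : ρ.re < 1) : LG ρ ≠ 0 := by
  have hne : ρ ≠ 1 / 2 := by
    rintro rfl
    rw [← z0_eq] at hz
    exact z0_ne (by exact_mod_cast hz)
  have hne1 : ρ ≠ 1 := by
    rintro rfl
    simp at h1
  rw [LG_ne hne]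
  refine div_ne_zero ?_ (sub_ne_zero.2 hne)
  unfold NN
  rw [Kh_zero ρ hz (by linarith) h1, mul_zero, sub_zero]
  have h2ρ : (2 : ℂ) * ρ ≠ 1 := by
    intro h
    apply hne
    rw [← h]
    ring
  have h2ρ0 : (2 : ℂ) * ρ ≠ 0 := by
    intro h
    have := congrArg Complex.re h
    simp at this
    linarith
  refine div_ne_zero (mul_ne_zero ?_ (qh_ne ρ (by linarith) h1)) h2ρ0
  rw [FF_ne h2ρ]
  refine mul_ne_zero (sub_ne_zero.2 h2ρ) (riemannZeta_ne_zero_of_one_le_re ?_)
  simp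
  linarith

/-- **Both signs about the mean in every window.** -/
theorem LL_signs {B : ℝ} (hB : 1 < B) (ρ : ℂ) (h0 : 1 / 2 ≤ ρ.re) (h1 : ρ.re < 1) (m : ℕ) (hm1 : 1 ≤ m)
    (hm : (m : ℕ∞) ≤ analyticOrderAt riemannZeta ρ) :
    ∃ c : ℝ, 0 < c ∧ ∀ᶠ x : ℝ in atTop, ∀ e : ℝ, e = 1 ∨ e = -1 → ∃ y ∈ Icc x (x * Real.log x ^ B),
      c * (y ^ ρ.re * Real.log y ^ (m - 1)) ≤ e * (LL y - Real.sqrt y / z0) := by
  have hz : riemannZeta ρ = 0 := by
    by_contra hcon
    have h3 := (H313.TK.zeta_an h1).analyticOrderAt_eq_zero.2 hcon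
    rw [h3] at hm
    have : (m : ℕ∞) ≤ (0 : ℕ) := by simpa using hm
    have := Nat.cast_le.1 this
    omega
  obtain ⟨Cg, hCg⟩ := LG_bd
  have key := main_zeta (σ := 1 / 4) (c := 3 / 2) (Cg := Cg) (F := LF) (g := LG) hB (ρ := ρ) (by linarith) h1 hm1 hm
    (by linarith) (by norm_num) (by norm_num) LF_meas (fun u hu => LF_neg hu) LF_bd (fun τ => ?_)
    (fun s h1 h2 => LG_diff (by linarith) (by linarith)) hCg (LG_zero hz h0 h1)
  · refine window_signs (S := fun y => LL y - Real.sqrt y / z0) (by linarith) (m - 1) ?_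
    obtain ⟨c, hc, h⟩ := key
    refine ⟨c, hc, fun e he => ?_⟩
    filter_upwards [h e he, eventually_ge_atTop (0:ℝ)] with l hl hl0
    obtain ⟨u, hu, h2⟩ := hl
    refine ⟨u, hu, ?_⟩
    rw [LF_nonneg (hl0.trans hu.1)] at h2
    rw [div_eq_inv_mul]
    exact h2
  · set s : ℂ := vl (3 / 2) τ with hs
    have hsre : s.re = 3 / 2 := by rw [hs]; simp
    rw [LF_trans (s := s) (by rw [hsre]; norm_num)]
    have hs1 : s ≠ 1 := by
      rintro h
      rw [h] at hsre
      norm_num at hsre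
    have hs12 : s ≠ 1 / 2 := by
      rintro h
      rw [h] at hsre
      norm_num at hsre
    have hs0 : s ≠ 0 := by
      rintro h
      rw [h] at hsre
      norm_num at hsre
    have h2s : (2 : ℂ) * s ≠ 1 := by
      intro h
      apply hs12
      rw [← h]
      ring
    have hl := liouville_lser (s := s) (by rw [hsre]; norm_num)
    have hK := Kh_eq s (by rw [hsre]; norm_num) (by rw [hsre]; norm_num) hs1
    rw [LG_ne hs12]
    unfold NN
    rw [FF_ne h2s, ← hl]
    have hd : s - 1 / 2 ≠ 0 := sub_ne_zero.2 hs12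
    rw [hK]
    generalize LSeries (fun n => ((ArithmeticFunction.liouville n : ℤ) : ℂ)) s = Λ
    generalize riemannZeta s = Z
    generalize qh s = Q
    generalize (z0 : ℂ)⁻¹ = W
    have e1 : (Λ / s - W / (s - 1 / 2)) = (Λ * ((2 * s - 1) / (2 * s)) - W) / (s - 1 / 2) := by
      rw [sub_div]
      congr 1
      rw [eq_div_iff hd]
      field_simp
    rw [e1, ← mul_div_assoc]
    congr 1
    field_simp

end

end H313.GK
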