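import Pool.Agent.H313R3.GK.LE

/-!
# One-sided bounds for the summatory function of the Liouville function on sparse windows
-/

open Complex MeasureTheory Filter Topology Set
open scoped ComplexConjugate

set_option linter.unusedSectionVars false
set_option linter.unusedVariables false
set_option autoImplicit false

namespace H313.GK

open H313.TK

noncomputable section

/-- **One-sided bounds on sparse windows bound all multiplicities.** -/
theorem LL_sup_m {B : ℝ} (hB : 1 < B) (s : ℝ) (hs : s = 1 ∨ s = -1) (k : ℕ) (hk : 1 ≤ k)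
    (h : ∀ ε : ℝ, 0 < ε → ∃ᶠ x : ℝ in atTop, ∀ y ∈ Icc x (x * Real.log x ^ B),
      s * LL y ≤ ε * (Real.sqrt y * Real.log y ^ k))
    (ρ : ℂ) (hz : riemannZeta ρ = 0) (h0 : 0 < ρ.re) (h1 : ρ.re < 1) :
    ρ.re = 1 / 2 ∧ analyticOrderAt riemannZeta ρ ≤ k := by
  have h' : ∀ ε : ℝ, 0 < ε → ∃ᶠ x : ℝ in atTop, ∀ y ∈ Icc x (x * Real.log x ^ B),
      s * (LL y - Real.sqrt y / z0) ≤ ε * (Real.sqrt y * Real.log y ^ k) := by
    intro ε hε
    obtain ⟨Y, hY⟩ := eventually_atTop.mp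
      ((Real.tendsto_log_atTop.eventually_ge_atTop (max 1 (2 / ε * |z0⁻¹|))))
    refine ((h (ε / 2) (by positivity)).and_eventually (eventually_ge_atTop Y)).mono ?_
    rintro x ⟨hx, hxY⟩ y hy
    have h2 := hx y hy
    have h3 := hY y (hxY.trans hy.1)
    have h4 : 1 ≤ Real.log y := (le_max_left _ _).trans h3
    have h5 : 2 / ε * |z0⁻¹| ≤ Real.log y := (le_max_right _ _).trans h3
    have h6 : Real.log y ≤ Real.log y ^ k := le_self_pow₀ h4 (by omega)
    have h7 : -s * z0⁻¹ ≤ ε / 2 * Real.log y ^ k := by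
      have h8 : -s * z0⁻¹ ≤ |z0⁻¹| := by
        rcases hs with rfl | rfl
        · rw [neg_one_mul]; exact neg_le_abs _
        · rw [neg_neg, one_mul]; exact le_abs_self _
      have h9 : |z0⁻¹| = ε / 2 * (2 / ε * |z0⁻¹|) := by field_simp
      calc -s * z0⁻¹ ≤ |z0⁻¹| := h8
        _ = ε / 2 * (2 / ε * |z0⁻¹|) := h9
        _ ≤ ε / 2 * Real.log y ^ k := mul_le_mul_of_nonneg_left (h5.trans h6) (by positivity)
    have h10 := mul_le_mul_of_nonneg_left h7 (Real.sqrt_nonneg y)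
    have e : s * (LL y - Real.sqrt y / z0) = s * LL y + Real.sqrt y * (-s * z0⁻¹) := by ring
    rw [e]
    linarith
  have key : ∀ ρ : ℂ, riemannZeta ρ = 0 → ρ.re < 1 → ρ.re ≤ 1 / 2 := by
    intro ρ hz h1
    by_contra hcon
    push Not at hcon
    obtain ⟨c, hc, hev⟩ := LL_signs hB ρ hcon.le h1 1 le_rfl (H313.TK.order_one hz h1)
    obtain ⟨Y, hY⟩ := eventually_atTop.mp (log_pow_lt c (ρ.re - 1 / 2) hc (by linarith) k)
    obtain ⟨x, hx1, hx2, hx3, hx4⟩ := ((h' 1 one_pos).and_eventually (hev.and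
      ((eventually_ge_atTop Y).and (eventually_ge_atTop 1)))).exists
    obtain ⟨y, hy, hy2⟩ := hx2 s hs
    have h5 := hx1 y hy
    have hy0 : 0 < y := by linarith [hy.1]
    have h6 := hY y (hx3.trans hy.1)
    have h7 : Real.sqrt y * y ^ (ρ.re - 1 / 2) = y ^ ρ.re := by
      rw [Real.sqrt_eq_rpow, ← Real.rpow_add hy0]
      congr 1
      ring
    have h8 := Real.sqrt_pos.2 hy0
    have h9 : Real.sqrt y * Real.log y ^ k < c * y ^ ρ.re := by
      calc Real.sqrt y * Real.log y ^ k < Real.sqrt y * (c * y ^ (ρ.re - 1 / 2)) := mul_lt_mul_of_pos_left h6 h8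
        _ = c * (Real.sqrt y * y ^ (ρ.re - 1 / 2)) := by ring
        _ = _ := by rw [h7]
    rw [Nat.sub_self, pow_zero, mul_one] at hy2
    linarith
  have hle := key ρ hz h1
  have hge := key (1 - ρ) (refl_zero ρ hz h0 h1) (by simp; linarith)
  have hre : ρ.re = 1 / 2 := by
    simp at hge
    linarith
  refine ⟨hre, ?_⟩
  by_contra hcon
  push Not at hcon
  have hm : ((k + 1 : ℕ) : ℕ∞) ≤ analyticOrderAt riemannZeta ρ := by
    push_cast
    exact Order.add_one_le_of_lt hcon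
  obtain ⟨c, hc, hev⟩ := LL_signs hB ρ hre.ge h1 (k + 1) (by omega) hm
  obtain ⟨x, hx1, hx2, hx3⟩ := ((h' (c / 2) (by positivity)).and_eventually (hev.and (eventually_gt_atTop (1:ℝ)))).exists
  obtain ⟨y, hy, hy2⟩ := hx2 s hs
  have h5 := hx1 y hy
  have hy1 : 1 < y := hx3.trans_le hy.1
  have h6 : 0 < Real.log y := Real.log_pos hy1
  have h7 : 0 < Real.sqrt y := Real.sqrt_pos.mpr (by linarith)
  rw [hre, ← Real.sqrt_eq_rpow, Nat.add_sub_cancel] at hy2
  have h8 : 0 < c * (Real.sqrt y * Real.log y ^ k) := by positivity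
  linarith

/-- the unconditional form -/
theorem LL_uncond {B : ℝ} (hB : 1 < B) : ∃ c : ℝ, 0 < c ∧ ∀ᶠ x : ℝ in atTop, ∀ e : ℝ, e = 1 ∨ e = -1 →
    ∃ y ∈ Icc x (x * Real.log x ^ B), c * Real.sqrt y ≤ e * (LL y - Real.sqrt y / z0) := by
  obtain ⟨ρ, hz, h0, h1⟩ := exists_zero
  obtain ⟨c, hc, h⟩ := LL_signs hB ρ h0 h1 1 le_rfl (H313.TK.order_one hz h1)
  refine ⟨c, hc, ?_⟩
  filter_upwards [h, eventually_ge_atTop 1] with x hx hx1 s hs
  obtain ⟨y, hy, hy2⟩ := hx s hs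
  refine ⟨y, hy, le_trans ?_ hy2⟩
  rw [Nat.sub_self, pow_zero, mul_one, Real.sqrt_eq_rpow]
  exact mul_le_mul_of_nonneg_left (Real.rpow_le_rpow_of_exponent_le (hx1.trans hy.1) h0) hc.le

end

end H313.GK
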