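import Pool.Agent.H313R3.GK.H

/-!
# Hecke data: the Mellin transform
-/

open Complex MeasureTheory Filter Topology Set
open scoped ComplexConjugate

set_option linter.unusedSectionVars false
set_option linter.unusedVariables false
set_option autoImplicit false

namespace H313.GK

noncomputable section

/-- `φ(y) = ∑ a(n) exp(-2 π n y / h)`, `φ(1/y) = ε y^k φ(y)` -/
structure HD (k h : ℝ) (ε : ℝ) (a : ℕ → ℂ) (φ : ℝ → ℂ) : Prop where
  kpos : 0 < k
  hpos : 0 < h
  sgn : ε = 1 ∨ ε = -1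
  zero : a 0 = 0
  one : a 1 = 1
  real : ∀ n, conj (a n) = a n
  bound : ∃ (C : ℝ) (κ : ℕ), 0 ≤ C ∧ ∀ n, ‖a n‖ ≤ C * (n:ℝ) ^ κ
  sum : ∀ y, 0 < y → HasSum (fun n : ℕ => a n * (Real.exp (-(2 * Real.pi * n / h) * y) : ℂ)) (φ y)
  fe : ∀ y, 0 < y → φ (1 / y) = (ε : ℂ) * ((y ^ k : ℝ) : ℂ) * φ y

variable {k h : ℝ} {ε : ℝ} {a : ℕ → ℂ} {φ : ℝ → ℂ}

theorem HD.summ (d : HD k h ε a φ) {δ : ℝ} (hδ : 0 < δ) : Summable fun n : ℕ => ‖a n‖ * Real.exp (-δ * n) := by
  obtain ⟨C, κ, hC, hb⟩ := d.bound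
  refine Summable.of_nonneg_of_le (fun n => by positivity) (fun n => ?_)
    ((Real.summable_pow_mul_exp_neg_nat_mul κ hδ).mul_left C)
  rw [← mul_assoc]
  exact mul_le_mul_of_nonneg_right (hb n) (Real.exp_pos _).le

theorem HD.cont (d : HD k h ε a φ) : ContinuousOn φ (Ioi 0) := by
  intro y0 hy0
  have hy0' : 0 < y0 := hy0
  have hh := d.hpos
  have hpi := Real.pi_pos
  have hs : 0 < 2 * Real.pi / h * (y0 / 2) := by positivity
  have h1 : ContinuousOn (fun y : ℝ => ∑' n : ℕ, a n * (Real.exp (-(2 * Real.pi * n / h) * y) : ℂ)) (Ioi (y0 / 2)) := by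
    refine continuousOn_tsum (fun n => by fun_prop) (d.summ hs) fun n y hy => ?_
    have hy' : y0 / 2 < y := hy
    rw [norm_mul, Complex.norm_real, Real.norm_eq_abs, abs_of_pos (Real.exp_pos _)]
    refine mul_le_mul_of_nonneg_left (Real.exp_le_exp.2 ?_) (norm_nonneg _)
    have h2 : 0 ≤ 2 * Real.pi * n / h := by positivity
    have e : -(2 * Real.pi / h * (y0 / 2)) * (n:ℝ) = -((2 * Real.pi * n / h) * (y0 / 2)) := by ring
    rw [e]
    nlinarith
  have h2 : ContinuousOn φ (Ioi (y0 / 2)) := h1.congr fun y hy => by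
    have hy' : y0 / 2 < y := hy
    exact (d.sum y (by linarith)).tsum_eq.symm
  exact (h2.continuousAt (Ioi_mem_nhds (by linarith))).continuousWithinAt

theorem HD.dec (d : HD k h ε a φ) : ∃ C : ℝ, 0 ≤ C ∧ ∀ y : ℝ, 1 ≤ y → ‖φ y‖ ≤ C * Real.exp (-(Real.pi / h) * y) := by
  have hh := d.hpos
  have hpi := Real.pi_pos
  have hs : 0 < Real.pi / h := by positivity
  have hsum := d.summ hs
  refine ⟨∑' n : ℕ, ‖a n‖ * Real.exp (-(Real.pi / h) * n), tsum_nonneg fun n => by positivity, fun y hy => ?_⟩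
  rw [← (d.sum y (by linarith)).tsum_eq, ← tsum_mul_right]
  refine tsum_of_norm_bounded (g := fun n : ℕ => ‖a n‖ * Real.exp (-(Real.pi / h) * n) * Real.exp (-(Real.pi / h) * y))
    (hsum.mul_right _).hasSum fun n => ?_
  rw [norm_mul, Complex.norm_real, Real.norm_eq_abs, abs_of_pos (Real.exp_pos _), mul_assoc ‖a n‖, ← Real.exp_add]
  rcases Nat.eq_zero_or_pos n with hn | hn
  · rw [hn, d.zero, norm_zero, zero_mul, zero_mul]
  have hn1 : (1:ℝ) ≤ n := by exact_mod_cast hn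
  refine mul_le_mul_of_nonneg_left (Real.exp_le_exp.2 ?_) (norm_nonneg _)
  have e : -(2 * Real.pi * n / h) * y = -(Real.pi / h) * (2 * n * y) := by ring
  rw [e, ← mul_add, neg_mul, neg_mul, neg_le_neg_iff]
  refine mul_le_mul_of_nonneg_left ?_ hs.le
  nlinarith [mul_nonneg (sub_nonneg.2 hn1) (sub_nonneg.2 hy)]

theorem HD.top (d : HD k h ε a φ) (r : ℝ) : (fun y : ℝ => φ y - 0) =O[atTop] fun y : ℝ => y ^ r := by
  obtain ⟨C, hC, hb⟩ := d.dec
  have hs : 0 < Real.pi / h := div_pos Real.pi_pos d.hpos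
  have h1 := (isLittleO_exp_neg_mul_rpow_atTop hs r).isBigO
  refine Asymptotics.IsBigO.trans (Asymptotics.IsBigO.of_bound C ?_) h1
  filter_upwards [eventually_ge_atTop 1] with y hy
  rw [sub_zero, Real.norm_eq_abs, abs_of_pos (Real.exp_pos _)]
  exact hb y hy

theorem HD.eps (d : HD k h ε a φ) : (ε : ℂ) ≠ 0 := by
  rcases d.sgn with h | h <;> rw [h] <;> norm_num

/-- the FE pair -/
def HD.pair (d : HD k h ε a φ) : WeakFEPair ℂ where
  f := φ
  g := φ
  k := k
  ε := (ε : ℂ)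
  f₀ := 0
  g₀ := 0
  hf_int := d.cont.locallyIntegrableOn measurableSet_Ioi
  hg_int := d.cont.locallyIntegrableOn measurableSet_Ioi
  hk := d.kpos
  hε := d.eps
  h_feq := fun x hx => by
    rw [smul_eq_mul]
    exact d.fe x hx
  hf_top := d.top
  hg_top := d.top

theorem HD.strong (d : HD k h ε a φ) : IsStrongFEPair d.pair := ⟨rfl, rfl⟩

theorem HD.diff (d : HD k h ε a φ) : Differentiable ℂ (mellin φ) := by
  have h1 := d.strong.differentiable_Λ
  rw [d.strong.Λ_eq] at h1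
  exact h1

theorem HD.fe' (d : HD k h ε a φ) (s : ℂ) : mellin φ (k - s) = ε * mellin φ s := by
  have h1 := d.pair.functional_equation s
  rw [d.strong.Λ_eq, d.strong.symm_Λ_eq, smul_eq_mul] at h1
  exact h1

theorem HD.conv (d : HD k h ε a φ) (s : ℂ) : MellinConvergent φ s := (d.strong.hasMellin s).1

/-- bounded in vertical strips -/
theorem HD.strip (d : HD k h ε a φ) (p q : ℝ) : ∃ M : ℝ, 0 ≤ M ∧ ∀ s : ℂ, p ≤ s.re → s.re ≤ q → ‖mellin φ s‖ ≤ M := by
  have h1 := (d.conv p).norm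
  have h2 := (d.conv q).norm
  refine ⟨∫ t in Ioi (0:ℝ), (‖(t : ℂ) ^ ((p : ℂ) - 1) • φ t‖ + ‖(t : ℂ) ^ ((q : ℂ) - 1) • φ t‖),
    integral_nonneg fun t => by positivity, fun s hs1 hs2 => ?_⟩
  refine norm_integral_le_of_norm_le (h1.add h2) ?_
  filter_upwards [ae_restrict_mem measurableSet_Ioi] with t ht
  have ht0 : 0 < t := ht
  rw [norm_smul, norm_smul, norm_smul, Complex.norm_cpow_eq_rpow_re_of_pos ht0, Complex.norm_cpow_eq_rpow_re_of_pos ht0,
    Complex.norm_cpow_eq_rpow_re_of_pos ht0, ← add_mul]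
  refine mul_le_mul_of_nonneg_right ?_ (norm_nonneg _)
  simp only [Complex.sub_re, Complex.ofReal_re, Complex.one_re]
  rcases le_or_gt 1 t with h3 | h3
  · have := Real.rpow_le_rpow_of_exponent_le h3 (by linarith : s.re - 1 ≤ q - 1)
    have := Real.rpow_nonneg ht0.le (p - 1)
    linarith
  · have := Real.rpow_le_rpow_of_exponent_ge ht0 h3.le (by linarith : p - 1 ≤ s.re - 1)
    have := Real.rpow_nonneg ht0.le (q - 1)
    linarith

/-- the Dirichlet series -/
theorem HD.dir (d : HD k h ε a φ) {κ : ℕ} {C : ℝ} (hb : ∀ n, ‖a n‖ ≤ C * (n:ℝ) ^ κ) {s : ℂ} (hs : κ + 1 < s.re) :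
    mellin φ s = ((h / (2 * Real.pi) : ℝ) : ℂ) ^ s * Complex.Gamma s * LSeries a s := by
  have hs0 : 0 < s.re := by
    have : (0:ℝ) ≤ κ := by positivity
    linarith
  have hh := d.hpos
  have hpi := Real.pi_pos
  have hsum : LSeriesSummable a s := by
    refine LSeriesSummable_of_le_const_mul_rpow (x := κ + 1) hs ⟨C, fun n hn => ?_⟩
    rw [add_sub_cancel_right, Real.rpow_natCast]
    exact hb n
  have key := hasSum_mellin (a := a) (p := fun n : ℕ => 2 * Real.pi * n / h) (F := φ) (s := s)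
    (fun n => by
      rcases Nat.eq_zero_or_pos n with hn | hn
      · left; rw [hn, d.zero]
      · right
        have : (0:ℝ) < n := by exact_mod_cast hn
        positivity) hs0 (fun t ht => d.sum t ht) (by
      have h3 := hsum.norm.mul_left ((2 * Real.pi / h) ^ s.re)⁻¹
      refine h3.congr fun n => ?_
      rcases Nat.eq_zero_or_pos n with hn | hn
      · rw [hn]
        simp [LSeries.term, d.zero]
      · rw [LSeries.norm_term_eq, if_neg hn.ne']
        have hn0 : (0:ℝ) < n := by exact_mod_cast hn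
        have e : 2 * Real.pi * n / h = (2 * Real.pi / h) * n := by ring
        rw [e, Real.mul_rpow (by positivity) hn0.le]
        field_simp)
  rw [← key.tsum_eq]
  unfold LSeries
  rw [← tsum_mul_left]
  refine tsum_congr fun n => ?_
  rcases Nat.eq_zero_or_pos n with hn | hn
  · rw [hn]
    simp [LSeries.term, d.zero]
  · rw [LSeries.term_of_ne_zero hn.ne']
    have hn0 : (0:ℝ) < n := by exact_mod_cast hn
    have e : ((2 * Real.pi * n / h : ℝ) : ℂ) = ((h / (2 * Real.pi) : ℝ) : ℂ)⁻¹ * (((n : ℝ) : ℝ) : ℂ) := by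
      push_cast
      field_simp
    have h4 : ((2 * Real.pi * n / h : ℝ) : ℂ) ^ s = (((h / (2 * Real.pi) : ℝ) : ℂ) ^ s)⁻¹ * (n : ℂ) ^ s := by
      rw [e, ← Complex.ofReal_inv, Complex.mul_cpow_ofReal_nonneg (by positivity) hn0.le, Complex.ofReal_inv,
        Complex.inv_cpow]
      · simp
      · rw [Complex.arg_ofReal_of_nonneg (by positivity)]
        exact Real.pi_pos.ne
    rw [h4]
    have h5 : (((h / (2 * Real.pi) : ℝ) : ℂ) ^ s) ≠ 0 := by
      rw [Complex.cpow_def_of_ne_zero (by exact_mod_cast (by positivity : h / (2 * Real.pi) ≠ 0))]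
      exact Complex.exp_ne_zero _
    have h6 : (n : ℂ) ^ s ≠ 0 := by
      rw [Complex.cpow_def_of_ne_zero (by exact_mod_cast hn.ne')]
      exact Complex.exp_ne_zero _
    field_simp

end

end H313.GK
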