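import Pool.Agent.H313R3.GK.P
import Pool.Agent.H313R3.GK.J

/-!
# Hecke data: inverse Dirichlet series and local oscillation
-/

open Complex MeasureTheory Filter Topology Set
open scoped ComplexConjugate

set_option linter.unusedSectionVars false
set_option linter.unusedVariables false
set_option autoImplicit false

namespace H313.GK

noncomputable section

/-- `b` is the Dirichlet inverse of `a` -/
def DInv (a b : ℕ → ℂ) : Prop := ∀ n : ℕ, 1 ≤ n → ∑ p ∈ n.divisorsAntidiagonal, a p.1 * b p.2 = if n = 1 then 1 else 0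

theorem sum_sq_le (N : ℕ) : ∑ d ∈ Finset.Icc 2 (N + 1), (1 / (d:ℝ) ^ 2) ≤ 1 - 1 / (N + 1 : ℝ) := by
  induction N with
  | zero => simp
  | succ N ih =>
    rw [Finset.sum_Icc_succ_top (by omega)]
    have hN0 : (0:ℝ) ≤ N := by positivity
    have h3 : (1 / ((N + 1 + 1 : ℕ):ℝ) ^ 2) ≤ 1 / ((N:ℝ) + 1) - 1 / ((N:ℝ) + 1 + 1) := by
      have h4 : 1 / ((N:ℝ) + 1) - 1 / ((N:ℝ) + 1 + 1) = 1 / (((N:ℝ) + 1) * ((N:ℝ) + 1 + 1)) := by
        field_simp
        ring
      rw [h4]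
      push_cast
      refine one_div_le_one_div_of_le (by positivity) ?_
      nlinarith
    push_cast at h3 ⊢
    linarith

theorem sum_inv_pow (K : ℕ) (N : ℕ) : ∑ d ∈ Finset.Icc 2 N, (1 / (d:ℝ) ^ (K + 2)) ≤ (1 / 2) ^ K := by
  have h1 : ∀ d ∈ Finset.Icc 2 N, (1 / (d:ℝ) ^ (K + 2)) ≤ (1 / 2) ^ K * (1 / (d:ℝ) ^ 2) := by
    intro d hd
    rw [Finset.mem_Icc] at hd
    have hd2 : (2:ℝ) ≤ d := by exact_mod_cast hd.1
    rw [pow_add, one_div, mul_inv, ← one_div, ← one_div]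
    refine mul_le_mul_of_nonneg_right ?_ (by positivity)
    rw [one_div_pow]
    exact one_div_le_one_div_of_le (by positivity) (pow_le_pow_left₀ (by norm_num) hd2 K)
  refine (Finset.sum_le_sum h1).trans ?_
  rw [← Finset.mul_sum]
  have h3 := sum_sq_le N
  have h4 : (0:ℝ) ≤ 1 / (N + 1 : ℝ) := by positivity
  have h5 : ∑ d ∈ Finset.Icc 2 N, (1 / (d:ℝ) ^ 2) ≤ ∑ d ∈ Finset.Icc 2 (N + 1), (1 / (d:ℝ) ^ 2) :=
    Finset.sum_le_sum_of_subset_of_nonneg (Finset.Icc_subset_Icc_right (by omega)) fun _ _ _ => by positivity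
  exact mul_le_of_le_one_right (by positivity) (by linarith)

theorem DInv.one {a b : ℕ → ℂ} (h : DInv a b) (h1 : a 1 = 1) : b 1 = 1 := by
  have := h 1 le_rfl
  simpa [h1] using this

theorem DInv.growth {a b : ℕ → ℂ} (h : DInv a b) (h1 : a 1 = 1) {C : ℝ} {κ : ℕ} (hb : ∀ n, ‖a n‖ ≤ C * (n:ℝ) ^ κ)
    {K : ℕ} (hK : C ≤ 2 ^ K) : ∀ n : ℕ, n ≠ 0 → ‖b n‖ ≤ (n:ℝ) ^ (κ + (K + 2)) := by
  intro n
  induction n using Nat.strong_induction_on with
  | _ n ih =>
    intro hn
    rcases Nat.lt_or_ge 1 n with hn1 | hn1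
    swap
    · have : n = 1 := by omega
      rw [this, h.one h1]
      simp
    have hn0 : (0:ℝ) < n := by exact_mod_cast (by omega : 0 < n)
    have h2 := h n (by omega)
    rw [if_neg (by omega), Nat.sum_divisorsAntidiagonal (fun i j => a i * b j),
      ← Finset.add_sum_erase _ _ (Nat.one_mem_divisors.2 hn), h1, one_mul, Nat.div_one] at h2
    have h3 : b n = -∑ d ∈ n.divisors.erase 1, a d * b (n / d) := by linear_combination h2
    rw [h3, norm_neg]
    have hC0 : 0 ≤ C := by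
      have := hb 1
      rw [h1] at this
      simp at this
      linarith
    have h4 : ∀ d ∈ n.divisors.erase 1, ‖a d * b (n / d)‖ ≤ C * (n:ℝ) ^ (κ + (K + 2)) * (1 / (d:ℝ) ^ (K + 2)) := by
      intro d hd
      rw [Finset.mem_erase, Nat.mem_divisors] at hd
      obtain ⟨hd1, hd2, -⟩ := hd
      have hd0 : 0 < d := Nat.pos_of_dvd_of_pos hd2 (by omega)
      have hd3 : 1 < d := by omega
      have hdr : (0:ℝ) < d := by exact_mod_cast hd0
      have h5 := ih (n / d) (Nat.div_lt_self (by omega) hd3) (by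
        have := Nat.div_pos (Nat.le_of_dvd (by omega) hd2) hd0
        omega)
      rw [norm_mul]
      have h6 : ((n / d : ℕ) : ℝ) = n / d := Nat.cast_div hd2 hdr.ne'
      rw [h6] at h5
      calc ‖a d‖ * ‖b (n / d)‖ ≤ (C * (d:ℝ) ^ κ) * ((n:ℝ) / d) ^ (κ + (K + 2)) :=
            mul_le_mul (hb d) h5 (norm_nonneg _) (by positivity)
        _ = _ := by
            rw [div_pow, pow_add (d:ℝ)]
            field_simp
    calc ‖∑ d ∈ n.divisors.erase 1, a d * b (n / d)‖ ≤ ∑ d ∈ n.divisors.erase 1, C * (n:ℝ) ^ (κ + (K + 2)) * (1 / (d:ℝ) ^ (K + 2)) :=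
          (norm_sum_le _ _).trans (Finset.sum_le_sum h4)
      _ ≤ ∑ d ∈ Finset.Icc 2 n, C * (n:ℝ) ^ (κ + (K + 2)) * (1 / (d:ℝ) ^ (K + 2)) := by
          refine Finset.sum_le_sum_of_subset_of_nonneg (fun d hd => ?_) fun _ _ _ => by positivity
          rw [Finset.mem_erase, Nat.mem_divisors] at hd
          rw [Finset.mem_Icc]
          have h5 := Nat.pos_of_dvd_of_pos hd.2.1 (by omega)
          exact ⟨by omega, Nat.le_of_dvd (by omega) hd.2.1⟩
      _ = C * (n:ℝ) ^ (κ + (K + 2)) * ∑ d ∈ Finset.Icc 2 n, (1 / (d:ℝ) ^ (K + 2)) := by rw [Finset.mul_sum]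
      _ ≤ C * (n:ℝ) ^ (κ + (K + 2)) * (1 / 2) ^ K := mul_le_mul_of_nonneg_left (sum_inv_pow K n) (by positivity)
      _ = (C * (1 / 2) ^ K) * (n:ℝ) ^ (κ + (K + 2)) := by ring
      _ ≤ 1 * (n:ℝ) ^ (κ + (K + 2)) := by
          refine mul_le_mul_of_nonneg_right ?_ (by positivity)
          calc C * (1 / 2) ^ K ≤ 2 ^ K * (1 / 2) ^ K := mul_le_mul_of_nonneg_right hK (by positivity)
            _ = 1 := by rw [← mul_pow]; norm_num
      _ = _ := one_mul _

theorem DInv.lser {a b : ℕ → ℂ} (h : DInv a b) {s : ℂ} (ha : LSeriesSummable a s) (hb : LSeriesSummable b s) :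
    LSeries a s * LSeries b s = 1 := by
  rw [← LSeries_convolution' ha hb]
  have h1 : LSeries (LSeries.convolution a b) s = LSeries LSeries.delta s := by
    refine LSeries_congr (fun {n} hn => ?_) s
    rw [LSeries.convolution_def]
    show ∑ p ∈ n.divisorsAntidiagonal, a p.1 * b p.2 = _
    rw [h n (by omega)]
    rfl
  rw [h1, LSeries_delta]
  rfl

variable {k h : ℝ} {ε : ℝ} {a : ℕ → ℂ} {φ : ℝ → ℂ}

theorem HD.phi_real (d : HD k h ε a φ) {y : ℝ} (hy : 0 < y) : conj (φ y) = φ y := by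
  have h1 := d.sum y hy
  have h2 := Complex.hasSum_conj'.2 h1
  refine h2.unique ?_
  convert! h1 using 2 with n
  rw [map_mul, d.real, Complex.conj_ofReal]

theorem HD.conj_L (d : HD k h ε a φ) (s : ℂ) : mellin φ (conj s) = conj (mellin φ s) := by
  unfold mellin
  rw [← integral_conj]
  refine setIntegral_congr_fun measurableSet_Ioi fun t ht => ?_
  have ht0 : 0 < t := ht
  simp only [smul_eq_mul, map_mul]
  rw [d.phi_real ht0]
  congr 1
  have h1 : conj s - 1 = conj (s - 1) := by simp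
  rw [h1, Complex.cpow_conj _ _ (by rw [Complex.arg_ofReal_of_nonneg ht0.le]; exact Real.pi_pos.ne), Complex.conj_ofReal]

theorem HD.kp (d : HD k h ε a φ) : KP 1 (mellin φ) := by
  obtain ⟨C, κ, hC, hb⟩ := d.bound
  have hk := d.kpos
  have hh := d.hpos
  have hpi := Real.pi_pos
  have hκ0 : (0:ℝ) ≤ κ := by positivity
  set σ₁ : ℝ := κ + 2 + k with hσ₁
  have hsum : LSeriesSummable a (σ₁ : ℂ) := by
    refine LSeriesSummable_of_le_const_mul_rpow (x := κ + 1) (by simp [hσ₁]; linarith) ⟨C, fun n hn => ?_⟩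
    rw [add_sub_cancel_right, Real.rpow_natCast]
    exact hb n
  set D : ℝ := ∑' n, ‖LSeries.term a (σ₁ : ℂ) n‖ with hD
  have hD0 : 0 ≤ D := tsum_nonneg fun _ => norm_nonneg _
  have hLD : ∀ s : ℂ, σ₁ ≤ s.re → ‖LSeries a s‖ ≤ D := by
    intro s hs
    refine tsum_of_norm_bounded hsum.norm.hasSum fun n => ?_
    exact LSeries.norm_term_le_of_re_le_re a (by simpa using hs) n
  refine KP_of (b := 1) one_pos d.diff (σ₁ := σ₁) (w := k) hk.le (by linarith) (by linarith) (fun j => ?_)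
    ⟨0, le_rfl, fun s => ?_⟩ fun p q => ?_
  · set G : ℝ := |Real.log (h / (2 * Real.pi))| with hG
    have hG0 : 0 ≤ G := abs_nonneg _
    set R : ℝ := ((j + 1 : ℕ) : ℝ) with hR
    have hR0 : 0 ≤ R := by rw [hR]; positivity
    refine ⟨G + D + 3 ^ (j + 1) + (R + (1 / 1 + R) * (1 / 1 + R)), by positivity, fun s hs => ?_⟩
    have hs0 : 0 ≤ s.re := by linarith
    have hs1 : 1 ≤ s.re := by linarith
    have him := abs_nonneg s.im
    rw [abs_of_nonneg hs0, d.dir hb (by linarith), norm_mul, norm_mul]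
    have h1 : ‖((h / (2 * Real.pi) : ℝ) : ℂ) ^ s‖ ≤ Real.exp (G * s.re) := by
      rw [Complex.norm_cpow_eq_rpow_re_of_pos (by positivity), Real.rpow_def_of_pos (by positivity)]
      exact Real.exp_le_exp.2 (mul_le_mul_of_nonneg_right (le_abs_self _) hs0)
    have h2 := gam s (by linarith) (j + 1) (by omega)
    have h2' : (1 + |s.im|) ^ j ≤ (1 + |s.im|) ^ (j + 1) := pow_le_pow_right₀ (by linarith) (by omega)
    have h3 := pow_self_le (σ := s.re) (x := s.re + (j + 1 : ℕ)) (R := R) (b := 1) one_pos hs0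
      (by have : (0:ℝ) ≤ ((j + 1 : ℕ) : ℝ) := by positivity
          linarith) hR0 (by rw [div_one])
    have h4 : D ≤ Real.exp D := (by linarith : D ≤ D + 1).trans (Real.add_one_le_exp _)
    have h5 : (3:ℝ) ^ (j + 1) ≤ Real.exp (3 ^ (j + 1)) :=
      (by linarith : (3:ℝ) ^ (j + 1) ≤ 3 ^ (j + 1) + 1).trans (Real.add_one_le_exp _)
    set E := (R + (1 / 1 + R) * (1 / 1 + R)) with hE
    have hE0 : 0 ≤ E := by positivity
    calc ‖((h / (2 * Real.pi) : ℝ) : ℂ) ^ s‖ * ‖Complex.Gamma s‖ * ‖LSeries a s‖ * (1 + |s.im|) ^ j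
        = ‖((h / (2 * Real.pi) : ℝ) : ℂ) ^ s‖ * ‖LSeries a s‖ * (‖Complex.Gamma s‖ * (1 + |s.im|) ^ j) := by ring
      _ ≤ Real.exp (G * s.re) * Real.exp D * (Real.exp (3 ^ (j + 1)) *
            Real.exp (E * (1 + s.re) + s.re * Real.log (1 + s.re) / 1)) := by
          refine mul_le_mul (mul_le_mul h1 ((hLD s hs).trans h4) (norm_nonneg _) (Real.exp_pos _).le) ?_ (by positivity)
            (by positivity)
          refine (mul_le_mul_of_nonneg_left h2' (norm_nonneg _)).trans (h2.trans ?_)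
          refine mul_le_mul h5 h3 ?_ (Real.exp_pos _).le
          have : 0 ≤ s.re + ((j + 1 : ℕ) : ℝ) := by positivity
          exact Real.rpow_nonneg this _
      _ ≤ _ := by
          rw [← Real.exp_add, ← Real.exp_add, ← Real.exp_add]
          refine Real.exp_le_exp.2 ?_
          have h6 : 0 ≤ D * s.re := by positivity
          have h7 : 0 ≤ (3:ℝ) ^ (j + 1) * s.re := by positivity
          nlinarith
  · rw [zero_mul, Real.exp_zero, one_mul, d.fe' (conj s), d.conj_L, norm_mul, RCLike.norm_conj]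
    have : ‖(ε : ℂ)‖ = 1 := by
      rcases d.sgn with h | h <;> rw [h] <;> simp
    rw [this, one_mul]
  · obtain ⟨M, hM, hb2⟩ := d.strip p q
    refine ⟨M, fun s h1 h2 => (hb2 s h1 h2).trans ?_⟩
    have h3 : M ≤ Real.exp M := (by linarith : M ≤ M + 1).trans (Real.add_one_le_exp _)
    refine h3.trans (Real.exp_le_exp.2 ?_)
    have := abs_nonneg s.im
    nlinarith

/-- **Every zero is visible in every window.** -/
theorem HD.osc (d : HD k h ε a φ) {b : ℕ → ℂ} (hab : DInv a b) {B : ℝ} (hB : 2 < B) {ρ : ℂ} (hρ : 0 < ρ.re)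
    {r : ℕ} (hr1 : 1 ≤ r) (hr : (r : ℕ∞) ≤ analyticOrderAt (mellin φ) ρ) :
    ∃ c : ℝ, 0 < c ∧ ∀ᶠ x : ℝ in atTop, ∃ y ∈ Icc x (x * Real.log x ^ B),
      c * (y ^ ρ.re * Real.log y ^ (r - 1)) ≤ ‖SM b y‖ := by
  obtain ⟨C, κ, hC, hb⟩ := d.bound
  obtain ⟨K, hK⟩ := pow_unbounded_of_one_lt C (one_lt_two)
  have hg := hab.growth d.one hb hK.le
  set A : ℕ := κ + (K + 2) with hA
  have hh := d.hpos
  have hpi := Real.pi_pos
  have hB0 : 0 < B := by linarith
  refine window_x hB0 (r - 1) ?_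
  have ha0 : (0:ℝ) ≤ A := by positivity
  have hf : ∀ n : ℕ, n ≠ 0 → ‖b n‖ ≤ (n : ℝ) ^ (A : ℝ) := fun n hn => by
    rw [Real.rpow_natCast]
    exact hg n hn
  set c : ℝ := max (A + 2) (ρ.re + 1) with hc
  have hc1 : (A:ℝ) + 2 ≤ c := le_max_left _ _
  have hc2 : ρ.re + 1 ≤ c := le_max_right _ _
  have hκA : (κ:ℝ) ≤ A := by
    rw [hA]
    exact_mod_cast Nat.le_add_right _ _
  set H : ℝ := h / (2 * Real.pi) with hH
  have hH0 : 0 < H := by positivity
  have hHc : (H : ℂ) ≠ 0 := by exact_mod_cast hH0.ne'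
  set g : ℂ → ℂ := fun s => (H : ℂ) ^ s * Complex.Gamma (s + 1) / s ^ 2 with hg'
  obtain ⟨Cg, hCg⟩ : ∃ Cg : ℝ, ∀ s : ℂ, ρ.re / 2 ≤ s.re → s.re ≤ c → ‖g s‖ ≤ Cg * (1 + s.im ^ 2)⁻¹ := by
    set G : ℝ := |Real.log H| with hG
    set Y : ℝ := c + 3 with hY
    refine ⟨Real.exp (G * c) * (3 ^ 2 * Y ^ Y) / (ρ.re / 2) ^ 2, fun s h1 h2 => ?_⟩
    have hs0 : 0 < s.re := by linarith
    have hY0 : 0 < Y := by linarith
    have him := abs_nonneg s.im
    have h3 : ‖(H : ℂ) ^ s‖ ≤ Real.exp (G * c) := by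
      rw [Complex.norm_cpow_eq_rpow_re_of_pos hH0, Real.rpow_def_of_pos hH0]
      refine Real.exp_le_exp.2 ?_
      calc Real.log H * s.re ≤ G * s.re := mul_le_mul_of_nonneg_right (le_abs_self _) hs0.le
        _ ≤ G * c := mul_le_mul_of_nonneg_left h2 (abs_nonneg _)
    have h4 := gam (s + 1) (by simp; linarith) 2 (by norm_num)
    have e1 : (s + 1).re = s.re + 1 := by simp
    have e2 : (s + 1).im = s.im := by simp
    rw [e1, e2] at h4
    have h5 : (s.re + 1 + (2:ℕ)) ^ (s.re + 1 + (2:ℕ)) ≤ Y ^ Y := by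
      have h6 : s.re + 1 + ((2:ℕ):ℝ) ≤ Y := by
        rw [hY]
        norm_num
        linarith
      have h7 : 1 ≤ s.re + 1 + ((2:ℕ):ℝ) := by
        norm_num
        linarith
      calc (s.re + 1 + (2:ℕ)) ^ (s.re + 1 + (2:ℕ)) ≤ Y ^ (s.re + 1 + (2:ℕ)) :=
            Real.rpow_le_rpow (by linarith) h6 (by linarith)
        _ ≤ _ := Real.rpow_le_rpow_of_exponent_le (by linarith) h6
    have hns : ρ.re / 2 ≤ ‖s‖ := h1.trans (Complex.re_le_norm s)
    rw [← div_eq_mul_inv, le_div_iff₀ (by positivity)]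
    simp only [hg']
    rw [norm_div, norm_mul, norm_pow, div_mul_eq_mul_div]
    refine div_le_div₀ (by positivity) ?_ (by positivity) (pow_le_pow_left₀ (by positivity) hns 2)
    rw [mul_assoc]
    refine mul_le_mul h3 ?_ (by positivity) (by positivity)
    refine (mul_le_mul_of_nonneg_left (sq_le_two s.im) (norm_nonneg _)).trans (h4.trans ?_)
    exact mul_le_mul_of_nonneg_left h5 (by positivity)
  have hGd : ∀ s : ℂ, 0 < s.re → DifferentiableAt ℂ Complex.Gamma (s + 1) := fun s hs =>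
    Complex.differentiableAt_Gamma _ fun m hm => by
      have := congrArg Complex.re hm
      simp at this
      have : (0:ℝ) ≤ m := by positivity
      linarith
  refine main (F := fun u => SM b (Real.exp u)) (σ := ρ.re / 2) (c := c) (c₁ := A + 1) (Cg := Cg) (g := g)
    one_pos hB0 (by rw [one_mul]; exact hB) d.kp hr1 hr hρ.le (by linarith) (by linarith) (by linarith)
    ((SM_meas _).comp Real.measurable_exp) (fun u hu => ?_) ⟨1, zero_le_one, SM_bd ha0 hf⟩ (fun τ => ?_) (fun s h1 h2 => ?_)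
    hCg ?_
  · have h4 : ⌊Real.exp u⌋₊ = 0 := Nat.floor_eq_zero.2 (by rw [← Real.exp_zero]; exact Real.exp_lt_exp.2 hu)
    simp only [SM]
    rw [h4]
    simp
  · set s : ℂ := vl c τ with hs
    have hsre : s.re = c := by rw [hs]; simp
    have hs0 : 0 < s.re := by rw [hsre]; linarith
    have h1 := trans_F ha0 hf (s := s) (by rw [hsre]; linarith)
    have h2 : ∫ u : ℝ, SM b (Real.exp u) * cexp (-s * u) = LSeries b s / s := h1
    have hsa : LSeriesSummable a s := by
      refine LSeriesSummable_of_le_const_mul_rpow (x := κ + 1) (by rw [hsre]; linarith) ⟨C, fun n hn => ?_⟩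
      rw [add_sub_cancel_right, Real.rpow_natCast]
      exact hb n
    have hsb : LSeriesSummable b s := by
      refine LSeriesSummable_of_le_const_mul_rpow (x := A + 1) (by rw [hsre]; linarith) ⟨1, fun n hn => ?_⟩
      rw [add_sub_cancel_right, one_mul]
      exact hf n hn
    have h3 := hab.lser hsa hsb
    have hsne : s ≠ 0 := by
      rintro h0
      rw [h0] at hs0
      simp at hs0
    rw [h2, d.dir hb (by rw [hsre]; linarith)]
    simp only [hg']
    rw [Complex.Gamma_add_one s hsne]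
    have e : (H : ℂ) ^ s * Complex.Gamma s * LSeries a s * (LSeries b s / s) =
        (H : ℂ) ^ s * Complex.Gamma s * (LSeries a s * LSeries b s) / s := by ring
    rw [e, h3]
    field_simp
  · have hs0 : 0 < s.re := by linarith
    have hsne : s ≠ 0 := by
      rintro rfl
      simp at hs0
    simp only [hg']
    refine DifferentiableAt.div (DifferentiableAt.mul ?_ ?_) (by fun_prop) (pow_ne_zero _ hsne)
    · exact (differentiableAt_id).const_cpow (Or.inl hHc)
    · exact DifferentiableAt.comp (g := Complex.Gamma) (f := fun z : ℂ => z + 1) s (hGd s hs0) (by fun_prop)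
  · have hρne : ρ ≠ 0 := by
      rintro rfl
      simp at hρ
    simp only [hg']
    refine div_ne_zero (mul_ne_zero ?_ ?_) (pow_ne_zero _ hρne)
    · rw [Complex.cpow_def_of_ne_zero hHc]
      exact Complex.exp_ne_zero _
    · exact Complex.Gamma_ne_zero_of_re_pos (by simp; linarith)

theorem HD.refl (d : HD k h ε a φ) {ρ : ℂ} (hz : mellin φ ρ = 0) : mellin φ (k - ρ) = 0 := by
  rw [d.fe' ρ, hz, mul_zero]

/-- sparse windows: no zeros off the line, multiplicities at most `j` -/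
theorem HD.crit (d : HD k h ε a φ) {b : ℕ → ℂ} (hab : DInv a b) {B : ℝ} (hB : 2 < B) (j : ℕ) (hj : 1 ≤ j)
    (H : ∀ ε' : ℝ, 0 < ε' → ∃ᶠ x : ℝ in atTop, ∀ y ∈ Icc x (x * Real.log x ^ B),
      ‖SM b y‖ ≤ ε' * (y ^ (k / 2) * Real.log y ^ j)) (ρ : ℂ) (hz : mellin φ ρ = 0) :
    ρ.re = k / 2 ∧ analyticOrderAt (mellin φ) ρ ≤ j := by
  have hk := d.kpos
  have key : ∀ ρ : ℂ, mellin φ ρ = 0 → ρ.re ≤ k / 2 := by
    intro ρ hz
    by_contra hcon
    push Not at hcon
    obtain ⟨c, hc, hev⟩ := d.osc hab hB (ρ := ρ) (by linarith) le_rfl (order_one d.diff hz)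
    obtain ⟨Y, hY⟩ := eventually_atTop.mp (H313.TK.log_pow_lt c (ρ.re - k / 2) hc (by linarith) j)
    obtain ⟨x, hx1, hx2, hx3, hx4⟩ := ((H 1 one_pos).and_eventually (hev.and
      ((eventually_ge_atTop Y).and (eventually_ge_atTop 1)))).exists
    obtain ⟨y, hy, hy2⟩ := hx2
    have h5 := hx1 y hy
    have hy0 : 0 < y := by linarith [hy.1]
    have h6 := hY y (hx3.trans hy.1)
    have h7 : y ^ (k / 2) * y ^ (ρ.re - k / 2) = y ^ ρ.re := by
      rw [← Real.rpow_add hy0]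
      congr 1
      ring
    have h8 := Real.rpow_pos_of_pos hy0 (k / 2)
    have h9 : y ^ (k / 2) * Real.log y ^ j < c * y ^ ρ.re := by
      calc y ^ (k / 2) * Real.log y ^ j < y ^ (k / 2) * (c * y ^ (ρ.re - k / 2)) := mul_lt_mul_of_pos_left h6 h8
        _ = c * (y ^ (k / 2) * y ^ (ρ.re - k / 2)) := by ring
        _ = _ := by rw [h7]
    rw [Nat.sub_self, pow_zero, mul_one] at hy2
    linarith
  have hle := key ρ hz
  have hge := key (k - ρ) (d.refl hz)
  have hre : ρ.re = k / 2 := by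
    simp at hge
    linarith
  refine ⟨hre, ?_⟩
  by_contra hcon
  push Not at hcon
  have hm' : ((j + 1 : ℕ) : ℕ∞) ≤ analyticOrderAt (mellin φ) ρ := by
    push_cast
    exact Order.add_one_le_of_lt hcon
  obtain ⟨c, hc, hev⟩ := d.osc hab hB (ρ := ρ) (by linarith) (by omega) hm'
  obtain ⟨x, hx1, hx2, hx3⟩ := ((H (c / 2) (by positivity)).and_eventually (hev.and (eventually_gt_atTop (1:ℝ)))).exists
  obtain ⟨y, hy, hy2⟩ := hx2
  have h5 := hx1 y hy
  have hy1 : 1 < y := hx3.trans_le hy.1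
  have h6 : 0 < Real.log y := Real.log_pos hy1
  have h7 : 0 < y ^ (k / 2) := Real.rpow_pos_of_pos (by linarith) _
  rw [hre, Nat.add_sub_cancel] at hy2
  have h8 : 0 < c * (y ^ (k / 2) * Real.log y ^ j) := by positivity
  linarith

/-- sparse windows: power saving -/
theorem HD.crit_pow (d : HD k h ε a φ) {b : ℕ → ℂ} (hab : DInv a b) {B : ℝ} (hB : 2 < B) {dl : ℝ} (hdl : k / 2 ≤ dl)
    (H : ∀ ε' : ℝ, 0 < ε' → ∃ᶠ x : ℝ in atTop, ∀ y ∈ Icc x (x * Real.log x ^ B),
      ‖SM b y‖ ≤ y ^ (dl + ε')) (ρ : ℂ) (hz : mellin φ ρ = 0) : k - dl ≤ ρ.re ∧ ρ.re ≤ dl := by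
  have hk := d.kpos
  have key : ∀ ρ : ℂ, mellin φ ρ = 0 → ρ.re ≤ dl := by
    intro ρ hz
    by_contra hcon
    push Not at hcon
    obtain ⟨c, hc, hev⟩ := d.osc hab hB (ρ := ρ) (by linarith) le_rfl (order_one d.diff hz)
    set ε' : ℝ := (ρ.re - dl) / 2 with hε'
    have hε0 : 0 < ε' := by rw [hε']; linarith
    obtain ⟨Y, hY⟩ := eventually_atTop.mp (H313.TK.log_pow_lt c ε' hc hε0 0)
    obtain ⟨x, hx1, hx2, hx3, hx4⟩ := ((H ε' hε0).and_eventually (hev.and
      ((eventually_ge_atTop Y).and (eventually_ge_atTop 1)))).exists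
    obtain ⟨y, hy, hy2⟩ := hx2
    have h5 := hx1 y hy
    have hy0 : 0 < y := by linarith [hy.1]
    have h6 := hY y (hx3.trans hy.1)
    rw [pow_zero] at h6
    have h7 : y ^ (dl + ε') * y ^ ε' = y ^ ρ.re := by
      rw [← Real.rpow_add hy0]
      congr 1
      rw [hε']
      ring
    have h8 := Real.rpow_pos_of_pos hy0 (dl + ε')
    rw [Nat.sub_self, pow_zero, mul_one] at hy2
    have h9 : y ^ (dl + ε') < c * y ^ ρ.re := by
      calc y ^ (dl + ε') = y ^ (dl + ε') * 1 := (mul_one _).symm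
        _ < y ^ (dl + ε') * (c * y ^ ε') := mul_lt_mul_of_pos_left h6 h8
        _ = c * (y ^ (dl + ε') * y ^ ε') := by ring
        _ = _ := by rw [h7]
    linarith
  have hle := key ρ hz
  have hge := key (k - ρ) (d.refl hz)
  simp at hge
  exact ⟨by linarith, hle⟩

end

end H313.GK
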