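import Pool.Agent.H313R3.GK.Q

/-!
# Weight two forms of level `N` with real coefficients and a Fricke sign
-/

set_option linter.unusedSectionVars false
set_option linter.unusedVariables false
set_option autoImplicit false

namespace H313.GK

open Complex Filter Topology UpperHalfPlane MatrixGroups ModularForm CongruenceSubgroup
open scoped ComplexConjugate

noncomputable section

/-- `f` is normalised, has real Fourier coefficients and is an eigenfunction of the Fricke
involution. -/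
structure IsNorm (N : ℕ) (f : CuspForm (Gamma0 N : Subgroup (GL (Fin 2) ℝ)) 2) (ε : ℝ) : Prop where
  one : (qExpansion 1 f).coeff 1 = 1
  real : ∀ n, ((qExpansion 1 f).coeff n).im = 0
  sign : ε = 1 ∨ ε = -1
  fricke : ∀ τ τ' : ℍ, (τ' : ℂ) * ((N : ℂ) * (τ : ℂ)) = -1 →
    f τ' = -(ε : ℂ) * (N : ℂ) * (τ : ℂ) ^ 2 * f τ

variable {N : ℕ} [NeZero N] (f : CuspForm (Gamma0 N : Subgroup (GL (Fin 2) ℝ)) 2)

theorem one_mem0 : (1 : ℝ) ∈ (Gamma0 N : Subgroup (GL (Fin 2) ℝ)).strictPeriods := by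
  rw [strictPeriods_Gamma0]
  exact AddSubgroup.mem_zmultiples 1

theorem sum_iy0 (y : ℝ) (hy : 0 < y) :
    HasSum (fun m : ℕ => (qExpansion 1 f).coeff m *
      ((Real.exp (-(2 * Real.pi * (m : ℝ) * y)) : ℝ) : ℂ)) (f (ofComplex (Complex.I * y))) := by
  have h := ModularForm.hasSum_qExpansion (Γ := (Gamma0 N : Subgroup (GL (Fin 2) ℝ))) (k := 2) f one_pos
    one_mem0 (ofComplex (Complex.I * y))
  have him : 0 < (Complex.I * (y : ℂ)).im := by simpa using hy
  convert h using 2 with m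
  congr 1
  rw [ofComplex_apply_of_im_pos him]
  unfold Function.Periodic.qParam
  rw [← Complex.exp_nat_mul]
  simp only
  push_cast
  congr 1
  have hI : Complex.I ^ 2 = -1 := Complex.I_sq
  linear_combination (-(2 * Real.pi * m * y) : ℂ) * hI

theorem coeff_zero0 : (qExpansion 1 f).coeff 0 = 0 := by
  rw [CuspFormClass.qExpansion_coeff_zero (Γ := (Gamma0 N : Subgroup (GL (Fin 2) ℝ))) (k := 2) f one_pos
    one_mem0]

theorem coeff_bound0 : ∃ B : ℝ, 0 ≤ B ∧ ∀ m : ℕ, ‖(qExpansion 1 f).coeff m‖ ≤ B * (m : ℝ) ^ 1 := by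
  have h := CuspFormClass.qExpansion_isBigO (k := 2) (Γ := (Gamma0 N : Subgroup (GL (Fin 2) ℝ))) f
  rw [strictWidthInfty_Gamma0] at h
  have e2 : (((2 : ℤ) : ℝ) / 2) = 1 := by norm_num
  rw [e2] at h
  obtain ⟨C, hC⟩ := h.bound
  obtain ⟨M, hM⟩ := eventually_atTop.1 hC
  set S : ℝ := ∑ m ∈ Finset.range M, ‖(qExpansion 1 f).coeff m‖ / (m : ℝ) ^ (1 : ℝ) with hS
  have hS0 : 0 ≤ S := Finset.sum_nonneg fun m _ => by positivity
  refine ⟨1 + |C| + S, by have := abs_nonneg C; linarith, ?_⟩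
  intro m
  rcases Nat.eq_zero_or_pos m with hm | hm
  · rw [hm, coeff_zero0]
    simp
  rw [← Real.rpow_one (m : ℝ), ← Real.rpow_natCast, Nat.cast_one, Real.rpow_one]
  have hm0 : (0 : ℝ) < m := by exact_mod_cast hm
  have hp : 0 < (m : ℝ) ^ (1 : ℝ) := Real.rpow_pos_of_pos hm0 _
  rcases lt_or_ge m M with hlt | hge
  · have h1 : ‖(qExpansion 1 f).coeff m‖ / (m : ℝ) ^ (1 : ℝ) ≤ S :=
      Finset.single_le_sum (f := fun m : ℕ => ‖(qExpansion 1 f).coeff m‖ / (m : ℝ) ^ (1 : ℝ))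
        (fun i _ => by positivity) (Finset.mem_range.2 hlt)
    rw [div_le_iff₀ hp] at h1
    refine h1.trans ?_
    gcongr
    have := abs_nonneg C
    linarith
  · have h1 := hM m hge
    rw [Real.norm_eq_abs, abs_of_pos hp] at h1
    refine h1.trans ?_
    gcongr
    have := le_abs_self C
    linarith

theorem IsNorm.hd {ε : ℝ} (hf : IsNorm N f ε) :
    HD 2 (Real.sqrt N) ε (fun n => (qExpansion 1 f).coeff n)
      (fun y => f (ofComplex (Complex.I * ((y / Real.sqrt N : ℝ) : ℂ)))) := by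
  obtain ⟨B, hB1, hB⟩ := coeff_bound0 f
  have hN : (0 : ℝ) < N := by exact_mod_cast Nat.pos_of_ne_zero (NeZero.ne N)
  have hsN : 0 < Real.sqrt N := Real.sqrt_pos.2 hN
  refine ⟨two_pos, hsN, hf.sign, coeff_zero0 f, hf.one, fun n => ?_, ⟨B, 1, hB1, hB⟩, fun y hy => ?_, fun y hy => ?_⟩
  · apply Complex.ext
    · simp
    · simp [hf.real n]
  · have hy' : 0 < y / Real.sqrt N := div_pos hy hsN
    have h := sum_iy0 f (y / Real.sqrt N) hy'
    convert! h using 4 with n
    ring_nf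
  · have hy1 : 0 < y / Real.sqrt N := div_pos hy hsN
    have hy2 : 0 < 1 / y / Real.sqrt N := by positivity
    have him1 : 0 < (Complex.I * ((y / Real.sqrt N : ℝ) : ℂ)).im := by
      rw [Complex.I_mul_im, Complex.ofReal_re]
      exact hy1
    have him2 : 0 < (Complex.I * ((1 / y / Real.sqrt N : ℝ) : ℂ)).im := by
      rw [Complex.I_mul_im, Complex.ofReal_re]
      exact hy2
    have hsq : (Real.sqrt N : ℂ) ^ 2 = N := by
      have : Real.sqrt N ^ 2 = N := Real.sq_sqrt hN.le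
      exact_mod_cast this
    have hsqne : (Real.sqrt N : ℂ) ≠ 0 := by exact_mod_cast hsN.ne'
    have hyc : (y : ℂ) ≠ 0 := by exact_mod_cast hy.ne'
    have h1 := hf.fricke (ofComplex (Complex.I * ((y / Real.sqrt N : ℝ) : ℂ)))
      (ofComplex (Complex.I * ((1 / y / Real.sqrt N : ℝ) : ℂ))) (by
        rw [ofComplex_apply_of_im_pos him1, ofComplex_apply_of_im_pos him2]
        simp only
        push_cast
        rw [← hsq]
        have hI : Complex.I ^ 2 = -1 := Complex.I_sq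
        field_simp
        exact hI)
    show f (ofComplex (Complex.I * ((1 / y / Real.sqrt N : ℝ) : ℂ))) =
      (ε : ℂ) * ((y ^ (2:ℝ) : ℝ) : ℂ) * f (ofComplex (Complex.I * ((y / Real.sqrt N : ℝ) : ℂ)))
    rw [h1]
    rw [ofComplex_apply_of_im_pos him1]
    have e1 : -(ε : ℂ) * (N : ℂ) * (Complex.I * ((y / Real.sqrt N : ℝ) : ℂ)) ^ 2 =
        (ε : ℂ) * ((y ^ (2 : ℝ) : ℝ) : ℂ) := by
      have e3 : (y : ℝ) ^ (2 : ℝ) = y ^ (2 : ℕ) := by norm_cast
      rw [e3]
      push_cast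
      rw [mul_pow, Complex.I_sq, div_pow, hsq]
      have hNc : (N : ℂ) ≠ 0 := by exact_mod_cast NeZero.ne N
      field_simp
    simp only
    rw [e1]

/-- the Dirichlet inverse, by recursion -/
def dinv (a : ℕ → ℂ) (n : ℕ) : ℂ :=
  if n ≤ 1 then 1 else -∑ d ∈ n.properDivisors.attach, a (n / d.1) * dinv a d.1
termination_by n
decreasing_by exact (Nat.mem_properDivisors.1 d.2).2

theorem exists_dinv (a : ℕ → ℂ) (h1 : a 1 = 1) : ∃ b : ℕ → ℂ, DInv a b := by
  refine ⟨dinv a, fun n hn => ?_⟩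
  rcases Nat.lt_or_ge 1 n with hn1 | hn1
  · rw [if_neg (by omega), Nat.sum_divisorsAntidiagonal' (fun i j => a i * dinv a j),
      ← Nat.cons_self_properDivisors (by omega : n ≠ 0), Finset.sum_cons, Nat.div_self (by omega), h1, one_mul]
    have h2 : dinv a n = -∑ d ∈ n.properDivisors.attach, a (n / d.1) * dinv a d.1 := by
      rw [dinv, if_neg (by omega)]
    rw [h2, Finset.sum_attach n.properDivisors (fun d => a (n / d) * dinv a d)]
    ring
  · have h3 : n = 1 := by omega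
    have h4 : dinv a 1 = 1 := by rw [dinv, if_pos le_rfl]
    rw [h3, if_pos rfl]
    simp [h1, h4]

end

end H313.GK
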