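import Pool.Agent.H313R3.GK.E

/-!
# Positive kernels: one-sided oscillation
-/

open Complex MeasureTheory Filter Topology Set

set_option linter.unusedSectionVars false
set_option linter.unusedVariables false
set_option autoImplicit false

namespace H313.GK

open H313.TK (Ist norm_tw norm_tw' prim_cont int_exp_abs)

noncomputable section

/-- a positive kernel with transform `Φ` and regular tails -/
structure PK (b : ℝ) (Φ : ℂ → ℂ) (K : ℝ → ℝ) : Prop where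
  kp : KP b Φ
  inv : ∀ c v : ℝ, Inv Φ c v = (K v : ℂ)
  pos : ∀ v, 0 < K v
  tail : ∀ A : ℝ, ∃ C : ℝ, 0 ≤ C ∧ ∀ v z : ℝ, (z ≤ v ∧ v ≤ 0) ∨ (0 ≤ v ∧ v ≤ z) →
    K z ≤ C * K v * Real.exp (-(A * |v - z|))

/-- domination by `K` -/
structure Dom (K : ℝ → ℝ) (f : ℝ → ℂ) : Prop where
  cont : Continuous f
  bd : ∃ D : ℝ, 0 ≤ D ∧ ∀ v, ‖f v‖ ≤ D * K v

theorem dv_zero {b : ℝ} (hb : 0 < b) {Φ : ℂ → ℂ} (h : KP b Φ) (ρ : ℂ) {m j : ℕ}
    (hm : (m : ℕ∞) ≤ analyticOrderAt Φ ρ) (hj : j < m) : dv ρ Φ j ρ = 0 := by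
  obtain ⟨hK, hform⟩ := dv_KP hb h ρ m hm j hj.le
  obtain ⟨hK', hform'⟩ := dv_KP hb h ρ m hm (j + 1) hj
  have c1 : Tendsto (dv ρ Φ j) (𝓝[≠] ρ) (𝓝 (dv ρ Φ j ρ)) :=
    (hK.diff.continuous.continuousAt).tendsto.mono_left nhdsWithin_le_nhds
  have c2 : Tendsto (fun s : ℂ => (s - ρ) * dv ρ Φ (j + 1) s) (𝓝[≠] ρ) (𝓝 0) := by
    have hcont : ContinuousAt (fun s : ℂ => (s - ρ) * dv ρ Φ (j + 1) s) ρ :=
      (continuousAt_id.sub continuousAt_const).mul hK'.diff.continuous.continuousAt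
    have h5 := hcont.tendsto
    simp only [sub_self, zero_mul] at h5
    exact h5.mono_left nhdsWithin_le_nhds
  refine tendsto_nhds_unique (c1.congr' ?_) c2
  filter_upwards [self_mem_nhdsWithin] with s hsne
  have hne' : s - ρ ≠ 0 := sub_ne_zero.2 hsne
  apply mul_left_cancel₀ (pow_ne_zero j hne')
  rw [hform s, ← hform' s]
  ring

theorem kp_int {b : ℝ} (hb : 0 < b) {Φ : ℂ → ℂ} (h : KP b Φ) (c : ℝ) (ρ : ℂ) :
    Integrable (fun z : ℝ => cexp (-ρ * z) * Inv Φ c z) := by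
  obtain ⟨κ, hκ, C, hC, hd⟩ := h.decay hb c
  obtain ⟨C', hC', hd'⟩ := dexp |ρ.re| κ b hκ hb
  obtain ⟨A, hA, hl⟩ := h.lb
  have hcont := (hl c).inv_cont
  refine ((int_exp_abs 1 one_pos).const_mul (C * C')).mono' ?_ (ae_of_all _ fun z => ?_)
  · exact (by fun_prop : Continuous fun z : ℝ => cexp (-ρ * z) * Inv Φ c z).aestronglyMeasurable
  · rw [norm_mul, norm_tw]
    have h1 : Real.exp (-ρ.re * z) ≤ Real.exp (|ρ.re| * |z|) := by
      refine Real.exp_le_exp.2 ?_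
      rw [← abs_mul]
      have := neg_abs_le (ρ.re * z)
      linarith
    calc Real.exp (-ρ.re * z) * ‖Inv Φ c z‖ ≤ Real.exp (|ρ.re| * |z|) * (C * Real.exp (-(κ * Real.exp (b * |z|)))) :=
          mul_le_mul h1 (hd z) (norm_nonneg _) (Real.exp_pos _).le
      _ = C * (Real.exp (|ρ.re| * |z|) * Real.exp (-(κ * Real.exp (b * |z|)))) := by ring
      _ ≤ C * (C' * Real.exp (-(1 * |z|))) := mul_le_mul_of_nonneg_left (hd' z) hC
      _ = _ := by ring

theorem kp_trans {b : ℝ} (hb : 0 < b) {Φ : ℂ → ℂ} (h : KP b Φ) (c : ℝ) (ρ : ℂ) :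
    ∫ z : ℝ, cexp (-ρ * z) * Inv Φ c z = Φ ρ := by
  obtain ⟨A, hA, hl⟩ := h.lb
  have h1 := inv_trans (hl ρ.re) (by
    have h2 := kp_int hb h ρ.re (ρ.re : ℂ)
    refine h2.congr (ae_of_all _ fun v => ?_)
    simp only
    rw [mul_comm]
    congr 2
    push_cast
    ring) ρ.im
  rw [← eq_vl ρ] at h1
  rw [← h1]
  exact integral_congr_ae (ae_of_all _ fun v => by simp only; rw [h.indep hb c ρ.re v])

theorem Dom.ist {K : ℝ → ℝ} {f : ℝ → ℂ} (hK : ∀ v, 0 < K v)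
    (htail : ∀ A : ℝ, ∃ C : ℝ, 0 ≤ C ∧ ∀ v z : ℝ, (z ≤ v ∧ v ≤ 0) ∨ (0 ≤ v ∧ v ≤ z) →
      K z ≤ C * K v * Real.exp (-(A * |v - z|)))
    (hf : Dom K f) (ρ : ℂ) (hi : Integrable (fun z : ℝ => cexp (-ρ * z) * f z))
    (h0 : ∫ z : ℝ, cexp (-ρ * z) * f z = 0) : Dom K (Ist ρ f) := by
  obtain ⟨D, hD, hb⟩ := hf.bd
  obtain ⟨C, hC, ht⟩ := htail (|ρ.re| + 1)
  have hβ := neg_abs_le ρ.re
  have hβ' := le_abs_self ρ.re
  set E : ℝ := ∫ x : ℝ, Real.exp (-(1 * |x|)) with hE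
  have hE0 : 0 ≤ E := integral_nonneg fun x => (Real.exp_pos _).le
  refine ⟨H313.TK.Ist_cont hf.cont fun v => hi.integrableOn, D * C * E, by positivity, fun v => ?_⟩
  have hpt : ∀ z : ℝ, (z ≤ v ∧ v ≤ 0) ∨ (0 ≤ v ∧ v ≤ z) →
      ‖cexp (ρ * v) * (cexp (-ρ * z) * f z)‖ ≤ D * C * K v * Real.exp (-(1 * |v - z|)) := by
    intro z hz
    rw [norm_mul, norm_mul, norm_tw, norm_tw', ← mul_assoc, ← Real.exp_add]
    have h1 : Real.exp (ρ.re * v + -ρ.re * z) ≤ Real.exp (|ρ.re| * |v - z|) := by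
      refine Real.exp_le_exp.2 ?_
      rw [← abs_mul]
      refine le_trans (le_of_eq ?_) (le_abs_self _)
      ring
    calc Real.exp (ρ.re * v + -ρ.re * z) * ‖f z‖ ≤ Real.exp (|ρ.re| * |v - z|) * (D * (C * K v * Real.exp (-((|ρ.re| + 1) * |v - z|)))) :=
          mul_le_mul h1 ((hb z).trans (mul_le_mul_of_nonneg_left (ht v z hz) hD)) (norm_nonneg _) (Real.exp_pos _).le
      _ = D * C * K v * (Real.exp (|ρ.re| * |v - z|) * Real.exp (-((|ρ.re| + 1) * |v - z|))) := by ring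
      _ = _ := by
          rw [← Real.exp_add]
          congr 2
          ring
  have hg0 : 0 ≤ D * C * K v := by have := (hK v).le; positivity
  have hint : Integrable (fun z : ℝ => D * C * K v * Real.exp (-(1 * |v - z|))) :=
    ((int_exp_abs 1 one_pos).comp_sub_left v).const_mul _
  have hval : ∫ z : ℝ, D * C * K v * Real.exp (-(1 * |v - z|)) = D * C * E * K v := by
    rw [integral_const_mul, integral_sub_left_eq_self (fun x => Real.exp (-(1 * |x|))) volume v]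
    ring
  have hset : ∀ S : Set ℝ, ∫ z in S, D * C * K v * Real.exp (-(1 * |v - z|)) ≤ D * C * E * K v := by
    intro S
    rw [← hval]
    exact setIntegral_le_integral hint (ae_of_all _ fun z => by positivity)
  rcases le_total v 0 with hv | hv
  · unfold Ist
    rw [← integral_const_mul]
    refine (norm_integral_le_of_norm_le hint.integrableOn ?_).trans (hset (Iic v))
    filter_upwards [ae_restrict_mem measurableSet_Iic] with z hz
    exact hpt z (Or.inl ⟨hz, hv⟩)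
  · have h1 := intervalIntegral.integral_Iic_add_Ioi (b := v) hi.integrableOn hi.integrableOn
    rw [h0] at h1
    have h2 : Ist ρ f v = -∫ z in Ioi v, cexp (ρ * v) * (cexp (-ρ * z) * f z) := by
      unfold Ist
      rw [integral_const_mul, eq_neg_of_add_eq_zero_left h1]
      ring
    rw [h2, norm_neg]
    refine (norm_integral_le_of_norm_le hint.integrableOn ?_).trans (hset (Ioi v))
    filter_upwards [ae_restrict_mem measurableSet_Ioi] with z hz
    exact hpt z (Or.inr ⟨hv, le_of_lt hz⟩)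

/-- the kernels `Inv (dv ρ Φ j)` are dominated -/
theorem PK.dom {b : ℝ} (hb : 0 < b) {Φ : ℂ → ℂ} {K : ℝ → ℝ} (h : PK b Φ K) {ρ : ℂ} {m : ℕ}
    (hm : (m : ℕ∞) ≤ analyticOrderAt Φ ρ) {c : ℝ} (hc : ρ.re < c) :
    ∀ j : ℕ, j ≤ m → Dom K (Inv (dv ρ Φ j) c) := by
  have hne : ∀ τ : ℝ, vl c τ - ρ ≠ 0 := by
    intro τ h0
    have := congrArg Complex.re h0
    simp at this
    linarith
  intro j
  induction j with
  | zero =>
    intro _
    obtain ⟨A, hA, hl⟩ := h.kp.lb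
    refine ⟨(hl c).inv_cont, 1, zero_le_one, fun v => ?_⟩
    show ‖Inv Φ c v‖ ≤ _
    rw [h.inv, Complex.norm_real, Real.norm_eq_abs, abs_of_pos (h.pos v), one_mul]
  | succ j ih =>
    intro hj
    have hD := ih (by omega)
    obtain ⟨hK, hform⟩ := dv_KP hb h.kp ρ m hm j (by omega)
    obtain ⟨hK', hform'⟩ := dv_KP hb h.kp ρ m hm (j + 1) hj
    obtain ⟨A, hA, hl⟩ := hK.lb
    have e : Inv (dv ρ Φ (j + 1)) c = Ist ρ (Inv (dv ρ Φ j) c) := by
      funext t
      rw [ist_inv (hl c) hc t]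
      unfold Inv
      congr 1
      refine integral_congr_ae (ae_of_all _ fun τ => ?_)
      simp only
      congr 1
      rw [eq_div_iff (hne τ)]
      apply mul_left_cancel₀ (pow_ne_zero j (hne τ))
      rw [hform (vl c τ), ← hform' (vl c τ)]
      ring
    rw [e]
    refine hD.ist h.pos h.tail ρ (kp_int hb hK c ρ) ?_
    rw [kp_trans hb hK c ρ]
    exact dv_zero hb h.kp ρ hm (by omega)

end

end H313.GK
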