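import Pool.Agent.H313R3.GK.A
import Mathlib.Analysis.Complex.BorelCaratheodory

/-!
# Functions of class `KP` have zeros
-/

open Complex MeasureTheory Filter Topology Set Metric

set_option linter.unusedSectionVars false
set_option linter.unusedVariables false
set_option autoImplicit false

namespace H313.GK

noncomputable section

theorem zero_free_exp {Φ : ℂ → ℂ} (hd : Differentiable ℂ Φ) (hne : ∀ s, Φ s ≠ 0) {C : ℝ} (hC : 0 ≤ C)
    (hg : ∀ s, ‖Φ s‖ ≤ Real.exp (C * (1 + ‖s‖) ^ (3 / 2 : ℝ))) : ∃ α : ℂ, ∀ s, Φ s = Φ 0 * cexp (α * s) := by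
  set L : ℂ → ℂ := fun z => deriv Φ z / Φ z with hL
  have hL' : Differentiable ℂ L := (hd.deriv).div hd hne
  obtain ⟨h, hh⟩ := hL'.isExactOn_univ
  set H : ℂ → ℂ := fun z => h z - h 0 with hH
  have hH1 : ∀ z, HasDerivAt H (L z) z := fun z => (hh z (mem_univ z)).sub_const _
  have hH0 : H 0 = 0 := by simp [hH]
  have hHd : Differentiable ℂ H := fun z => (hH1 z).differentiableAt
  have hexp : ∀ z, Φ z = Φ 0 * cexp (H z) := by
    have h1 : ∀ z, HasDerivAt (fun z => Φ z * cexp (-H z)) 0 z := by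
      intro z
      refine ((hd z).hasDerivAt.mul (hH1 z).neg.cexp).congr_deriv ?_
      have := hne z
      simp only [hL]
      field_simp
      ring
    intro z
    have h2 := is_const_of_deriv_eq_zero (fun z => (h1 z).differentiableAt) (fun z => (h1 z).deriv) z 0
    rw [hH0, neg_zero, Complex.exp_zero, mul_one] at h2
    rw [← h2, mul_assoc, ← Complex.exp_add]
    simp
  set K : ℝ := |Real.log ‖Φ 0‖| with hK
  have hK0 : 0 ≤ K := abs_nonneg _
  have hre : ∀ z, (H z).re ≤ C * (1 + ‖z‖) ^ (3 / 2 : ℝ) + K := by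
    intro z
    have h1 := hg z
    rw [hexp z, norm_mul, Complex.norm_exp] at h1
    have h2 : 0 < ‖Φ 0‖ := norm_pos_iff.2 (hne 0)
    have h3 := Real.log_le_log (by positivity) h1
    rw [Real.log_mul h2.ne' (Real.exp_pos _).ne', Real.log_exp, Real.log_exp] at h3
    have := neg_abs_le (Real.log ‖Φ 0‖)
    linarith
  -- the derivative of `L` vanishes
  have hL0 : ∀ w, deriv L w = 0 := by
    intro w
    have hbd : ∀ R : ℝ, 8 * (‖w‖ + 1) ≤ R → ‖deriv L w‖ ≤ 64 * (C * (1 + R) ^ (3 / 2 : ℝ) + K + 1) / R ^ 2 := by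
      intro R hR
      have hw := norm_nonneg w
      have hR0 : 0 < R := by linarith
      set M : ℝ := C * (1 + R) ^ (3 / 2 : ℝ) + K + 1 with hM
      have hM0 : 0 < M := by positivity
      have hHb : ∀ u : ℂ, ‖u‖ ≤ R / 2 → ‖H u‖ ≤ 2 * M := by
        intro u hu
        have h1 := borelCaratheodory_zero (z := u) hM0 (hHd.differentiableOn (s := ball 0 R)) (fun x hx => by
          rw [mem_ball_zero_iff] at hx
          have h2 := hre x
          have h3 : C * (1 + ‖x‖) ^ (3 / 2 : ℝ) ≤ C * (1 + R) ^ (3 / 2 : ℝ) :=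
            mul_le_mul_of_nonneg_left (Real.rpow_le_rpow (by positivity) (by linarith) (by norm_num)) hC
          show (H x).re ≤ M
          linarith) hR0 (by rw [mem_ball_zero_iff]; linarith) hH0
        refine h1.trans ?_
        rw [div_le_iff₀ (by linarith)]
        nlinarith
      have hLb : ∀ z : ℂ, ‖z‖ ≤ R / 4 → ‖L z‖ ≤ 8 * M / R := by
        intro z hz
        have h1 := Complex.norm_deriv_le_of_forall_mem_sphere_norm_le (f := H) (c := z) (R := R / 4) (C := 2 * M)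
          (by positivity) (hHd.diffContOnCl) (fun u hu => by
            rw [mem_sphere, dist_eq_norm] at hu
            refine hHb u ?_
            have := norm_le_norm_add_norm_sub' u z
            linarith)
        rw [(hH1 z).deriv] at h1
        refine h1.trans (le_of_eq ?_)
        field_simp
        ring
      have h1 := Complex.norm_deriv_le_of_forall_mem_sphere_norm_le (f := L) (c := w) (R := R / 8) (C := 8 * M / R)
        (by positivity) (hL'.diffContOnCl) (fun u hu => by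
          rw [mem_sphere, dist_eq_norm] at hu
          refine hLb u ?_
          have := norm_le_norm_add_norm_sub' u w
          linarith)
      refine h1.trans (le_of_eq ?_)
      field_simp
      ring
    have hlim : Tendsto (fun R : ℝ => 64 * (C * (1 + R) ^ (3 / 2 : ℝ) + K + 1) / R ^ 2) atTop (𝓝 0) := by
      have h1 : ∀ R : ℝ, 1 ≤ R → 64 * (C * (1 + R) ^ (3 / 2 : ℝ) + K + 1) / R ^ 2 ≤
          (64 * (C * 4 + K + 1)) * R ^ (-(1 / 2) : ℝ) := by
        intro R hR
        have hR0 : 0 < R := by linarith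
        have h2 : (1 + R) ^ (3 / 2 : ℝ) ≤ 4 * R ^ (3 / 2 : ℝ) := by
          calc (1 + R) ^ (3 / 2 : ℝ) ≤ (2 * R) ^ (3 / 2 : ℝ) := Real.rpow_le_rpow (by linarith) (by linarith) (by norm_num)
            _ = 2 ^ (3 / 2 : ℝ) * R ^ (3 / 2 : ℝ) := Real.mul_rpow (by norm_num) hR0.le
            _ ≤ 4 * R ^ (3 / 2 : ℝ) := by
                refine mul_le_mul_of_nonneg_right ?_ (by positivity)
                calc (2:ℝ) ^ (3 / 2 : ℝ) ≤ 2 ^ (2:ℝ) := Real.rpow_le_rpow_of_exponent_le (by norm_num) (by norm_num)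
                  _ = 4 := by norm_num
        have h3 : 1 ≤ R ^ (3 / 2 : ℝ) := Real.one_le_rpow hR (by norm_num)
        have h4 : R ^ (-(1 / 2) : ℝ) = R ^ (3 / 2 : ℝ) / R ^ 2 := by
          rw [← Real.rpow_natCast, ← Real.rpow_sub hR0]
          norm_num
        rw [h4, ← mul_div_assoc]
        refine div_le_div_of_nonneg_right ?_ (by positivity)
        have h5 : C * (1 + R) ^ (3 / 2 : ℝ) ≤ C * (4 * R ^ (3 / 2 : ℝ)) := mul_le_mul_of_nonneg_left h2 hC
        have h6 : K + 1 ≤ (K + 1) * R ^ (3 / 2 : ℝ) := le_mul_of_one_le_right (by positivity) h3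
        nlinarith
      have h2 : Tendsto (fun R : ℝ => (64 * (C * 4 + K + 1)) * R ^ (-(1 / 2) : ℝ)) atTop (𝓝 ((64 * (C * 4 + K + 1)) * 0)) :=
        (tendsto_rpow_neg_atTop (by norm_num : (0:ℝ) < 1 / 2)).const_mul _
      rw [mul_zero] at h2
      refine squeeze_zero' ((eventually_ge_atTop 1).mono fun R hR => ?_) ((eventually_ge_atTop 1).mono h1) h2
      have : 0 ≤ (1 + R) ^ (3 / 2 : ℝ) := Real.rpow_nonneg (by linarith) _
      positivity
    have h3 : ‖deriv L w‖ ≤ 0 := ge_of_tendsto hlim ((eventually_ge_atTop _).mono hbd)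
    exact norm_le_zero_iff.1 h3
  have hLc : ∀ z, L z = L 0 := fun z => is_const_of_deriv_eq_zero hL' hL0 z 0
  refine ⟨L 0, fun s => ?_⟩
  have h1 : ∀ z, HasDerivAt (fun z => H z - L 0 * z) 0 z := by
    intro z
    refine ((hH1 z).sub ((hasDerivAt_id z).const_mul (L 0))).congr_deriv ?_
    rw [hLc z]
    ring
  have h2 := is_const_of_deriv_eq_zero (fun z => (h1 z).differentiableAt) (fun z => (h1 z).deriv) s 0
  rw [hH0, mul_zero, sub_zero, sub_eq_zero] at h2
  rw [hexp s, h2]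

theorem KP.exists_zero {b : ℝ} (hb0 : 0 < b) {Φ : ℂ → ℂ} (h : KP b Φ) : ∃ ρ, Φ ρ = 0 := by
  by_contra hcon
  push Not at hcon
  obtain ⟨A, hA, hb⟩ := h.bd 0
  obtain ⟨α, hα⟩ := zero_free_exp h.diff hcon (C := A + 2 / b) (by positivity) (fun s => by
    have h1 := hb s
    rw [pow_zero, mul_one] at h1
    refine h1.trans (Real.exp_le_exp.2 ?_)
    have h2 : |s.re| ≤ ‖s‖ := Complex.abs_re_le_norm s
    have h3 := abs_nonneg s.re
    have hn := norm_nonneg s
    have h4 : (1 + |s.re|) ≤ (1 + ‖s‖) ^ (3 / 2 : ℝ) := by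
      calc (1 + |s.re|) ≤ (1 + ‖s‖) ^ (1 : ℝ) := by rw [Real.rpow_one]; linarith
        _ ≤ _ := Real.rpow_le_rpow_of_exponent_le (by linarith) (by norm_num)
    have h5 : Real.log (1 + |s.re|) ≤ 2 * (1 + ‖s‖) ^ (1 / 2 : ℝ) := by
      have h6 := Real.log_le_rpow_div (show 0 ≤ 1 + |s.re| by positivity) (show (0:ℝ) < 1 / 2 by norm_num)
      have h7 : (1 + |s.re|) ^ (1 / 2 : ℝ) ≤ (1 + ‖s‖) ^ (1 / 2 : ℝ) :=
        Real.rpow_le_rpow (by positivity) (by linarith) (by norm_num)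
      have h8 : (1 + |s.re|) ^ (1 / 2 : ℝ) / (1 / 2) = 2 * (1 + |s.re|) ^ (1 / 2 : ℝ) := by ring
      linarith
    have h6 : |s.re| * Real.log (1 + |s.re|) ≤ 2 * (1 + ‖s‖) ^ (3 / 2 : ℝ) := by
      have h7 : (1 + ‖s‖) ^ (3 / 2 : ℝ) = (1 + ‖s‖) * (1 + ‖s‖) ^ (1 / 2 : ℝ) := by
        rw [show (3 / 2 : ℝ) = 1 + 1 / 2 by norm_num, Real.rpow_add (by linarith), Real.rpow_one]
      have h8 : 0 ≤ Real.log (1 + |s.re|) := Real.log_nonneg (by linarith)
      rw [h7]
      calc |s.re| * Real.log (1 + |s.re|) ≤ (1 + ‖s‖) * (2 * (1 + ‖s‖) ^ (1 / 2 : ℝ)) :=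
            mul_le_mul (by linarith) h5 h8 (by linarith)
        _ = _ := by ring
    have h9 : |s.re| * Real.log (1 + |s.re|) / b ≤ 2 * (1 + ‖s‖) ^ (3 / 2 : ℝ) / b :=
      div_le_div_of_nonneg_right h6 hb0.le
    calc A * (1 + |s.re|) + |s.re| * Real.log (1 + |s.re|) / b ≤
          A * (1 + ‖s‖) ^ (3 / 2 : ℝ) + 2 * (1 + ‖s‖) ^ (3 / 2 : ℝ) / b := add_le_add (mul_le_mul_of_nonneg_left h4 hA) h9
      _ = _ := by ring)
  obtain ⟨A', hA', hb'⟩ := h.bd 1
  have h0 : 0 < ‖Φ 0‖ := norm_pos_iff.2 (hcon 0)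
  have key : ∀ τ : ℝ, 0 ≤ -(α.im * τ) → 1 + |τ| ≤ Real.exp A' / ‖Φ 0‖ := by
    intro τ hτ
    have h1 := hb' ((τ : ℂ) * I)
    have e1 : ((τ : ℂ) * I).re = 0 := by simp
    have e2 : ((τ : ℂ) * I).im = τ := by simp
    rw [hα, e1, e2, norm_mul, Complex.norm_exp, pow_one] at h1
    have e3 : (α * ((τ : ℂ) * I)).re = -(α.im * τ) := by simp
    rw [e3] at h1
    simp only [abs_zero, add_zero, mul_one, zero_mul, zero_div] at h1
    rw [le_div_iff₀ h0]
    have h2 : 1 ≤ Real.exp (-(α.im * τ)) := Real.one_le_exp hτ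
    calc (1 + |τ|) * ‖Φ 0‖ = ‖Φ 0‖ * 1 * (1 + |τ|) := by ring
      _ ≤ ‖Φ 0‖ * Real.exp (-(α.im * τ)) * (1 + |τ|) :=
          mul_le_mul_of_nonneg_right (mul_le_mul_of_nonneg_left h2 h0.le) (by positivity)
      _ ≤ _ := h1
  set X : ℝ := Real.exp A' / ‖Φ 0‖ with hX
  have hX0 : 0 < X := by positivity
  rcases le_total α.im 0 with h1 | h1
  · have := key X (by nlinarith)
    rw [abs_of_pos hX0] at this
    linarith
  · have := key (-X) (by nlinarith)
    rw [abs_neg, abs_of_pos hX0] at this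
    linarith

end

end H313.GK
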