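import Pool.Agent.H313R3.GK.T
import Pool.Agent.H313R3.GK.Z
import Pool.Agent.H313R3.GK.Q

/-!
# Hecke data with a positive kernel
-/

open Complex MeasureTheory Filter Topology Set
open scoped ComplexConjugate

set_option linter.unusedSectionVars false
set_option linter.unusedVariables false
set_option autoImplicit false

namespace H313.GK

noncomputable section

variable {k h : ℝ} {ε : ℝ} {a : ℕ → ℂ} {φ : ℝ → ℂ}

theorem HD.re_eq (d : HD k h ε a φ) {y : ℝ} (hy : 0 < y) : (((φ y).re : ℝ) : ℂ) = φ y :=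
  Complex.conj_eq_iff_re.1 (d.phi_real hy)

theorem HD.inv_eq (d : HD k h ε a φ) (c v : ℝ) : Inv (mellin φ) c v = φ (Real.exp (-v)) := by
  obtain ⟨A, hA, hl⟩ := d.kp.lb
  have hx : 0 < Real.exp (-v) := Real.exp_pos _
  have h1 := mellinInv_mellin_eq c φ hx (d.conv c) (hl c).int (d.cont.continuousAt (Ioi_mem_nhds hx))
  rw [← h1]
  unfold Inv mellinInv
  rw [Complex.real_smul]
  congr 1
  refine integral_congr_ae (ae_of_all _ fun τ => ?_)
  simp only [smul_eq_mul]
  rw [mul_comm]
  congr 1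
  rw [Complex.cpow_def_of_ne_zero (by exact_mod_cast hx.ne'), ← Complex.ofReal_log hx.le, Real.log_exp]
  congr 1
  unfold vl
  push_cast
  ring

theorem HD.eps_one (d : HD k h ε a φ) (hpos : ∀ y, 0 < y → 0 < (φ y).re) : ε = 1 := by
  rcases d.sgn with h | h
  · exact h
  · exfalso
    have h1 := d.fe 1 one_pos
    rw [h] at h1
    have h2 := hpos 1 one_pos
    simp only [div_one, Real.one_rpow, Complex.ofReal_one, Complex.ofReal_neg, mul_one, neg_mul, one_mul] at h1
    have h3 := congrArg Complex.re h1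
    simp only [Complex.neg_re] at h3
    linarith

theorem HD.upper (d : HD k h ε a φ) : ∃ C : ℝ, 0 ≤ C ∧ ∀ y : ℝ, 1 ≤ y → (φ y).re ≤ C * Real.exp (-(2 * Real.pi / h) * y) := by
  have hh := d.hpos
  have hpi := Real.pi_pos
  set q : ℝ := 2 * Real.pi / h with hq
  have hs : 0 < q := by positivity
  have hsum := d.summ hs
  refine ⟨(∑' n : ℕ, ‖a n‖ * Real.exp (-q * n)) * Real.exp q, mul_nonneg (tsum_nonneg fun n => by positivity) (Real.exp_pos _).le,
    fun y hy => (Complex.re_le_norm _).trans ?_⟩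
  rw [← (d.sum y (by linarith)).tsum_eq, ← tsum_mul_right, ← tsum_mul_right]
  refine tsum_of_norm_bounded (((hsum.mul_right _).mul_right _).hasSum) fun n => ?_
  rw [norm_mul, Complex.norm_real, Real.norm_eq_abs, abs_of_pos (Real.exp_pos _), mul_assoc ‖a n‖, mul_assoc ‖a n‖,
    ← Real.exp_add, ← Real.exp_add]
  rcases Nat.eq_zero_or_pos n with hn | hn
  · rw [hn, d.zero, norm_zero, zero_mul, zero_mul]
  have hn1 : (1:ℝ) ≤ n := by exact_mod_cast hn
  refine mul_le_mul_of_nonneg_left (Real.exp_le_exp.2 ?_) (norm_nonneg _)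
  have e : -(2 * Real.pi * n / h) * y = -q * (n * y) := by rw [hq]; ring
  have e2 : -q * (n:ℝ) + q + -q * y = -q * (n + y - 1) := by ring
  rw [e, e2, neg_mul, neg_mul, neg_le_neg_iff]
  refine mul_le_mul_of_nonneg_left ?_ hs.le
  nlinarith [mul_nonneg (sub_nonneg.2 hn1) (sub_nonneg.2 hy)]

theorem HD.near (d : HD k h ε a φ) : ∃ C : ℝ, 0 ≤ C ∧ ∀ y : ℝ, 1 ≤ y →
    ‖φ y - Real.exp (-(2 * Real.pi / h) * y)‖ ≤ C * Real.exp (-(2 * Real.pi / h) * (2 * y)) := by
  have hh := d.hpos
  have hpi := Real.pi_pos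
  set q : ℝ := 2 * Real.pi / h with hq
  have hs : 0 < q := by positivity
  have hsum := d.summ hs
  refine ⟨(∑' n : ℕ, ‖a n‖ * Real.exp (-q * n)) * Real.exp (2 * q), mul_nonneg (tsum_nonneg fun n => by positivity) (Real.exp_pos _).le,
    fun y hy => ?_⟩
  have h1 := d.sum y (by linarith)
  have h2 : HasSum (fun n : ℕ => if n = 1 then ((Real.exp (-q * y) : ℝ) : ℂ) else 0) ((Real.exp (-q * y) : ℝ) : ℂ) :=
    hasSum_ite_eq 1 _
  have h3 := h1.sub h2
  rw [← h3.tsum_eq, ← tsum_mul_right, ← tsum_mul_right]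
  refine tsum_of_norm_bounded (((hsum.mul_right _).mul_right _).hasSum) fun n => ?_
  have e : ∀ n : ℕ, -(2 * Real.pi * n / h) * y = -q * (n * y) := fun n => by rw [hq]; ring
  rcases Nat.eq_zero_or_pos n with hn | hn
  · rw [hn, d.zero]
    simp
  rcases Nat.lt_or_ge 1 n with hn1 | hn1
  · rw [if_neg (by omega), sub_zero, norm_mul, Complex.norm_real, Real.norm_eq_abs, abs_of_pos (Real.exp_pos _),
      mul_assoc ‖a n‖, mul_assoc ‖a n‖, ← Real.exp_add, ← Real.exp_add]
    have hn2 : (2:ℝ) ≤ n := by exact_mod_cast hn1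
    refine mul_le_mul_of_nonneg_left (Real.exp_le_exp.2 ?_) (norm_nonneg _)
    have e2 : -q * (n:ℝ) + 2 * q + -q * (2 * y) = -q * (n + 2 * y - 2) := by ring
    rw [e, e2, neg_mul, neg_mul, neg_le_neg_iff]
    refine mul_le_mul_of_nonneg_left ?_ hs.le
    nlinarith [mul_nonneg (sub_nonneg.2 hn2) (sub_nonneg.2 hy)]
  · have hn3 : n = 1 := by omega
    rw [hn3, if_pos rfl, d.one, one_mul, e]
    simp only [Nat.cast_one, one_mul, sub_self, norm_zero]
    positivity

theorem HD.lower (d : HD k h ε a φ) (hpos : ∀ y, 0 < y → 0 < (φ y).re) : ∃ c : ℝ, 0 < c ∧ ∀ y : ℝ, 1 ≤ y →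
    c * Real.exp (-(2 * Real.pi / h) * y) ≤ (φ y).re := by
  have hh := d.hpos
  have hpi := Real.pi_pos
  obtain ⟨C, hC, hn⟩ := d.near
  set q : ℝ := 2 * Real.pi / h with hq
  have hs : 0 < q := by positivity
  -- far range
  have hlim : Tendsto (fun y : ℝ => C * Real.exp (-(q * y))) atTop (𝓝 (C * 0)) := by
    refine Tendsto.const_mul _ (Real.tendsto_exp_neg_atTop_nhds_zero.comp ?_)
    exact Tendsto.const_mul_atTop hs tendsto_id
  rw [mul_zero] at hlim
  obtain ⟨Y, hY⟩ := eventually_atTop.1 (hlim.eventually (ge_mem_nhds (show (0:ℝ) < 1 / 2 by norm_num)))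
  have hfar : ∀ y : ℝ, 1 ≤ y → Y ≤ y → 1 / 2 * Real.exp (-q * y) ≤ (φ y).re := by
    intro y hy1 hy2
    have h1 := hn y hy1
    have h2 := (Complex.abs_re_le_norm _).trans h1
    rw [Complex.sub_re, Complex.ofReal_re] at h2
    have h3 := neg_abs_le ((φ y).re - Real.exp (-q * y))
    have h4 : C * Real.exp (-q * (2 * y)) ≤ 1 / 2 * Real.exp (-q * y) := by
      have h5 : Real.exp (-q * (2 * y)) = Real.exp (-(q * y)) * Real.exp (-q * y) := by
        rw [← Real.exp_add]; congr 1; ring
      rw [h5, ← mul_assoc]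
      exact mul_le_mul_of_nonneg_right (hY y hy2) (Real.exp_pos _).le
    linarith
  -- compact range
  have hcont : ContinuousOn (fun y : ℝ => (φ y).re * Real.exp (q * y)) (Icc 1 (max 1 Y)) := by
    refine ContinuousOn.mul ?_ (by fun_prop)
    exact Complex.continuous_re.comp_continuousOn (d.cont.mono fun y hy => lt_of_lt_of_le one_pos hy.1)
  obtain ⟨y0, hy0, hmin⟩ := isCompact_Icc.exists_isMinOn ⟨1, left_mem_Icc.2 (le_max_left _ _)⟩ hcont
  have hy0' : 0 < y0 := lt_of_lt_of_le one_pos hy0.1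
  set c0 : ℝ := (φ y0).re * Real.exp (q * y0) with hc0
  have hc00 : 0 < c0 := mul_pos (hpos y0 hy0') (Real.exp_pos _)
  refine ⟨min c0 (1 / 2), lt_min hc00 (by norm_num), fun y hy => ?_⟩
  rcases le_total y Y with h1 | h1
  · have h2 := hmin (show y ∈ Icc 1 (max 1 Y) from ⟨hy, h1.trans (le_max_right _ _)⟩)
    simp only [mem_setOf_eq] at h2
    have h3 : c0 ≤ (φ y).re * Real.exp (q * y) := h2
    have h4 : (φ y).re = ((φ y).re * Real.exp (q * y)) * Real.exp (-q * y) := by
      rw [mul_assoc, ← Real.exp_add]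
      simp
    rw [h4]
    exact mul_le_mul_of_nonneg_right ((min_le_left _ _).trans h3) (Real.exp_pos _).le
  · exact (mul_le_mul_of_nonneg_right (min_le_right _ _) (Real.exp_pos _).le).trans (hfar y hy h1)

theorem HD.pk (d : HD k h ε a φ) (hpos : ∀ y, 0 < y → 0 < (φ y).re) :
    PK 1 (mellin φ) (fun v => (φ (Real.exp (-v))).re) := by
  have hh := d.hpos
  have hk := d.kpos
  have hpi := Real.pi_pos
  have hε := d.eps_one hpos
  obtain ⟨C1, hC1, hup⟩ := d.upper
  obtain ⟨c1, hc1, hlo⟩ := d.lower hpos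
  set q : ℝ := 2 * Real.pi / h with hq
  have hq0 : 0 < q := by positivity
  refine ⟨d.kp, fun c v => ?_, fun v => hpos _ (Real.exp_pos _), fun A => ?_⟩
  · rw [d.inv_eq]
    exact (d.re_eq (Real.exp_pos _)).symm
  · have hgauss : ∀ w : ℝ, 0 ≤ w → k * w - q * (w + w ^ 2 / 2) ≤ (k + |A|) ^ 2 / (2 * q) - A * w := by
      intro w hw
      have h1 : (k + |A|) * w - q * (w ^ 2 / 2) ≤ (k + |A|) ^ 2 / (2 * q) := by
        rw [le_div_iff₀ (by positivity)]
        nlinarith [sq_nonneg (q * w - (k + |A|))]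
      have h2 : A * w ≤ |A| * w := mul_le_mul_of_nonneg_right (le_abs_self _) hw
      have h3 : 0 ≤ q * w := by positivity
      linarith
    refine ⟨C1 / c1 * Real.exp ((k + |A|) ^ 2 / (2 * q)), by positivity, fun v z hvz => ?_⟩
    have hexpdiff : ∀ s t : ℝ, 0 ≤ s → s ≤ t → (t - s) + (t - s) ^ 2 / 2 ≤ Real.exp t - Real.exp s := by
      intro s t hs hst
      have h1 := Real.quadratic_le_exp_of_nonneg (sub_nonneg.2 hst)
      have h2 : Real.exp t - Real.exp s = Real.exp s * (Real.exp (t - s) - 1) := by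
        rw [mul_sub, ← Real.exp_add, mul_one]
        congr 2
        ring
      rw [h2]
      have h3 : 1 ≤ Real.exp s := Real.one_le_exp hs
      have h4 : 0 ≤ Real.exp (t - s) - 1 := by
        have := Real.one_le_exp (sub_nonneg.2 hst)
        linarith
      calc (t - s) + (t - s) ^ 2 / 2 ≤ 1 * (Real.exp (t - s) - 1) := by linarith
        _ ≤ _ := mul_le_mul_of_nonneg_right h3 h4
    rcases hvz with ⟨hz, hv⟩ | ⟨hv, hz⟩
    · have hz0 : z ≤ 0 := hz.trans hv
      have h1 := hup (Real.exp (-z)) (Real.one_le_exp (by linarith))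
      have h2 := hlo (Real.exp (-v)) (Real.one_le_exp (by linarith))
      have h3 := hexpdiff (-v) (-z) (by linarith) (by linarith)
      have h4 := hgauss (v - z) (by linarith)
      rw [abs_of_nonneg (sub_nonneg.2 hz)]
      have h5 : 0 ≤ k * (v - z) := mul_nonneg hk.le (by linarith)
      have h6 : (-z - -v) = v - z := by ring
      rw [h6] at h3
      have h7 := mul_le_mul_of_nonneg_left h3 hq0.le
      calc (φ (Real.exp (-z))).re ≤ C1 * Real.exp (-q * Real.exp (-z)) := h1
        _ = C1 / c1 * (c1 * Real.exp (-q * Real.exp (-z))) := by field_simp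
        _ ≤ C1 / c1 * (c1 * (Real.exp ((k + |A|) ^ 2 / (2 * q)) * Real.exp (-q * Real.exp (-v)) * Real.exp (-(A * (v - z))))) := by
            refine mul_le_mul_of_nonneg_left (mul_le_mul_of_nonneg_left ?_ hc1.le) (by positivity)
            rw [← Real.exp_add, ← Real.exp_add]
            refine Real.exp_le_exp.2 ?_
            nlinarith
        _ = C1 / c1 * Real.exp ((k + |A|) ^ 2 / (2 * q)) * (c1 * Real.exp (-q * Real.exp (-v))) * Real.exp (-(A * (v - z))) := by ring
        _ ≤ _ := by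
            refine mul_le_mul_of_nonneg_right ?_ (Real.exp_pos _).le
            exact mul_le_mul_of_nonneg_left h2 (by positivity)
    · have hz0 : 0 ≤ z := hv.trans hz
      have hfe : ∀ w : ℝ, (φ (Real.exp (-w))).re = Real.exp (k * w) * (φ (Real.exp w)).re := by
        intro w
        have h1 := d.fe (Real.exp w) (Real.exp_pos _)
        rw [hε, one_div, ← Real.exp_neg, Complex.ofReal_one, one_mul, ← Real.exp_mul, mul_comm w k] at h1
        rw [h1, Complex.re_ofReal_mul]
      simp only [hfe]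
      have h1 := hup (Real.exp z) (Real.one_le_exp hz0)
      have h2 := hlo (Real.exp v) (Real.one_le_exp hv)
      have h3 := hexpdiff v z hv hz
      have h4 := hgauss (z - v) (by linarith)
      rw [abs_sub_comm, abs_of_nonneg (sub_nonneg.2 hz)]
      have h7 := mul_le_mul_of_nonneg_left h3 hq0.le
      calc Real.exp (k * z) * (φ (Real.exp z)).re ≤ Real.exp (k * z) * (C1 * Real.exp (-q * Real.exp z)) :=
            mul_le_mul_of_nonneg_left h1 (Real.exp_pos _).le
        _ = C1 / c1 * (c1 * (Real.exp (k * z) * Real.exp (-q * Real.exp z))) := by field_simp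
        _ ≤ C1 / c1 * (c1 * (Real.exp ((k + |A|) ^ 2 / (2 * q)) * (Real.exp (k * v) * Real.exp (-q * Real.exp v)) * Real.exp (-(A * (z - v))))) := by
            refine mul_le_mul_of_nonneg_left (mul_le_mul_of_nonneg_left ?_ hc1.le) (by positivity)
            rw [← Real.exp_add, ← Real.exp_add, ← Real.exp_add, ← Real.exp_add]
            refine Real.exp_le_exp.2 ?_
            nlinarith
        _ = C1 / c1 * Real.exp ((k + |A|) ^ 2 / (2 * q)) * (Real.exp (k * v) * (c1 * Real.exp (-q * Real.exp v))) * Real.exp (-(A * (z - v))) := by ring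
        _ ≤ _ := by
            refine mul_le_mul_of_nonneg_right ?_ (Real.exp_pos _).le
            exact mul_le_mul_of_nonneg_left (mul_le_mul_of_nonneg_left h2 (Real.exp_pos _).le) (by positivity)

end

end H313.GK
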