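import Pool.Agent.H313R3.GK.V
import Pool.Agent.H128R3.JD.DelHk

/-!
# The discriminant
-/

set_option linter.unusedSectionVars false
set_option linter.unusedVariables false
set_option autoImplicit false

namespace H313.GK

open Complex Filter Topology UpperHalfPlane MatrixGroups
open scoped ComplexConjugate
open Pool.Agent.H128R3.JD.DelK Pool.Agent.H128R3.JD.DelHk Pool.Agent.H471R3.GJ

noncomputable section

/-- uniqueness of Dirichlet coefficients -/
theorem uniq {c : ℕ → ℂ} (hs : Summable fun n : ℕ => ‖c n‖ * Real.exp (-(2 * Real.pi) * n))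
    (h0 : ∀ y : ℝ, 0 < y → HasSum (fun n : ℕ => c n * ((Real.exp (-(2 * Real.pi * n * y)) : ℝ) : ℂ)) 0) :
    ∀ n, c n = 0 := by
  intro n
  induction n using Nat.strong_induction_on with
  | _ n ih =>
    have hpi := Real.pi_pos
    set S : ℝ := (∑' m : ℕ, ‖c m‖ * Real.exp (-(2 * Real.pi) * m)) * Real.exp (2 * Real.pi * n + 2 * Real.pi) with hS
    have key : ∀ y : ℝ, 1 ≤ y → ‖c n‖ ≤ S * Real.exp (-(2 * Real.pi * y)) := by
      intro y hy
      have h1 := h0 y (by linarith)
      have h2 : HasSum (fun m : ℕ => if m = n then c n * ((Real.exp (-(2 * Real.pi * n * y)) : ℝ) : ℂ) else 0)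
          (c n * ((Real.exp (-(2 * Real.pi * n * y)) : ℝ) : ℂ)) := hasSum_ite_eq n _
      have h3 := h1.sub h2
      have h4 : ‖0 - c n * ((Real.exp (-(2 * Real.pi * n * y)) : ℝ) : ℂ)‖ ≤
          S * Real.exp (-(2 * Real.pi * y)) * Real.exp (-(2 * Real.pi * n * y)) := by
        rw [← h3.tsum_eq, hS, ← tsum_mul_right, ← tsum_mul_right, ← tsum_mul_right]
        refine tsum_of_norm_bounded ((((hs.mul_right _).mul_right _).mul_right _).hasSum) fun m => ?_
        rcases lt_trichotomy m n with hm | hm | hm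
        · rw [ih m hm, if_neg hm.ne]
          simp
        · rw [if_pos hm, hm, sub_self, norm_zero]
          positivity
        · rw [if_neg hm.ne', sub_zero, norm_mul, Complex.norm_real, Real.norm_eq_abs, abs_of_pos (Real.exp_pos _),
            mul_assoc ‖c m‖, mul_assoc ‖c m‖, mul_assoc ‖c m‖, ← Real.exp_add, ← Real.exp_add, ← Real.exp_add]
          refine mul_le_mul_of_nonneg_left (Real.exp_le_exp.2 ?_) (norm_nonneg _)
          have hm1 : (n:ℝ) + 1 ≤ m := by exact_mod_cast hm
          have h5 : 0 ≤ 2 * Real.pi * (((m:ℝ) - n - 1) * (y - 1)) := by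
            have := mul_nonneg (by linarith : (0:ℝ) ≤ (m:ℝ) - n - 1) (by linarith : (0:ℝ) ≤ y - 1)
            positivity
          nlinarith
      rw [zero_sub, norm_neg, norm_mul, Complex.norm_real, Real.norm_eq_abs, abs_of_pos (Real.exp_pos _)] at h4
      exact le_of_mul_le_mul_right h4 (Real.exp_pos _)
    have hlim : Tendsto (fun y : ℝ => S * Real.exp (-(2 * Real.pi * y))) atTop (𝓝 (S * 0)) := by
      refine Tendsto.const_mul _ (Real.tendsto_exp_neg_atTop_nhds_zero.comp ?_)
      exact Tendsto.const_mul_atTop (by positivity) tendsto_id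
    rw [mul_zero] at hlim
    have h5 : ‖c n‖ ≤ 0 := ge_of_tendsto hlim ((eventually_ge_atTop 1).mono key)
    exact norm_le_zero_iff.1 h5

theorem delta_bound : ∃ (C : ℝ) (κ : ℕ), 0 ≤ C ∧
    ∀ n, ‖(qExpansion 1 (CuspForm.discriminant : ℍ → ℂ)).coeff n‖ ≤ C * (n:ℝ) ^ κ := by
  obtain ⟨B, hB1, hB⟩ := CuspAux.coeff_bound 12 CuspForm.discriminant
  refine ⟨B, 6, by linarith, fun n => ?_⟩
  rcases Nat.eq_zero_or_pos n with hn | hn
  · rw [hn, CuspAux.coeff_zero]
    simp
  · refine (hB n hn).trans (le_of_eq ?_)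
    have : (((12 : ℤ) : ℝ) / 2) = ((6 : ℕ) : ℝ) := by norm_num
    rw [this, Real.rpow_natCast]

theorem delta_sum {y : ℝ} (hy : 0 < y) : HasSum (fun n : ℕ => (qExpansion 1 (CuspForm.discriminant : ℍ → ℂ)).coeff n *
    ((Real.exp (-(2 * Real.pi * n * y)) : ℝ) : ℂ)) ((Dl y : ℝ) : ℂ) := by
  have h := CuspAux.sum_iy CuspForm.discriminant y hy
  have h2 : CuspForm.discriminant (ofComplex (Complex.I * y)) =
      ModularForm.discriminant (ofComplex (Complex.I * y)) := rfl
  rw [h2, ← Dl_eq hy] at h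
  exact h

theorem delta_real (n : ℕ) : conj ((qExpansion 1 (CuspForm.discriminant : ℍ → ℂ)).coeff n) =
    (qExpansion 1 (CuspForm.discriminant : ℍ → ℂ)).coeff n := by
  set t : ℕ → ℂ := fun n => (qExpansion 1 (CuspForm.discriminant : ℍ → ℂ)).coeff n with ht
  obtain ⟨C, κ, hC, hb⟩ := delta_bound
  have hpi := Real.pi_pos
  have h1 := uniq (c := fun n => conj (t n) - t n) (by
    refine Summable.of_nonneg_of_le (fun n => by positivity) (fun n => ?_)
      ((Real.summable_pow_mul_exp_neg_nat_mul κ (show 0 < 2 * Real.pi by positivity)).mul_left (2 * C))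
    have h2 : ‖conj (t n) - t n‖ ≤ 2 * C * (n:ℝ) ^ κ := by
      refine (norm_sub_le _ _).trans ?_
      rw [RCLike.norm_conj]
      have := hb n
      simp only [ht]
      linarith
    rw [← mul_assoc (2 * C)]
    exact mul_le_mul_of_nonneg_right h2 (Real.exp_pos _).le) (fun y hy => by
    have h3 := delta_sum hy
    have h4 := Complex.hasSum_conj'.2 h3
    rw [Complex.conj_ofReal] at h4
    have h5 := h4.sub h3
    rw [sub_self] at h5
    convert! h5 using 2 with n
    rw [map_mul, Complex.conj_ofReal]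
    ring) n
  exact sub_eq_zero.1 h1

theorem delta_hd : HD 12 1 1 (fun n => (qExpansion 1 (CuspForm.discriminant : ℍ → ℂ)).coeff n)
    (fun y => ((Dl y : ℝ) : ℂ)) := by
  refine ⟨by norm_num, one_pos, Or.inl rfl, CuspAux.coeff_zero _, ModularForm.discriminant_qExpansion_coeff_one,
    delta_real, delta_bound, fun y hy => ?_, fun y hy => ?_⟩
  · have h := delta_sum hy
    convert! h using 4 with n
    ring_nf
  · rw [one_div, Dl_inv hy, Complex.ofReal_one, one_mul, ← Complex.ofReal_mul]
    congr 2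
    norm_cast

end

end H313.GK
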