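import Pool.Agent.H313R3.GK.R
import Pool.Agent.H313R3.GK.Z

/-!
# Products of Hecke data
-/

open Complex MeasureTheory Filter Topology Set
open scoped ComplexConjugate

set_option linter.unusedSectionVars false
set_option linter.unusedVariables false
set_option autoImplicit false

namespace H313.GK

noncomputable section

/-- data of degree `2 r`: `Φ = G · L(a, s)` -/
structure GD (r : ℕ) (k : ℝ) (Φ G : ℂ → ℂ) (a : ArithmeticFunction ℂ) : Prop where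
  kpos : 0 < k
  kp : KP (1 / r) Φ
  one : a 1 = 1
  bound : ∃ (C : ℝ) (κ : ℕ), 0 ≤ C ∧ ∀ n, ‖a n‖ ≤ C * (n:ℝ) ^ κ
  refl : ∀ s, Φ s = 0 → Φ (k - s) = 0
  dir : ∃ σ₀ : ℝ, ∀ s : ℂ, σ₀ < s.re → Φ s = G s * LSeries a s
  Gd : ∀ s : ℂ, 0 < s.re → DifferentiableAt ℂ G s
  Gn : ∀ s : ℂ, 0 < s.re → G s ≠ 0
  Gb : ∀ p q : ℝ, 0 < p → ∃ C : ℝ, 0 ≤ C ∧ ∀ s : ℂ, p ≤ s.re → s.re ≤ q → ‖G s‖ ≤ C * (1 + s.im ^ 2)⁻¹

theorem KP.mul {b₁ b₂ b : ℝ} {Φ₁ Φ₂ : ℂ → ℂ} (h₁ : KP b₁ Φ₁) (h₂ : KP b₂ Φ₂) (hb : 1 / b = 1 / b₁ + 1 / b₂) :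
    KP b (fun s => Φ₁ s * Φ₂ s) := by
  refine ⟨h₁.diff.mul h₂.diff, fun k => ?_⟩
  obtain ⟨A₁, hA₁, hb₁⟩ := h₁.bd k
  obtain ⟨A₂, hA₂, hb₂⟩ := h₂.bd 0
  refine ⟨A₁ + A₂, by positivity, fun s => ?_⟩
  have e1 := hb₁ s
  have e2 := hb₂ s
  rw [pow_zero, mul_one] at e2
  rw [norm_mul]
  calc ‖Φ₁ s‖ * ‖Φ₂ s‖ * (1 + |s.im|) ^ k = (‖Φ₁ s‖ * (1 + |s.im|) ^ k) * ‖Φ₂ s‖ := by ring
    _ ≤ Real.exp (A₁ * (1 + |s.re|) + |s.re| * Real.log (1 + |s.re|) / b₁) *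
        Real.exp (A₂ * (1 + |s.re|) + |s.re| * Real.log (1 + |s.re|) / b₂) :=
        mul_le_mul e1 e2 (norm_nonneg _) (Real.exp_pos _).le
    _ = _ := by
        rw [← Real.exp_add]
        congr 1
        have h3 : |s.re| * Real.log (1 + |s.re|) / b = |s.re| * Real.log (1 + |s.re|) / b₁ + |s.re| * Real.log (1 + |s.re|) / b₂ := by
          rw [div_eq_mul_one_div, hb]
          ring
        rw [h3]
        ring

theorem GD.mul {r₁ r₂ : ℕ} (hr₁ : 1 ≤ r₁) (hr₂ : 1 ≤ r₂) {k : ℝ} {Φ₁ Φ₂ G₁ G₂ : ℂ → ℂ} {a₁ a₂ : ArithmeticFunction ℂ}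
    (d₁ : GD r₁ k Φ₁ G₁ a₁) (d₂ : GD r₂ k Φ₂ G₂ a₂) :
    GD (r₁ + r₂) k (fun s => Φ₁ s * Φ₂ s) (fun s => G₁ s * G₂ s) (a₁ * a₂) := by
  obtain ⟨C₁, κ₁, hC₁, hb₁⟩ := d₁.bound
  obtain ⟨C₂, κ₂, hC₂, hb₂⟩ := d₂.bound
  have h₁0 : (0:ℝ) < r₁ := by exact_mod_cast hr₁
  have h₂0 : (0:ℝ) < r₂ := by exact_mod_cast hr₂
  refine ⟨d₁.kpos, ?_, ?_, ?_, fun s hs => ?_, ?_, fun s hs => (d₁.Gd s hs).mul (d₂.Gd s hs),
    fun s hs => mul_ne_zero (d₁.Gn s hs) (d₂.Gn s hs), fun p q hp => ?_⟩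
  · refine d₁.kp.mul d₂.kp ?_
    push_cast
    field_simp
  · rw [ArithmeticFunction.mul_apply]
    simp [d₁.one, d₂.one]
  · refine ⟨C₁ * C₂, κ₁ + κ₂ + 1, by positivity, fun n => ?_⟩
    rcases Nat.eq_zero_or_pos n with hn | hn
    · rw [hn]
      simp
    have hn1 : (1:ℝ) ≤ n := by exact_mod_cast hn
    rw [ArithmeticFunction.mul_apply, Nat.sum_divisorsAntidiagonal (fun i j => a₁ i * a₂ j)]
    have h1 : ∀ d ∈ n.divisors, ‖a₁ d * a₂ (n / d)‖ ≤ C₁ * C₂ * (n:ℝ) ^ (κ₁ + κ₂) := by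
      intro d hd
      have hd1 : (d:ℝ) ≤ n := by exact_mod_cast Nat.divisor_le hd
      have hd2 : ((n / d : ℕ):ℝ) ≤ n := by exact_mod_cast Nat.div_le_self n d
      rw [norm_mul]
      calc ‖a₁ d‖ * ‖a₂ (n / d)‖ ≤ (C₁ * (d:ℝ) ^ κ₁) * (C₂ * ((n / d : ℕ):ℝ) ^ κ₂) :=
            mul_le_mul (hb₁ d) (hb₂ _) (norm_nonneg _) (by positivity)
        _ ≤ (C₁ * (n:ℝ) ^ κ₁) * (C₂ * (n:ℝ) ^ κ₂) := by gcongr
        _ = _ := by rw [pow_add]; ring
    refine (norm_sum_le _ _).trans ((Finset.sum_le_sum h1).trans ?_)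
    rw [Finset.sum_const, nsmul_eq_mul]
    have h2 : (n.divisors.card : ℝ) ≤ n := by exact_mod_cast Nat.card_divisors_le_self n
    calc (n.divisors.card : ℝ) * (C₁ * C₂ * (n:ℝ) ^ (κ₁ + κ₂)) ≤ n * (C₁ * C₂ * (n:ℝ) ^ (κ₁ + κ₂)) :=
          mul_le_mul_of_nonneg_right h2 (by positivity)
      _ = _ := by rw [pow_succ]; ring
  · rcases mul_eq_zero.1 hs with h | h
    · rw [d₁.refl s h, zero_mul]
    · rw [d₂.refl s h, mul_zero]
  · obtain ⟨σ₁, h₁⟩ := d₁.dir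
    obtain ⟨σ₂, h₂⟩ := d₂.dir
    refine ⟨max (max σ₁ σ₂) (max (κ₁ + 1) (κ₂ + 1)), fun s hs => ?_⟩
    have e1 := lt_of_le_of_lt (le_max_left _ _) hs
    have e2 := lt_of_le_of_lt (le_max_right _ _) hs
    have s1 : LSeriesSummable a₁ s := by
      refine LSeriesSummable_of_le_const_mul_rpow (x := κ₁ + 1) (lt_of_le_of_lt (le_max_left _ _) e2) ⟨C₁, fun n hn => ?_⟩
      rw [add_sub_cancel_right, Real.rpow_natCast]
      exact hb₁ n
    have s2 : LSeriesSummable a₂ s := by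
      refine LSeriesSummable_of_le_const_mul_rpow (x := κ₂ + 1) (lt_of_le_of_lt (le_max_right _ _) e2) ⟨C₂, fun n hn => ?_⟩
      rw [add_sub_cancel_right, Real.rpow_natCast]
      exact hb₂ n
    have h3 := ArithmeticFunction.LSeries_mul' s1 s2
    rw [h₁ s (lt_of_le_of_lt (le_max_left _ _) e1), h₂ s (lt_of_le_of_lt (le_max_right _ _) e1), h3]
    ring
  · obtain ⟨D₁, hD₁, e₁⟩ := d₁.Gb p q hp
    obtain ⟨D₂, hD₂, e₂⟩ := d₂.Gb p q hp
    refine ⟨D₁ * D₂, by positivity, fun s h1 h2 => ?_⟩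
    rw [norm_mul]
    have h3 : (1 + s.im ^ 2)⁻¹ ≤ 1 := inv_le_one_of_one_le₀ (by nlinarith [sq_nonneg s.im])
    have h4 : 0 ≤ (1 + s.im ^ 2)⁻¹ := by positivity
    calc ‖G₁ s‖ * ‖G₂ s‖ ≤ (D₁ * (1 + s.im ^ 2)⁻¹) * (D₂ * (1 + s.im ^ 2)⁻¹) :=
          mul_le_mul (e₁ s h1 h2) (e₂ s h1 h2) (norm_nonneg _) (by positivity)
      _ = D₁ * D₂ * (1 + s.im ^ 2)⁻¹ * (1 + s.im ^ 2)⁻¹ := by ring
      _ ≤ D₁ * D₂ * (1 + s.im ^ 2)⁻¹ * 1 := mul_le_mul_of_nonneg_left h3 (by positivity)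
      _ = _ := mul_one _

/-- a single Hecke datum -/
theorem HD.gd {k h : ℝ} {ε : ℝ} {a : ArithmeticFunction ℂ} {φ : ℝ → ℂ} (d : HD k h ε a φ) :
    GD 1 k (mellin φ) (fun s => ((h / (2 * Real.pi) : ℝ) : ℂ) ^ s * Complex.Gamma s) a := by
  have hh := d.hpos
  have hpi := Real.pi_pos
  set H : ℝ := h / (2 * Real.pi) with hH
  have hH0 : 0 < H := by positivity
  have hHc : (H : ℂ) ≠ 0 := by exact_mod_cast hH0.ne'
  refine ⟨d.kpos, by simpa using d.kp, d.one, d.bound, fun s hs => d.refl hs, ?_, fun s hs => ?_, fun s hs => ?_,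
    fun p q hp => ?_⟩
  · obtain ⟨C, κ, hC, hb⟩ := d.bound
    exact ⟨κ + 1, fun s hs => d.dir hb hs⟩
  · refine DifferentiableAt.mul ((differentiableAt_id).const_cpow (Or.inl hHc)) ?_
    exact Complex.differentiableAt_Gamma _ fun m hm => by
      rw [hm] at hs
      simp at hs
      have : (0:ℝ) ≤ m := by positivity
      linarith
  · refine mul_ne_zero ?_ (Complex.Gamma_ne_zero_of_re_pos hs)
    rw [Complex.cpow_def_of_ne_zero hHc]
    exact Complex.exp_ne_zero _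
  · set G : ℝ := |Real.log H| with hG
    set Q : ℝ := max q 0 with hQ
    have hQ0 : 0 ≤ Q := le_max_right _ _
    set Y : ℝ := Q + 3 with hY
    refine ⟨Real.exp (G * Q) * (3 ^ 2 * Y ^ Y) / p, by positivity, fun s h1 h2 => ?_⟩
    have h2' : s.re ≤ Q := h2.trans (le_max_left _ _)
    have hs0 : 0 < s.re := by linarith
    have hY0 : 0 < Y := by linarith
    have him := abs_nonneg s.im
    have hsne : s ≠ 0 := by
      rintro rfl
      simp at hs0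
    have h3 : ‖(H : ℂ) ^ s‖ ≤ Real.exp (G * Q) := by
      rw [Complex.norm_cpow_eq_rpow_re_of_pos hH0, Real.rpow_def_of_pos hH0]
      refine Real.exp_le_exp.2 ?_
      calc Real.log H * s.re ≤ G * s.re := mul_le_mul_of_nonneg_right (le_abs_self _) hs0.le
        _ ≤ G * Q := mul_le_mul_of_nonneg_left h2' (abs_nonneg _)
    have h4 := gam (s + 1) (by simp; linarith) 2 (by norm_num)
    have e1 : (s + 1).re = s.re + 1 := by simp
    have e2 : (s + 1).im = s.im := by simp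
    rw [e1, e2, Complex.Gamma_add_one s hsne, norm_mul] at h4
    have h5 : (s.re + 1 + (2:ℕ)) ^ (s.re + 1 + (2:ℕ)) ≤ Y ^ Y := by
      have h6 : s.re + 1 + ((2:ℕ):ℝ) ≤ Y := by
        rw [hY]
        norm_num
        linarith
      have h7 : 1 ≤ s.re + 1 + ((2:ℕ):ℝ) := by
        norm_num
        linarith
      calc (s.re + 1 + (2:ℕ)) ^ (s.re + 1 + (2:ℕ)) ≤ Y ^ (s.re + 1 + (2:ℕ)) :=
            Real.rpow_le_rpow (by linarith) h6 (by linarith)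
        _ ≤ _ := Real.rpow_le_rpow_of_exponent_le (by linarith) h6
    have hns : p ≤ ‖s‖ := h1.trans (Complex.re_le_norm s)
    have h8 : p * (‖Complex.Gamma s‖ * (1 + s.im ^ 2)) ≤ 3 ^ 2 * Y ^ Y := by
      calc p * (‖Complex.Gamma s‖ * (1 + s.im ^ 2)) ≤ ‖s‖ * (‖Complex.Gamma s‖ * (1 + |s.im|) ^ 2) :=
            mul_le_mul hns (mul_le_mul_of_nonneg_left (sq_le_two s.im) (norm_nonneg _)) (by positivity) (norm_nonneg _)
        _ = ‖s‖ * ‖Complex.Gamma s‖ * (1 + |s.im|) ^ 2 := by ring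
        _ ≤ 3 ^ 2 * (s.re + 1 + (2:ℕ)) ^ (s.re + 1 + (2:ℕ)) := h4
        _ ≤ _ := mul_le_mul_of_nonneg_left h5 (by positivity)
    rw [norm_mul, ← div_eq_mul_inv, le_div_iff₀ (by positivity), le_div_iff₀ hp]
    calc ‖(H : ℂ) ^ s‖ * ‖Complex.Gamma s‖ * (1 + s.im ^ 2) * p = ‖(H : ℂ) ^ s‖ * (p * (‖Complex.Gamma s‖ * (1 + s.im ^ 2))) := by ring
      _ ≤ Real.exp (G * Q) * (3 ^ 2 * Y ^ Y) := mul_le_mul h3 h8 (by positivity) (Real.exp_pos _).le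

/-- finite products -/
theorem GD.prod {ι : Type*} {k : ℝ} {Φ G : ι → ℂ → ℂ} {a : ι → ArithmeticFunction ℂ} (d : ∀ i, GD 1 k (Φ i) (G i) (a i))
    (S : Finset ι) (hS : S.Nonempty) : GD S.card k (fun s => ∏ i ∈ S, Φ i s) (fun s => ∏ i ∈ S, G i s) (∏ i ∈ S, a i) := by
  classical
  induction hS using Finset.Nonempty.cons_induction with
  | singleton i => simpa using d i
  | cons i S hi hS ih =>
    simp only [Finset.prod_cons, Finset.card_cons]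
    rw [add_comm]
    exact GD.mul le_rfl (Finset.card_pos.2 hS) (d i) ih

variable {r : ℕ} {k : ℝ} {Φ G : ℂ → ℂ} {a : ArithmeticFunction ℂ}

theorem dinv_of {b : ArithmeticFunction ℂ} (h : a * b = 1) : DInv a b := by
  intro n hn
  have h1 := congrArg (fun f : ArithmeticFunction ℂ => f n) h
  simp only [ArithmeticFunction.mul_apply, ArithmeticFunction.one_apply] at h1
  exact h1

/-- **Every zero is visible in every window.** -/
theorem GD.osc (d : GD r k Φ G a) (hr0 : 1 ≤ r) {b : ℕ → ℂ} (hab : DInv a b) {B : ℝ} (hB : 2 * r < B) {ρ : ℂ} (hρ : 0 < ρ.re)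
    {m : ℕ} (hm1 : 1 ≤ m) (hm : (m : ℕ∞) ≤ analyticOrderAt Φ ρ) :
    ∃ c : ℝ, 0 < c ∧ ∀ᶠ x : ℝ in atTop, ∃ y ∈ Icc x (x * Real.log x ^ B),
      c * (y ^ ρ.re * Real.log y ^ (m - 1)) ≤ ‖SM b y‖ := by
  obtain ⟨C, κ, hC, hb⟩ := d.bound
  obtain ⟨K, hK⟩ := pow_unbounded_of_one_lt C (one_lt_two)
  obtain ⟨σ₀, hdir⟩ := d.dir
  have hg := hab.growth d.one hb hK.le
  set A : ℕ := κ + (K + 2) with hA
  have hr1 : (1:ℝ) ≤ r := by exact_mod_cast hr0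
  have hrpos : (0:ℝ) < r := by linarith
  have hB0 : 0 < B := by linarith
  refine window_x hB0 (m - 1) ?_
  have ha0 : (0:ℝ) ≤ A := by positivity
  have hf : ∀ n : ℕ, n ≠ 0 → ‖b n‖ ≤ (n : ℝ) ^ (A : ℝ) := fun n hn => by
    rw [Real.rpow_natCast]
    exact hg n hn
  set c : ℝ := max ((A:ℝ) + 2) (ρ.re + 1) + |σ₀| with hc
  have hσ := le_abs_self σ₀
  have hσ' := abs_nonneg σ₀
  have hc1 : (A:ℝ) + 2 + |σ₀| ≤ c := by have := le_max_left ((A:ℝ) + 2) (ρ.re + 1); linarith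
  have hc2 : ρ.re + 1 ≤ c := by have := le_max_right ((A:ℝ) + 2) (ρ.re + 1); linarith
  have hκA : (κ:ℝ) ≤ A := by
    rw [hA]
    exact_mod_cast Nat.le_add_right _ _
  obtain ⟨CG, hCG0, hCG⟩ := d.Gb (ρ.re / 2) c (by linarith)
  set g : ℂ → ℂ := fun s => G s / s with hg'
  have hgb : ∀ s : ℂ, ρ.re / 2 ≤ s.re → s.re ≤ c → ‖g s‖ ≤ CG / (ρ.re / 2) * (1 + s.im ^ 2)⁻¹ := by
    intro s h1 h2
    have hns : ρ.re / 2 ≤ ‖s‖ := h1.trans (Complex.re_le_norm s)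
    simp only [hg']
    rw [norm_div, div_mul_eq_mul_div]
    exact div_le_div₀ (by positivity) (hCG s h1 h2) (by positivity) hns
  refine main (F := fun u => SM b (Real.exp u)) (σ := ρ.re / 2) (c := c) (c₁ := A + 1) (g := g)
    (by positivity) hB0 (by rw [one_div, inv_mul_eq_div, lt_div_iff₀ hrpos]; exact hB) d.kp hm1 hm hρ.le (by linarith)
    (by linarith) (by linarith)
    ((SM_meas _).comp Real.measurable_exp) (fun u hu => ?_) ⟨1, zero_le_one, SM_bd ha0 hf⟩ (fun τ => ?_) (fun s h1 h2 => ?_)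
    hgb ?_
  · have h4 : ⌊Real.exp u⌋₊ = 0 := Nat.floor_eq_zero.2 (by rw [← Real.exp_zero]; exact Real.exp_lt_exp.2 hu)
    simp only [SM]
    rw [h4]
    simp
  · set s : ℂ := vl c τ with hs
    have hsre : s.re = c := by rw [hs]; simp
    have hs0 : 0 < s.re := by rw [hsre]; linarith
    have h1 := trans_F ha0 hf (s := s) (by rw [hsre]; linarith)
    have h2 : ∫ u : ℝ, SM b (Real.exp u) * cexp (-s * u) = LSeries b s / s := h1
    have hsa : LSeriesSummable a s := by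
      refine LSeriesSummable_of_le_const_mul_rpow (x := κ + 1) (by rw [hsre]; linarith) ⟨C, fun n hn => ?_⟩
      rw [add_sub_cancel_right, Real.rpow_natCast]
      exact hb n
    have hsb : LSeriesSummable b s := by
      refine LSeriesSummable_of_le_const_mul_rpow (x := A + 1) (by rw [hsre]; linarith) ⟨1, fun n hn => ?_⟩
      rw [add_sub_cancel_right, one_mul]
      exact hf n hn
    have h3 := hab.lser hsa hsb
    have hsne : s ≠ 0 := by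
      rintro h0
      rw [h0] at hs0
      simp at hs0
    rw [h2, hdir s (by rw [hsre]; linarith)]
    simp only [hg']
    have e : G s * LSeries a s * (LSeries b s / s) = G s * (LSeries a s * LSeries b s) / s := by ring
    rw [e, h3, mul_one]
  · have hs0 : 0 < s.re := by linarith
    have hsne : s ≠ 0 := by
      rintro rfl
      simp at hs0
    exact (d.Gd s hs0).div differentiableAt_id hsne
  · have hρne : ρ ≠ 0 := by
      rintro rfl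
      simp at hρ
    exact div_ne_zero (d.Gn ρ hρ) hρne

theorem GD.osc0 (d : GD r k Φ G a) (hr0 : 1 ≤ r) {b : ℕ → ℂ} (hab : DInv a b) {B : ℝ} (hB : 2 * r < B) :
    ∃ c : ℝ, 0 < c ∧ ∀ᶠ x : ℝ in atTop, ∃ y ∈ Icc x (x * Real.log x ^ B), c * y ^ (k / 2) ≤ ‖SM b y‖ := by
  have hr1 : (1:ℝ) ≤ r := by exact_mod_cast hr0
  have hk := d.kpos
  obtain ⟨ρ, hρ, hz⟩ : ∃ ρ : ℂ, k / 2 ≤ ρ.re ∧ Φ ρ = 0 := by
    obtain ⟨ρ, hρ⟩ := d.kp.exists_zero (by positivity)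
    rcases le_total (k / 2) ρ.re with h | h
    · exact ⟨ρ, h, hρ⟩
    · refine ⟨k - ρ, ?_, d.refl ρ hρ⟩
      simp
      linarith
  obtain ⟨c, hc, hev⟩ := d.osc hr0 hab hB (ρ := ρ) (by linarith) le_rfl (order_one d.kp.diff hz)
  refine ⟨c, hc, ?_⟩
  filter_upwards [hev, eventually_ge_atTop (1:ℝ)] with x hx hx1
  obtain ⟨y, hy, h2⟩ := hx
  refine ⟨y, hy, le_trans ?_ h2⟩
  rw [Nat.sub_self, pow_zero, mul_one]
  exact mul_le_mul_of_nonneg_left (Real.rpow_le_rpow_of_exponent_le (hx1.trans hy.1) hρ) hc.le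

/-- sparse windows: no zeros off the line, multiplicities at most `j` -/
theorem GD.crit (d : GD r k Φ G a) (hr0 : 1 ≤ r) {b : ℕ → ℂ} (hab : DInv a b) {B : ℝ} (hB : 2 * r < B) (j : ℕ) (hj : 1 ≤ j)
    (H : ∀ ε' : ℝ, 0 < ε' → ∃ᶠ x : ℝ in atTop, ∀ y ∈ Icc x (x * Real.log x ^ B),
      ‖SM b y‖ ≤ ε' * (y ^ (k / 2) * Real.log y ^ j)) (ρ : ℂ) (hz : Φ ρ = 0) :
    ρ.re = k / 2 ∧ analyticOrderAt Φ ρ ≤ j := by
  have hk := d.kpos
  have key : ∀ ρ : ℂ, Φ ρ = 0 → ρ.re ≤ k / 2 := by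
    intro ρ hz
    by_contra hcon
    push Not at hcon
    obtain ⟨c, hc, hev⟩ := d.osc hr0 hab hB (ρ := ρ) (by linarith) le_rfl (order_one d.kp.diff hz)
    obtain ⟨Y, hY⟩ := eventually_atTop.mp (H313.TK.log_pow_lt c (ρ.re - k / 2) hc (by linarith) j)
    obtain ⟨x, hx1, hx2, hx3, hx4⟩ := ((H 1 one_pos).and_eventually (hev.and
      ((eventually_ge_atTop Y).and (eventually_ge_atTop 1)))).exists
    obtain ⟨y, hy, hy2⟩ := hx2
    have h5 := hx1 y hy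
    have hy0 : 0 < y := by linarith [hy.1]
    have h6 := hY y (hx3.trans hy.1)
    have h7 : y ^ (k / 2) * y ^ (ρ.re - k / 2) = y ^ ρ.re := by
      rw [← Real.rpow_add hy0]
      congr 1
      ring
    have h8 := Real.rpow_pos_of_pos hy0 (k / 2)
    have h9 : y ^ (k / 2) * Real.log y ^ j < c * y ^ ρ.re := by
      calc y ^ (k / 2) * Real.log y ^ j < y ^ (k / 2) * (c * y ^ (ρ.re - k / 2)) := mul_lt_mul_of_pos_left h6 h8
        _ = c * (y ^ (k / 2) * y ^ (ρ.re - k / 2)) := by ring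
        _ = _ := by rw [h7]
    rw [Nat.sub_self, pow_zero, mul_one] at hy2
    linarith
  have hle := key ρ hz
  have hge := key (k - ρ) (d.refl ρ hz)
  have hre : ρ.re = k / 2 := by
    simp at hge
    linarith
  refine ⟨hre, ?_⟩
  by_contra hcon
  push Not at hcon
  have hm' : ((j + 1 : ℕ) : ℕ∞) ≤ analyticOrderAt Φ ρ := by
    push_cast
    exact Order.add_one_le_of_lt hcon
  obtain ⟨c, hc, hev⟩ := d.osc hr0 hab hB (ρ := ρ) (by linarith) (by omega) hm'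
  obtain ⟨x, hx1, hx2, hx3⟩ := ((H (c / 2) (by positivity)).and_eventually (hev.and (eventually_gt_atTop (1:ℝ)))).exists
  obtain ⟨y, hy, hy2⟩ := hx2
  have h5 := hx1 y hy
  have hy1 : 1 < y := hx3.trans_le hy.1
  have h6 : 0 < Real.log y := Real.log_pos hy1
  have h7 : 0 < y ^ (k / 2) := Real.rpow_pos_of_pos (by linarith) _
  rw [hre, Nat.add_sub_cancel] at hy2
  have h8 : 0 < c * (y ^ (k / 2) * Real.log y ^ j) := by positivity
  linarith

/-- sparse windows: power saving -/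
theorem GD.crit_pow (d : GD r k Φ G a) (hr0 : 1 ≤ r) {b : ℕ → ℂ} (hab : DInv a b) {B : ℝ} (hB : 2 * r < B) {dl : ℝ}
    (hdl : k / 2 ≤ dl)
    (H : ∀ ε' : ℝ, 0 < ε' → ∃ᶠ x : ℝ in atTop, ∀ y ∈ Icc x (x * Real.log x ^ B),
      ‖SM b y‖ ≤ y ^ (dl + ε')) (ρ : ℂ) (hz : Φ ρ = 0) : k - dl ≤ ρ.re ∧ ρ.re ≤ dl := by
  have hk := d.kpos
  have key : ∀ ρ : ℂ, Φ ρ = 0 → ρ.re ≤ dl := by
    intro ρ hz
    by_contra hcon
    push Not at hcon
    obtain ⟨c, hc, hev⟩ := d.osc hr0 hab hB (ρ := ρ) (by linarith) le_rfl (order_one d.kp.diff hz)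
    set ε' : ℝ := (ρ.re - dl) / 2 with hε'
    have hε0 : 0 < ε' := by rw [hε']; linarith
    obtain ⟨Y, hY⟩ := eventually_atTop.mp (H313.TK.log_pow_lt c ε' hc hε0 0)
    obtain ⟨x, hx1, hx2, hx3, hx4⟩ := ((H ε' hε0).and_eventually (hev.and
      ((eventually_ge_atTop Y).and (eventually_ge_atTop 1)))).exists
    obtain ⟨y, hy, hy2⟩ := hx2
    have h5 := hx1 y hy
    have hy0 : 0 < y := by linarith [hy.1]
    have h6 := hY y (hx3.trans hy.1)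
    rw [pow_zero] at h6
    have h7 : y ^ (dl + ε') * y ^ ε' = y ^ ρ.re := by
      rw [← Real.rpow_add hy0]
      congr 1
      rw [hε']
      ring
    have h8 := Real.rpow_pos_of_pos hy0 (dl + ε')
    rw [Nat.sub_self, pow_zero, mul_one] at hy2
    have h9 : y ^ (dl + ε') < c * y ^ ρ.re := by
      calc y ^ (dl + ε') = y ^ (dl + ε') * 1 := (mul_one _).symm
        _ < y ^ (dl + ε') * (c * y ^ ε') := mul_lt_mul_of_pos_left h6 h8
        _ = c * (y ^ (dl + ε') * y ^ ε') := by ring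
        _ = _ := by rw [h7]
    linarith
  have hle := key ρ hz
  have hge := key (k - ρ) (d.refl ρ hz)
  simp at hge
  exact ⟨by linarith, hle⟩

end

end H313.GK
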