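import Pool.Agent.H313R3.GK.X

/-!
# Families of weight two forms
-/

open Complex MeasureTheory Filter Topology Set UpperHalfPlane MatrixGroups ModularForm CongruenceSubgroup
open scoped ComplexConjugate

set_option linter.unusedSectionVars false
set_option linter.unusedVariables false
set_option autoImplicit false

namespace H313.GK

noncomputable section

/-- the coefficients as an arithmetic function -/
def coeffs {N : ℕ} (f : CuspForm (Gamma0 N : Subgroup (GL (Fin 2) ℝ)) 2) : ArithmeticFunction ℂ :=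
  ⟨fun n => if n = 0 then 0 else (qExpansion 1 f).coeff n, if_pos rfl⟩

theorem coeffs_eq {N : ℕ} [NeZero N] (f : CuspForm (Gamma0 N : Subgroup (GL (Fin 2) ℝ)) 2) :
    (fun n => (qExpansion 1 f).coeff n) = ⇑(coeffs f) := by
  funext n
  show _ = if n = 0 then 0 else (qExpansion 1 f).coeff n
  split_ifs with h
  · rw [h, coeff_zero0]
  · rfl

/-- arithmetic function from a sequence -/
def mkAF (b : ℕ → ℂ) : ArithmeticFunction ℂ := ⟨fun n => if n = 0 then 0 else b n, if_pos rfl⟩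

theorem mkAF_apply (b : ℕ → ℂ) {n : ℕ} (hn : n ≠ 0) : mkAF b n = b n := if_neg hn

theorem exists_inv (a : ArithmeticFunction ℂ) (h1 : a 1 = 1) : ∃ b : ArithmeticFunction ℂ, a * b = 1 := by
  obtain ⟨b, hb⟩ := exists_dinv (fun n => a n) h1
  refine ⟨mkAF b, ?_⟩
  ext n
  rcases Nat.eq_zero_or_pos n with hn | hn
  · rw [hn]
    simp
  rw [ArithmeticFunction.mul_apply, ArithmeticFunction.one_apply, ← hb n hn]
  refine Finset.sum_congr rfl fun p hp => ?_
  have h2 := Nat.mem_divisorsAntidiagonal.1 hp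
  have h3 : p.2 ≠ 0 := by
    rintro h0
    rw [h0, mul_zero] at h2
    omega
  rw [mkAF_apply b h3]

theorem fam {ι : Type*} [Fintype ι] [Nonempty ι] {N : ι → ℕ} [∀ i, NeZero (N i)]
    (f : ∀ i, CuspForm (Gamma0 (N i) : Subgroup (GL (Fin 2) ℝ)) 2) (ε : ι → ℝ) (hf : ∀ i, IsNorm (N i) (f i) (ε i)) :
    ∃ (Λ : ι → ℂ → ℂ) (G : ℂ → ℂ), (∀ i, Differentiable ℂ (Λ i)) ∧
      (∀ i, ∀ s : ℂ, 2 < s.re → Λ i s = ((Real.sqrt (N i) / (2 * Real.pi) : ℝ) : ℂ) ^ s * Complex.Gamma s * LSeries (coeffs (f i)) s) ∧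
      (∀ i s, Λ i (2 - s) = ε i * Λ i s) ∧
      GD (Fintype.card ι) 2 (fun s => ∏ i, Λ i s) G (∏ i, coeffs (f i)) := by
  have d : ∀ i, HD 2 (Real.sqrt (N i)) (ε i) (coeffs (f i))
      (fun y => (f i) (ofComplex (Complex.I * ((y / Real.sqrt (N i) : ℝ) : ℂ)))) := by
    intro i
    rw [← coeffs_eq]
    exact (hf i).hd (f i)
  have h := GD.prod (fun i => (d i).gd) Finset.univ Finset.univ_nonempty
  rw [Finset.card_univ] at h
  refine ⟨_, _, fun i => (d i).diff, fun i s hs => ?_, fun i s => ?_, h⟩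
  · obtain ⟨C, hC, hb⟩ := coeff_bound0 (f i)
    have hb' : ∀ n, ‖coeffs (f i) n‖ ≤ C * (n:ℝ) ^ 1 := by
      intro n
      rw [← congrFun (coeffs_eq (f i)) n]
      exact hb n
    exact (d i).dir hb' (by norm_num; linarith)
  · have h1 := (d i).fe' s
    have h2 : ((2 : ℝ) : ℂ) = 2 := by norm_num
    rw [h2] at h1
    exact h1

end

end H313.GK
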